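import Pool.Agent.Helper68.C8.CFd

/-!
# The law for a fixed finite set of primes with exponent two

Part 5 of the module CF: the final statement.
-/

set_option autoImplicit false

open scoped Classical
open Finset Filter

namespace Pool.Agent.Helper68.C8.CF

open Pool.Agent.Y692.QS (Ei)
open Pool.Agent.Y715.T.RecG (Pq)
open Pool.Agent.Y703.CT (rq Ker)
open Pool.Agent.Y699.E (nrm QB)
open Pool.Agent.Y703.XL (cr cr_pos)
open Pool.Agent.Helper68.C3 (SS)
open Pool.Agent.Helper68.C3.Asy3 (t_LOW)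
open Pool.Agent.Helper68.C6 (Ker6)
open Pool.Agent.Helper68.C7 (Ker7)

theorem pq_taut (A B C D E : Prop) :
    (A ∧ B ∧ ((C ∧ D) ∨ (¬ C ∧ E))) ↔ (((A ∧ B ∧ C) ∧ D) ∨ ((A ∧ B ∧ ¬ C) ∧ E)) := by
  tauto

theorem p_taut (A B C : Prop) : (A ∧ B) ↔ ((A ∧ B ∧ C) ∨ (A ∧ B ∧ ¬ C)) := by
  tauto

/-- the law for the sets containing `T` -/
theorem law_T (T : Finset Ei) (a : ℕ) (κ : ZMod 3) {ε : ℝ} (hε : 0 < ε) :
    ∀ᶠ X : ℕ in atTop,
      |(((SS X).filter fun U => T ⊆ U ∧ GoodU a κ T U).card : ℝ) -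
        cr 0 * (((SS X).filter fun U => T ⊆ U).card : ℝ)| ≤ ε * X := by
  have hmem : ∀ (Q : Finset Ei → Prop) (X : ℕ) (U : Finset Ei),
      U ∈ SQ T Q X ↔ U ∈ SS X ∧ T ⊆ U ∧ Q U := by
    intro Q X U
    unfold SQ
    rw [mem_filter]
  have hone : ∀ P : Finset Ei → Prop, DatB (WT T fun _ => True) P 0 →
      (∀ U, GoodU a κ T U ↔ P U) → ∀ᶠ X : ℕ in atTop,
      |(((SS X).filter fun U => T ⊆ U ∧ GoodU a κ T U).card : ℝ) -
        cr 0 * (((SS X).filter fun U => T ⊆ U).card : ℝ)| ≤ ε * X := by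
    intro P hP hG
    filter_upwards [t_AS' hP hε] with X hX
    have e1 : ((SS X).filter fun U => T ⊆ U ∧ GoodU a κ T U) =
        (SQ T (fun _ => True) X).filter P := by
      ext U
      rw [mem_filter, mem_filter, hmem, hG U]
      exact ⟨fun h => ⟨⟨h.1, h.2.1, trivial⟩, h.2.2⟩, fun h => ⟨h.1.1, h.1.2.1, h.2⟩⟩
    have e2 : ((SS X).filter fun U => T ⊆ U) = SQ T (fun _ => True) X := by
      ext U
      rw [mem_filter, hmem]
      exact ⟨fun h => ⟨h.1, h.2, trivial⟩, fun h => ⟨h.1, h.2.1⟩⟩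
    rw [e1, e2]
    exact hX
  by_cases h0 : a = 0 ∧ κ = 0
  · filter_upwards [t_AS' (datB_7 T) (half_pos hε), t_AS' (datB_A T) (half_pos hε)] with X h1 h2
    have e1 : (((SS X).filter fun U => T ⊆ U ∧ GoodU a κ T U).card : ℝ) =
        (((SQ T (cls T) X).filter fun U =>
          Ker7 (fun ρ : {ρ // ρ ∈ U} => (ρ : Ei)) (eT T)).card : ℝ) +
        (((SQ T (fun U => ¬ cls T U) X).filter fun U =>
          Ker (fun ρ : {ρ // ρ ∈ U} => (ρ : Ei)) (eT T)).card : ℝ) := by
      rw [← Nat.cast_add, ← card_union_of_disjoint]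
      · congr 2
        ext U
        rw [mem_union, mem_filter, mem_filter, mem_filter, hmem, hmem]
        have hG : GoodU a κ T U ↔ ((cls T U ∧ Ker7 (fun ρ : {ρ // ρ ∈ U} => (ρ : Ei)) (eT T)) ∨
            (¬ cls T U ∧ Ker (fun ρ : {ρ // ρ ∈ U} => (ρ : Ei)) (eT T))) := by
          unfold GoodU
          rw [if_pos h0]
          by_cases hs : cls T U
          · rw [if_pos (show ∑ ρ : {ρ // ρ ∈ U}, eT T ρ * rq (ρ : Ei) = 0 from hs)]
            exact ⟨fun h => Or.inl ⟨hs, h⟩, fun h => h.elim (fun h => h.2) fun h => absurd hs h.1⟩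
          · rw [if_neg (show ¬ ∑ ρ : {ρ // ρ ∈ U}, eT T ρ * rq (ρ : Ei) = 0 from hs)]
            exact ⟨fun h => Or.inr ⟨hs, h⟩, fun h => h.elim (fun h => absurd h.1 hs) fun h => h.2⟩
        rw [hG]
        exact pq_taut _ _ _ _ _
      · rw [Finset.disjoint_left]
        intro U h3 h4
        rw [mem_filter, hmem] at h3 h4
        exact h4.1.2.2 h3.1.2.2
    have e2 : (((SS X).filter fun U => T ⊆ U).card : ℝ) =
        ((SQ T (cls T) X).card : ℝ) + ((SQ T (fun U => ¬ cls T U) X).card : ℝ) := by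
      rw [← Nat.cast_add, ← card_union_of_disjoint]
      · congr 2
        ext U
        rw [mem_union, mem_filter, hmem, hmem]
        exact p_taut _ _ _
      · rw [Finset.disjoint_left]
        intro U h3 h4
        rw [hmem] at h3 h4
        exact h4.2.2 h3.2.2
    rw [e1, e2]
    have h5 := abs_le.1 h1
    have h6 := abs_le.1 h2
    rw [abs_le]
    constructor
    · linarith [h5.1, h6.1]
    · linarith [h5.2, h6.2]
  · by_cases ha : a = 0
    · have hκ : κ ≠ 0 := fun h => h0 ⟨ha, h⟩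
      refine hone _ (datB_2 T hκ) fun U => ?_
      unfold GoodU
      rw [if_neg h0, if_pos ha]
    · by_cases ha1 : a = 1
      · refine hone _ (datB_6 T κ) fun U => ?_
        unfold GoodU
        rw [if_neg h0, if_neg ha, if_pos ha1]
      · refine hone _ (datB_5 T κ) fun U => ?_
        unfold GoodU
        rw [if_neg h0, if_neg ha, if_neg ha1]

/-! ### The sets disjoint from `T` -/

theorem mem_SS {X : ℕ} {S : Finset Ei} : S ∈ SS X ↔ (∀ π ∈ S, Pq π) ∧ ∏ π ∈ S, nrm π ≤ X := by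
  constructor
  · intro h
    exact Pool.Agent.Helper68.C3.Cnt3.SS_pr h
  · rintro ⟨h1, h2⟩
    unfold SS
    rw [mem_filter, mem_powerset]
    exact ⟨fun π hπ => Pool.Agent.Helper68.C3.Cnt3.mem_QB_of h1 h2 hπ, h1, h2⟩

theorem card_dis {T : Finset Ei} (hT : ∀ ρ ∈ T, Pq ρ) (P : Finset Ei → Prop) (X : ℕ) :
    ((SS X).filter fun S => Disjoint S T ∧ P (S ∪ T)).card =
      ((SS (X * ∏ π ∈ T, nrm π)).filter fun U => T ⊆ U ∧ P U).card := by
  have hT0 : 0 < ∏ π ∈ T, nrm π := Pool.Agent.Helper68.C3.Cnt3.pr_pos hT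
  refine card_bij (fun S _ => S ∪ T) ?_ ?_ ?_
  · intro S hS
    rw [mem_filter, mem_SS] at hS
    rw [mem_filter, mem_SS]
    obtain ⟨⟨h1, h2⟩, h3, h4⟩ := hS
    refine ⟨⟨fun π hπ => ?_, ?_⟩, subset_union_right, h4⟩
    · rw [mem_union] at hπ
      rcases hπ with h | h
      · exact h1 π h
      · exact hT π h
    · rw [prod_union h3]
      exact Nat.mul_le_mul_right _ h2
  · intro S hS S' hS' h
    rw [mem_filter] at hS hS'
    have h1 : (S ∪ T) \ T = S := by
      rw [union_sdiff_right]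
      exact sdiff_eq_self_of_disjoint hS.2.1
    have h2 : (S' ∪ T) \ T = S' := by
      rw [union_sdiff_right]
      exact sdiff_eq_self_of_disjoint hS'.2.1
    rw [← h1, ← h2, h]
  · intro U hU
    rw [mem_filter, mem_SS] at hU
    obtain ⟨⟨h1, h2⟩, h3, h4⟩ := hU
    have h5 : U \ T ∪ T = U := sdiff_union_of_subset h3
    have hd : Disjoint (U \ T) T := sdiff_disjoint
    refine ⟨U \ T, ?_, h5⟩
    rw [mem_filter, mem_SS]
    refine ⟨⟨fun π hπ => h1 π (mem_sdiff.1 hπ).1, ?_⟩, hd, ?_⟩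
    · rw [← h5, prod_union hd] at h2
      exact Nat.le_of_mul_le_mul_right h2 hT0
    · rw [h5]
      exact h4

theorem low_dis (T : Finset Ei) : ∃ (c : ℝ) (X₀ : ℕ), 0 < c ∧ ∀ X : ℕ, X₀ ≤ X →
    c * X ≤ (((SS X).filter fun S => Disjoint S T).card : ℝ) := by
  obtain ⟨c, X₀, hc, h⟩ := t_LOW
  refine ⟨c / 2 ^ T.card, X₀, by positivity, fun X hX => ?_⟩
  have h1 := h X hX
  have h2 : (SS X).card ≤ 2 ^ T.card * ((SS X).image fun S => S \ T).card := by
    refine card_le_mul_card_image (SS X) (2 ^ T.card) fun A _ => ?_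
    rw [← card_powerset]
    refine card_le_card_of_injOn (fun S => S ∩ T) ?_ ?_
    · intro S _
      rw [mem_coe, mem_powerset]
      exact inter_subset_right
    · intro S hS S' hS' h
      rw [mem_coe, mem_filter] at hS hS'
      have e1 : S \ T ∪ S ∩ T = S := sdiff_union_inter S T
      have e2 : S' \ T ∪ S' ∩ T = S' := sdiff_union_inter S' T
      have h' : S ∩ T = S' ∩ T := h
      rw [← e1, ← e2, h', hS.2, hS'.2]
  have h3 : ((SS X).image fun S => S \ T) ⊆ (SS X).filter fun S => Disjoint S T := by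
    intro A hA
    rw [mem_image] at hA
    obtain ⟨S, hS, rfl⟩ := hA
    rw [mem_SS] at hS
    rw [mem_filter, mem_SS]
    refine ⟨⟨fun π hπ => hS.1 π (mem_sdiff.1 hπ).1, ?_⟩, sdiff_disjoint⟩
    refine (prod_le_prod_of_subset_of_one_le' sdiff_subset fun π hπ _ => ?_).trans hS.2
    exact Pool.Agent.Helper68.C3.Cnt3.one_le_nrm (hS.1 π hπ)
  have h4 : ((SS X).card : ℝ) ≤ 2 ^ T.card *
      (((SS X).filter fun S => Disjoint S T).card : ℝ) := by
    exact_mod_cast h2.trans (Nat.mul_le_mul_left _ (card_le_card h3))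
  rw [div_mul_eq_mul_div, div_le_iff₀ (by positivity)]
  linarith

/-- **the law for a fixed finite set of primes with exponent two** -/
theorem s_CF : S_CF := by
  intro T hT a κ
  obtain ⟨c, X₀, hc, hlow⟩ := low_dis T
  have hN0 : 0 < ∏ π ∈ T, nrm π := Pool.Agent.Helper68.C3.Cnt3.pr_pos hT
  obtain ⟨N, hN⟩ : ∃ N : ℕ, N = ∏ π ∈ T, nrm π := ⟨_, rfl⟩
  rw [← hN] at hN0
  have hNr : (0 : ℝ) < N := by exact_mod_cast hN0
  rw [Metric.tendsto_nhds]
  intro ε hε
  have h1 := law_T T a κ (show (0 : ℝ) < ε * c / (2 * N) by positivity)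
  have h2 : Tendsto (fun X : ℕ => X * N) atTop atTop :=
    tendsto_id.atTop_mul_const' hN0
  filter_upwards [h2.eventually h1, eventually_ge_atTop (max X₀ 1)] with X hX hX0
  have hX1 : (0 : ℝ) < X := by
    have : 0 < X := by
      have := (le_max_right X₀ 1).trans hX0
      omega
    exact_mod_cast this
  have hlo := hlow X ((le_max_left _ _).trans hX0)
  have hSpos : (0 : ℝ) < (((SS X).filter fun S => Disjoint S T).card : ℝ) :=
    lt_of_lt_of_le (by positivity) hlo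
  have e1 := card_dis hT (GoodU a κ T) X
  have e2 : ((SS X).filter fun S => Disjoint S T).card =
      ((SS (X * ∏ π ∈ T, nrm π)).filter fun U => T ⊆ U).card := by
    have h := card_dis hT (fun _ => True) X
    simpa only [and_true] using h
  rw [← hN] at e1 e2
  rw [← e1, ← e2] at hX
  rw [Real.dist_eq]
  obtain ⟨n, hn⟩ : ∃ n : ℝ, n = (((SS X).filter fun S =>
    Disjoint S T ∧ GoodU a κ T (S ∪ T)).card : ℝ) := ⟨_, rfl⟩
  obtain ⟨m, hm⟩ : ∃ m : ℝ, m = (((SS X).filter fun S => Disjoint S T).card : ℝ) := ⟨_, rfl⟩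
  rw [← hn, ← hm]
  rw [← hn, ← hm] at hX
  rw [← hm] at hSpos hlo
  have e3 : n / m - cr 0 = (n - cr 0 * m) / m := by
    field_simp
  rw [e3, abs_div, abs_of_pos hSpos, div_lt_iff₀ hSpos]
  refine lt_of_le_of_lt hX ?_
  push_cast
  have e4 : ε * c / (2 * N) * (X * N) = ε / 2 * (c * X) := by
    field_simp
  rw [e4]
  have g2 : ε / 2 * (c * X) ≤ ε / 2 * m := mul_le_mul_of_nonneg_left hlo (by positivity)
  have g4 : 0 < ε * m := by positivity
  linarith

end Pool.Agent.Helper68.C8.CF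

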