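import Pool.Agent.Helper68.C8.AllCfb

/-!
# The exact proportion of all cube-free twists, part 3: domination
-/

set_option autoImplicit false
set_option linter.unusedSectionVars false

open scoped Classical

namespace Pool.Agent.Helper68.C8.AllCf

open Finset Filter
open Pool.Agent.Y692.QS (Ei)
open Pool.Agent.Y715.T.RecG (Pq)
open Pool.Agent.Y699.E (nrm)
open Pool.Agent.Y703.XL (cr cr_pos)
open Pool.Agent.Helper68.C3 (SS Cl)
open Pool.Agent.Helper68.C8.CF (mem_SS)
open Pool.Agent.Helper68.C6.MJ (lim_R)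

lemma SS_zero : SS 0 = ∅ := by
  ext S
  rw [mem_SS]
  constructor
  · rintro ⟨h1, h2⟩
    have := NN_pos h1
    unfold NN at this
    omega
  · intro h
    exact absurd h (Finset.notMem_empty _)

/-- an upper bound for the number of the sets -/
lemma SS_up : ∃ C : ℝ, 0 < C ∧ ∀ X : ℕ, ((SS X).card : ℝ) ≤ C * X := by
  obtain ⟨c, hc0, hc⟩ := Pool.Agent.Helper68.C6.SQ.s_SQD
  have hS : Tendsto (fun X : ℕ => ((SS X).card : ℝ) / (X : ℝ)) atTop (nhds (9 * c)) := by
    have h := lim_R hc (fun _ => True)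
    simp only [Finset.filter_true] at h
    exact h
  obtain ⟨C, hC⟩ := hS.bddAbove_range
  refine ⟨max C 1, lt_max_of_lt_right one_pos, fun X => ?_⟩
  rcases Nat.eq_zero_or_pos X with h | h
  · subst h
    rw [SS_zero]
    simp
  · have h1 : (0 : ℝ) < X := by exact_mod_cast h
    have h2 : ((SS X).card : ℝ) / (X : ℝ) ≤ C := hC ⟨X, rfl⟩
    rw [div_le_iff₀ h1] at h2
    exact h2.trans (mul_le_mul_of_nonneg_right (le_max_left _ _) h1.le)

/-- a counting bound gives the convergence of the sum of the inverse squares -/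
theorem summable_of_count {ι : Type*} (p : ι → Prop) (a : ι → ℕ) (ha : ∀ i, p i → 1 ≤ a i)
    {C : ℝ} (hC : 0 ≤ C) (F : ℕ → Finset ι) (hF : ∀ X i, p i → a i ≤ X → i ∈ F X)
    (hcard : ∀ X, ((F X).card : ℝ) ≤ C * X) :
    Summable fun i => if p i then 1 / (a i : ℝ) ^ 2 else 0 := by
  refine summable_of_sum_le (c := 4 * C) (fun i => ?_) fun u => ?_
  · show (0 : ℝ) ≤ _
    split_ifs
    · positivity
    · exact le_rfl
  rw [← Finset.sum_filter]
  set v := u.filter p with hv
  have h1 : ∑ i ∈ v, 1 / (a i : ℝ) ^ 2 =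
      ∑ k ∈ v.image (fun i => Nat.log 2 (a i)), ∑ i ∈ v with Nat.log 2 (a i) = k,
        1 / (a i : ℝ) ^ 2 :=
    (Finset.sum_fiberwise_of_maps_to (fun i hi => Finset.mem_image_of_mem _ hi) _).symm
  rw [h1]
  have h2 : ∀ k : ℕ, ∑ i ∈ v with Nat.log 2 (a i) = k, 1 / (a i : ℝ) ^ 2 ≤
      2 * C * (1 / 2) ^ k := by
    intro k
    have h3 : ∀ i ∈ v.filter (fun i => Nat.log 2 (a i) = k), 1 / (a i : ℝ) ^ 2 ≤
        1 / (2 ^ k) ^ 2 := by
      intro i hi
      rw [Finset.mem_filter, hv, Finset.mem_filter] at hi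
      have h4 := ha i hi.1.2
      have h5 : 2 ^ k ≤ a i := by
        rw [← hi.2]
        exact Nat.pow_log_le_self 2 (by omega)
      have h6 : (2 : ℝ) ^ k ≤ a i := by exact_mod_cast h5
      exact one_div_le_one_div_of_le (by positivity) (by gcongr)
    have h4 : ((v.filter (fun i => Nat.log 2 (a i) = k)).card : ℝ) ≤ C * (2 * 2 ^ k) := by
      have h5 : v.filter (fun i => Nat.log 2 (a i) = k) ⊆ F (2 * 2 ^ k) := by
        intro i hi
        rw [Finset.mem_filter, hv, Finset.mem_filter] at hi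
        refine hF _ i hi.1.2 ?_
        have h6 := Nat.lt_pow_succ_log_self (b := 2) one_lt_two (a i)
        rw [hi.2, pow_succ] at h6
        omega
      have h6 := hcard (2 * 2 ^ k)
      push_cast at h6
      exact (by exact_mod_cast Finset.card_le_card h5 : _ ≤ ((F (2 * 2 ^ k)).card : ℝ)).trans h6
    refine (Finset.sum_le_card_nsmul _ _ _ h3).trans ?_
    rw [nsmul_eq_mul]
    refine (mul_le_mul_of_nonneg_right h4 (by positivity)).trans (le_of_eq ?_)
    rw [one_div_pow]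
    field_simp
  refine (Finset.sum_le_sum fun k _ => h2 k).trans ?_
  rw [← Finset.mul_sum]
  have h3 : ∑ k ∈ v.image (fun i => Nat.log 2 (a i)), ((1 : ℝ) / 2) ^ k ≤ 2 := by
    refine le_trans ?_ tsum_geometric_two.le
    exact summable_geometric_two.sum_le_tsum _ fun k _ => by positivity
  nlinarith

/-- the convergence of the sum over the sets `T` -/
lemma summ : Summable fun T : Finset Ei => if Cl T then 1 / (NN T : ℝ) ^ 2 else 0 := by
  obtain ⟨C, hC, hup⟩ := SS_up
  exact summable_of_count Cl NN (fun T hT => NN_pos hT) hC.le SS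
    (fun X T hT h => mem_SS.2 ⟨hT, h⟩) hup

/-- **domination** -/
theorem dom (G A : Finset Ei → ℕ → ℕ) (a : ℕ) (hA : ∀ T Y, A T Y ≤ (SS Y).card)
    (hG : ∀ T Y, G T Y ≤ A T Y)
    (hlim : ∀ T, (∀ π ∈ T, Pq π) →
      Tendsto (fun Y : ℕ => ((G T Y : ℝ) - cr 0 * (A T Y : ℝ)) / (Y : ℝ)) atTop (nhds 0)) :
    Tendsto (fun X : ℕ => (∑ T ∈ SS X, ((G T (X / (3 ^ a * NN T ^ 2)) : ℝ) -
      cr 0 * (A T (X / (3 ^ a * NN T ^ 2)) : ℝ))) / (X : ℝ)) atTop (nhds 0) := by
  obtain ⟨C, hC, hup⟩ := SS_up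
  have hcr : 0 < cr 0 := cr_pos Pool.Agent.Y703.XL.t_C9 0
  set f : ℕ → Finset Ei → ℝ := fun X T => if Cl T then
    ((G T (X / (3 ^ a * NN T ^ 2)) : ℝ) - cr 0 * (A T (X / (3 ^ a * NN T ^ 2)) : ℝ)) / (X : ℝ)
    else 0 with hf
  have hz : ∀ T, G T 0 = 0 ∧ A T 0 = 0 := by
    intro T
    have h1 := hA T 0
    rw [SS_zero, Finset.card_empty] at h1
    have h2 := hG T 0
    omega
  have hsum : ∀ X : ℕ, ∑' T, f X T = (∑ T ∈ SS X, ((G T (X / (3 ^ a * NN T ^ 2)) : ℝ) -
      cr 0 * (A T (X / (3 ^ a * NN T ^ 2)) : ℝ))) / (X : ℝ) := by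
    intro X
    rw [tsum_eq_sum (s := SS X), Finset.sum_div]
    · refine Finset.sum_congr rfl fun T hT => ?_
      rw [hf]
      exact if_pos (mem_SS.1 hT).1
    · intro T hT
      rw [hf]
      show (if Cl T then _ else _) = _
      split_ifs with h
      · have h1 : X < NN T := by
          by_contra h2
          exact hT (mem_SS.2 ⟨h, not_lt.1 h2⟩)
        have h2 : X / (3 ^ a * NN T ^ 2) = 0 := by
          rw [Nat.div_eq_zero_iff]
          right
          refine lt_of_lt_of_le h1 ?_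
          calc NN T ≤ NN T ^ 2 := Nat.le_self_pow two_ne_zero _
            _ ≤ _ := Nat.le_mul_of_pos_left _ (by positivity)
        rw [h2, (hz T).1, (hz T).2]
        simp
      · rfl
  have hbound : ∀ X T, ‖f X T‖ ≤ (1 + cr 0) * C *
      (if Cl T then 1 / (NN T : ℝ) ^ 2 else 0) := by
    intro X T
    by_cases h : Cl T
    · have e : f X T = ((G T (X / (3 ^ a * NN T ^ 2)) : ℝ) -
          cr 0 * (A T (X / (3 ^ a * NN T ^ 2)) : ℝ)) / (X : ℝ) := if_pos h
      rw [e, if_pos h]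
      obtain ⟨Y, hY⟩ : ∃ Y, Y = X / (3 ^ a * NN T ^ 2) := ⟨_, rfl⟩
      rw [← hY]
      have hN := NN_pos h
      have hm : 0 < 3 ^ a * NN T ^ 2 := by positivity
      have h1 : (A T Y : ℝ) ≤ C * Y := (by exact_mod_cast hA T Y : (A T Y : ℝ) ≤ _).trans (hup Y)
      have h2 : (G T Y : ℝ) ≤ A T Y := by exact_mod_cast hG T Y
      have h3 : (0 : ℝ) ≤ G T Y := Nat.cast_nonneg _
      have h4 : |(G T Y : ℝ) - cr 0 * (A T Y : ℝ)| ≤ (1 + cr 0) * (C * Y) := by
        have h5 : 0 ≤ cr 0 * (A T Y : ℝ) := mul_nonneg hcr.le (Nat.cast_nonneg _)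
        have h6 : cr 0 * (A T Y : ℝ) ≤ cr 0 * (C * Y) := mul_le_mul_of_nonneg_left h1 hcr.le
        rw [abs_le]
        constructor <;> nlinarith
      have h7 : (Y : ℝ) * (NN T : ℝ) ^ 2 ≤ X := by
        have h8 : Y * (3 ^ a * NN T ^ 2) ≤ X := by
          rw [hY]
          exact Nat.div_mul_le_self _ _
        have h9 : Y * NN T ^ 2 ≤ Y * (3 ^ a * NN T ^ 2) :=
          Nat.mul_le_mul_left _ (Nat.le_mul_of_pos_left _ (by positivity))
        exact_mod_cast h9.trans h8
      rw [Real.norm_eq_abs, abs_div, abs_of_nonneg (Nat.cast_nonneg X : (0 : ℝ) ≤ (X : ℝ))]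
      rcases Nat.eq_zero_or_pos X with h8 | h8
      · rw [h8]
        simp only [Nat.cast_zero, div_zero]
        positivity
      · have h9 : (0 : ℝ) < X := by exact_mod_cast h8
        have h10 : (0 : ℝ) < (NN T : ℝ) ^ 2 := by
          have : (0 : ℝ) < NN T := by exact_mod_cast hN
          positivity
        rw [div_le_iff₀ h9]
        refine h4.trans ?_
        rw [mul_one_div, div_mul_eq_mul_div, le_div_iff₀ h10]
        have h11 : 0 ≤ (1 + cr 0) * C := by positivity
        calc (1 + cr 0) * (C * Y) * (NN T : ℝ) ^ 2 = (1 + cr 0) * C * (Y * (NN T : ℝ) ^ 2) := by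
              ring
          _ ≤ (1 + cr 0) * C * X := mul_le_mul_of_nonneg_left h7 h11
    · have e : f X T = 0 := if_neg h
      rw [e, if_neg h]
      simp
  have hpt : ∀ T, Tendsto (fun X => f X T) atTop (nhds 0) := by
    intro T
    by_cases h : Cl T
    · have hN := NN_pos h
      have hm : 3 ^ a * NN T ^ 2 ≠ 0 := by positivity
      have h1 := (hlim T h).comp (Nat.tendsto_div_const_atTop (n := 3 ^ a * NN T ^ 2) hm)
      have h2 := h1.norm
      rw [norm_zero] at h2
      refine squeeze_zero_norm (fun X => ?_) h2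
      have e : f X T = ((G T (X / (3 ^ a * NN T ^ 2)) : ℝ) -
          cr 0 * (A T (X / (3 ^ a * NN T ^ 2)) : ℝ)) / (X : ℝ) := if_pos h
      rw [e]
      show _ ≤ ‖((G T (X / (3 ^ a * NN T ^ 2)) : ℝ) -
          cr 0 * (A T (X / (3 ^ a * NN T ^ 2)) : ℝ)) / ((X / (3 ^ a * NN T ^ 2) : ℕ) : ℝ)‖
      obtain ⟨Y, hY⟩ : ∃ Y, Y = X / (3 ^ a * NN T ^ 2) := ⟨_, rfl⟩
      rw [← hY, norm_div, norm_div]
      rcases Nat.eq_zero_or_pos Y with h8 | h8
      · rw [h8, (hz T).1, (hz T).2]
        simp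
      · have h9 : (0 : ℝ) < Y := by exact_mod_cast h8
        have h10 : Y ≤ X := by
          rw [hY]
          exact Nat.div_le_self _ _
        refine div_le_div_of_nonneg_left (norm_nonneg _) (norm_pos_iff.2 h9.ne') ?_
        rw [Real.norm_eq_abs, Real.norm_eq_abs, abs_of_pos h9, abs_of_nonneg (Nat.cast_nonneg X)]
        exact_mod_cast h10
    · have e : ∀ X, f X T = 0 := fun X => if_neg h
      simp only [e]
      exact tendsto_const_nhds
  have hfin := tendsto_tsum_of_dominated_convergence (f := f) (g := fun _ => (0 : ℝ))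
    (bound := fun T => (1 + cr 0) * C * (if Cl T then 1 / (NN T : ℝ) ^ 2 else 0))
    (summ.mul_left _) hpt (Eventually.of_forall hbound)
  rw [tsum_zero] at hfin
  refine hfin.congr fun X => hsum X

end Pool.Agent.Helper68.C8.AllCf
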