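import Pool.Agent.Helper68.C8.Defs8
import Pool.Agent.Helper68.C7.Defs7
import Pool.Agent.Helper68.C5.Defs5
import Pool.Agent.Helper68.C3.Stm

/-!
# The `3`-part of the formula for all cubic twists over `ℚ(ω)`: statements
-/

set_option autoImplicit false
set_option linter.unusedVariables false

open scoped Classical

namespace Pool.Agent.Helper68.C8

open NumberField
open Pool.Agent.Y692.QS (Ei w)
open Pool.Agent.Y696.CTK (Tri Law3)
open Pool.Agent.Y703.CT (Dt pD rq)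
open Pool.Agent.Helper68.C3 (Part3)
open Pool.Agent.Helper68.C5 (pD5)
open Pool.Agent.Helper68.C7 (Ker7 S_D7)

/-- **ALL**: every cubic twist. -/
def S_ALL : Prop := ∀ (K : Type) [Field K] [NumberField K] [IsCyclotomicExtension {3} ℚ K]
  (D : 𝓞 K), CubeFree D → Law3 D ∧ Crit D

/-- **ALLSQ**: the exact proportion of the squarefree twists. -/
def S_ALLSQ : Prop := ∀ (K : Type) [Field K] [NumberField K] [IsCyclotomicExtension {3} ℚ K],
  Filter.Tendsto (fun X : ℕ =>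
    ({D : 𝓞 K | Algebra.norm ℤ D ≤ X ∧ Squarefree D ∧ Part3 D}.ncard : ℝ) /
      ({D : 𝓞 K | Algebra.norm ℤ D ≤ X ∧ Squarefree D}.ncard : ℝ)) Filter.atTop
    (nhds (∏' i : ℕ, (1 - (1 / 3 : ℝ) ^ (2 * i + 1)))) ∧
  (0.639 : ℝ) < ∏' i : ℕ, (1 - (1 / 3 : ℝ) ^ (2 * i + 1)) ∧
  ∏' i : ℕ, (1 - (1 / 3 : ℝ) ^ (2 * i + 1)) < 0.6391

/-! ### the open cases, as hypotheses -/

/-- the class `D = 1` modulo `3 √-3` -/
def S_III : Prop := ∀ (K : Type) [Field K] [NumberField K] (j : Ei ≃+* 𝓞 K), discr K = -3 →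
  ∀ (J : Type) [Fintype J] [Nonempty J] (π : J → Ei) (e : J → ZMod 3), Dt π e →
    ∑ i, e i * rq (π i) = 0 → Law3 (j (pD π e)) ∧ (Tri (j (pD π e)) ↔ Ker7 π e)

/-- the class `D = 3 ω^k ∏ π_j^(e_j)` -/
def S_IV : Prop := ∀ (K : Type) [Field K] [NumberField K] (j : Ei ≃+* 𝓞 K), discr K = -3 →
  ∀ (J : Type) [Fintype J] (π : J → Ei) (e : J → ZMod 3) (κ : ZMod 3), Dt π e →
    Law3 (j (pD5 π e κ)) ∧ (Tri (j (pD5 π e κ)) ↔ Pool.Agent.Helper68.C5.KerW π e κ)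

end Pool.Agent.Helper68.C8
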