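import Pool.Agent.Helper68.C6.MJ
import Pool.Agent.Helper68.C8.StFin

/-!
# The exact proportion of the squarefree twists: assembly (written by seat helper55; adapted from C6/MJ.lean of
seat helper48)
-/

set_option autoImplicit false
set_option linter.unusedSectionVars false

open scoped Classical

namespace Pool.Agent.Helper68.C8.AllSq

open NumberField Finset Filter
open Pool.Agent.Y692.QS (Ei w nr nr_mul nr_neg mul_re mul_im int_dvd nr_nonneg)
open Pool.Agent.Y715.T.Gi (lam nr_lam lam_sq prime_lam)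
open Pool.Agent.Y715.T.Rec (cs)
open Pool.Agent.Y715.T.RecG (Pq)
open Pool.Agent.Y699.E (nrm prm)
open Pool.Agent.Y703.CT (rq ex_q Dt pD)
open Pool.Agent.Y703.XL (cr)
open Pool.Agent.Y696.CTK (Tri Law3)
open Pool.Agent.Helper68.C3 (Part3 SS Bt GB)
open Pool.Agent.Helper68.C3.Fin3 (b2 b2_bt cr_zero part3_iff dt_of)
open Pool.Agent.Helper68.C5.Chr5 (ts)
open Pool.Agent.Helper68.C7 (Ker7 n7 S_D7)
open Pool.Agent.Helper68.C6 (GV)
open Pool.Agent.Helper68.C6.MJ

/-- the residue of a product -/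
lemma rq_set {S : Finset Ei} (hS : ∀ π ∈ S, Pq π) : rq (∏ π ∈ S, π) = ∑ π ∈ S, rq π := by
  have h := (Pool.Agent.Y703.CT.rq_prod (Finset.univ : Finset S) (f := fun p : S => (p : Ei))
    (fun p => by
      have := prod_prm (S := {(p : Ei)}) (by
        intro π hπ
        rw [Finset.mem_singleton] at hπ
        rw [hπ]
        exact hS p p.2)
      rwa [Finset.prod_singleton] at this)).2
  rw [Finset.prod_coe_sort S (fun π => π), Finset.sum_coe_sort S (fun π => rq π)] at h
  exact h

lemma pD_of (S : Finset Ei) :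
    pD (fun p : S => (p : Ei)) (fun _ => (1 : ZMod 3)) = ∏ π ∈ S, π := by
  unfold pD
  rw [← Finset.prod_coe_sort S (fun π => π)]
  refine Finset.prod_congr rfl fun p _ => ?_
  have : (1 : ZMod 3).val = 1 := rfl
  rw [this, pow_one]

/-- the linear system of the class three -/
lemma ker_n7 {S : Finset Ei} (hne : S.Nonempty) (h0 : ∑ π ∈ S, rq π = 0) :
    Ker7 (fun p : S => (p : Ei)) (fun _ => (1 : ZMod 3)) ↔ n7 S = 3 ^ (0 + 1) := by
  have : Nonempty S := hne.to_subtype
  -- the constants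
  have hc : ∀ c : ZMod 3, (∀ π : S, ∑ ρ : S, cs π ρ * (c - c) = 0 * rq (π : Ei)) ∧
      ∑ π : S, rq (π : Ei) * c = 0 * ∑ π : S, ts 0 (π : Ei) := by
    intro c
    refine ⟨fun π => ?_, ?_⟩
    · simp
    · rw [← Finset.sum_mul, Finset.sum_coe_sort S (fun π => rq π), h0]
      simp
  set T := {q : (S → ZMod 3) × ZMod 3 //
    (∀ π : S, ∑ ρ : S, cs π ρ * (q.1 ρ - q.1 π) = q.2 * rq (π : Ei)) ∧
      ∑ π : S, rq (π : Ei) * q.1 π = q.2 * ∑ π : S, ts 0 (π : Ei)} with hT
  let φ : ZMod 3 → T := fun c => ⟨(fun _ => c, 0), hc c⟩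
  have hφ : Function.Injective φ := by
    intro a b hab
    have h1 := congrArg Subtype.val hab
    have h2 := congrFun (congrArg Prod.fst h1) (Classical.arbitrary S)
    exact h2
  have hcard : n7 S = Nat.card T := rfl
  have h3 : Nat.card (ZMod 3) = 3 := by simp
  rw [hcard]
  constructor
  · intro h
    have hs : Function.Surjective φ := by
      rintro ⟨⟨v, s⟩, h1, h2⟩
      obtain ⟨h4, h5⟩ := h v s (by simpa using h1) (by simpa using h2)
      refine ⟨v (Classical.arbitrary S), Subtype.ext (Prod.ext (funext fun π => h5 _ _) ?_)⟩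
      exact h4.symm
    rw [← Nat.card_congr (Equiv.ofBijective φ ⟨hφ, hs⟩), h3]
    norm_num
  · intro h v s h1 h2
    have hfin : Finite T := inferInstance
    have hb : Function.Bijective φ := by
      rw [Nat.bijective_iff_injective_and_card]
      exact ⟨hφ, by rw [h3, h]; norm_num⟩
    obtain ⟨c, hc'⟩ := hb.2 ⟨(v, s), by simpa using h1, by simpa using h2⟩
    have h4 := congrArg Subtype.val hc'
    have h5 : (fun _ => c) = v := congrArg Prod.fst h4
    have h6 : (0 : ZMod 3) = s := congrArg Prod.snd h4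
    exact ⟨h6.symm, fun i j => by rw [← h5]⟩

section
variable {K : Type} [Field K] [NumberField K] (j : Ei ≃+* 𝓞 K)

theorem part_III (hIII : S_III) (hdisc : discr K = -3) {S : Finset Ei} (hS : ∀ π ∈ S, Pq π)
    (hne : S.Nonempty) (h0 : ∑ π ∈ S, rq π = 0) :
    Part3 (j (∏ π ∈ S, π)) ↔ n7 S = 3 ^ (0 + 1) := by
  have : Nonempty S := hne.to_subtype
  have h1 : ∑ i : S, (1 : ZMod 3) * rq (i : Ei) = 0 := by
    simp only [one_mul]
    rw [Finset.sum_coe_sort S (fun π => rq π), h0]
  obtain ⟨h2, h3⟩ := hIII K j hdisc S (fun p : S => (p : Ei)) (fun _ => (1 : ZMod 3)) (dt_of hS) h1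
  rw [← pD_of, part3_iff h2, h3, ker_n7 hne h0]

end

/-- two counts which differ by at most one -/
lemma near {a b : ℕ → ℕ} {d : ℝ} (h1 : ∀ X, a X ≤ b X + 1) (h2 : ∀ X, b X ≤ a X + 1)
    (h : Tendsto (fun X : ℕ => (b X : ℝ) / (X : ℝ)) atTop (nhds d)) :
    Tendsto (fun X : ℕ => (a X : ℝ) / (X : ℝ)) atTop (nhds d) := by
  have h3 : Tendsto (fun X : ℕ => (a X : ℝ) / (X : ℝ) - (b X : ℝ) / (X : ℝ)) atTop (nhds 0) := by
    refine squeeze_zero_norm (a := fun X : ℕ => 1 / (X : ℝ)) (fun X => ?_)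
      tendsto_one_div_atTop_nhds_zero_nat
    rw [← sub_div, Real.norm_eq_abs, abs_div, abs_of_nonneg (Nat.cast_nonneg X : (0 : ℝ) ≤ (X : ℝ))]
    apply div_le_div_of_nonneg_right _ (Nat.cast_nonneg X)
    have h4 : (a X : ℝ) ≤ b X + 1 := by exact_mod_cast h1 X
    have h5 : (b X : ℝ) ≤ a X + 1 := by exact_mod_cast h2 X
    rw [abs_le]
    constructor <;> linarith
  have h4 := h3.add h
  rw [zero_add] at h4
  refine h4.congr fun X => ?_
  ring

/-- predicates which agree on the nonempty sets -/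
lemma card_near {α : Type*} (A : Finset (Finset α)) (P Q : Finset α → Prop)
    [DecidablePred P] [DecidablePred Q]
    (h : ∀ S ∈ A, S.Nonempty → (P S → Q S)) :
    (A.filter P).card ≤ (A.filter Q).card + 1 := by
  have h1 : A.filter P ⊆ insert ∅ (A.filter Q) := by
    intro S hS
    rw [Finset.mem_filter] at hS
    rcases S.eq_empty_or_nonempty with rfl | hne
    · exact Finset.mem_insert_self _ _
    · exact Finset.mem_insert_of_mem (Finset.mem_filter.2 ⟨hS.1, h S hS.1 hne hS.2⟩)
  exact (Finset.card_le_card h1).trans (Finset.card_insert_le _ _)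

theorem s_ALLSQ (hIII : S_III) (hD7 : S_D7) : S_ALLSQ := by
  intro K _ _ _
  obtain ⟨⟨j, hj⟩, hdisc⟩ := Pool.Agent.Y455.CTK.jex K
  have hc9 := Pool.Agent.Y703.XL.t_C9
  have hcr : ∏' i : ℕ, (1 - (1 / 3 : ℝ) ^ (2 * i + 1)) = cr 0 := cr_zero.symm
  have hcr9 : cr 0 = Pool.Agent.Y703.XK.c9 := by
    unfold cr
    rw [Finset.range_zero, Finset.prod_empty, div_one]
  rw [hcr]
  refine ⟨?_, ?_, ?_⟩
  rotate_left
  · rw [hcr9]
    exact hc9.2.2.2.1
  · rw [hcr9]
    exact hc9.2.2.2.2
  obtain ⟨c, hc0, hc⟩ := Pool.Agent.Helper68.C6.SQ.s_SQD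
  -- the densities of the sets
  have hS : Tendsto (fun X : ℕ => ((SS X).card : ℝ) / (X : ℝ)) atTop (nhds (9 * c)) := by
    have h := lim_R hc (fun _ => True)
    simp only [Finset.filter_true] at h
    exact h
  have hK : Tendsto (fun X : ℕ => ((Pool.Agent.Y703.XK.SS X).card : ℝ) / (X : ℝ)) atTop
      (nhds (6 * c)) := by
    have h := lim_R hc (fun p => p.1 + p.2 ≠ 0)
    have e : ∀ inst : DecidablePred fun p : ZMod 3 × ZMod 3 => p.1 + p.2 ≠ 0,
        (@Finset.filter _ (fun p : ZMod 3 × ZMod 3 => p.1 + p.2 ≠ 0) inst Finset.univ).card = 6 := by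
      intro inst
      have h1 : inst = fun _ => instDecidableNot := Subsingleton.elim _ _
      rw [h1]
      decide
    rw [e] at h
    simp only [mem_c]
    exact_mod_cast h
  -- the exceptional class
  have hE : Tendsto (fun X : ℕ => (((SS X).filter fun S => ∑ π ∈ S, rq π = 0).card : ℝ) / (X : ℝ))
      atTop (nhds (3 * c)) := by
    have h := lim_R hc (fun p => p.1 + p.2 = 0)
    have e : ∀ inst : DecidablePred fun p : ZMod 3 × ZMod 3 => p.1 + p.2 = 0,
        (@Finset.filter _ (fun p : ZMod 3 × ZMod 3 => p.1 + p.2 = 0) inst Finset.univ).card = 3 := by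
      intro inst
      have h1 : inst = fun p : ZMod 3 × ZMod 3 => ZMod.decidableEq 3 (p.1 + p.2) 0 :=
        Subsingleton.elim _ _
      rw [h1]
      decide
    rw [e] at h
    have e2 : ∀ X : ℕ, ((SS X).filter fun S => ∑ π ∈ S, rq π = 0) =
        (SS X).filter fun S => (px (∏ π ∈ S, π)).1 + (px (∏ π ∈ S, π)).2 = 0 := by
      intro X
      refine Finset.filter_congr fun S hS => ?_
      rw [← px_rq, rq_set (mem_pq hS)]
    simp only [e2]
    exact_mod_cast h
  have hE7 : Tendsto (fun X : ℕ =>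
      (((SS X).filter fun S => ∑ π ∈ S, rq π = 0 ∧ n7 S = 3 ^ (0 + 1)).card : ℝ) / (X : ℝ))
      atTop (nhds (cr 0 * (3 * c))) := by
    refine prodlim (b := fun X => ((SS X).filter fun S => ∑ π ∈ S, rq π = 0).card) (fun X => ?_)
      (hD7 0) hE
    refine Finset.card_le_card fun S hS => ?_
    rw [Finset.mem_filter] at hS ⊢
    exact ⟨hS.1, hS.2.1⟩
  -- the numerators
  let E : ℕ → ℕ := fun X => ((SS X).filter fun S => rq (∏ π ∈ S, π) = 0 ∧
    Part3 (j (∏ π ∈ S, π))).card
  have hEl : Tendsto (fun X : ℕ => (E X : ℝ) / (X : ℝ)) atTop (nhds (cr 0 * (3 * c))) := by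
    refine near (fun X => ?_) (fun X => ?_) hE7
    · refine card_near _ _ _ fun S hS hne h => ?_
      have hSp := mem_pq hS
      rw [rq_set hSp] at h
      exact ⟨h.1, (part_III j hIII hdisc hSp hne h.1).1 h.2⟩
    · refine card_near _ _ _ fun S hS hne h => ?_
      have hSp := mem_pq hS
      rw [rq_set hSp]
      exact ⟨h.1, (part_III j hIII hdisc hSp hne h.1).2 h.2⟩
  let A₀ : ℕ → ℕ := fun X => ((Pool.Agent.Y703.XK.SS X).filter Pool.Agent.Y703.XK.Gd).card
  let A : ZMod 3 → ℕ → ℕ := fun κ X => if κ = 0 then A₀ X + E X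
    else ((SS X).filter (GB (b2 κ) 0)).card
  let B : ZMod 3 → ℕ → ℕ := fun κ X => ((SS X).filter (GV (β₁ κ) β₂ (-κ) 0)).card
  have hA00 : Tendsto (fun X : ℕ => (A₀ X : ℝ) / (X : ℝ)) atTop (nhds (cr 0 * (6 * c))) := by
    refine prodlim (b := fun X => (Pool.Agent.Y703.XK.SS X).card) (fun X => ?_) ?_ hK
    · exact Finset.card_filter_le _ _
    · rw [hcr9]
      exact Pool.Agent.XLK.t_DQ_all
  have hA : ∀ κ : ZMod 3,
      Tendsto (fun X : ℕ => (A κ X : ℝ) / (X : ℝ)) atTop (nhds (cr 0 * (9 * c))) := by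
    intro κ
    by_cases hκ : κ = 0
    · have e : ∀ X, A κ X = A₀ X + E X := fun X => if_pos hκ
      simp only [e]
      have h := hA00.add hEl
      have e3 : cr 0 * (6 * c) + cr 0 * (3 * c) = cr 0 * (9 * c) := by ring
      rw [e3] at h
      refine h.congr fun X => ?_
      push_cast
      ring
    · have e : ∀ X, A κ X = ((SS X).filter (GB (b2 κ) 0)).card := fun X => if_neg hκ
      simp only [e]
      exact prodlim (b := fun X => (SS X).card) (fun X => Finset.card_filter_le _ _)
        (Pool.Agent.Helper68.C3.Asy3.t_DQ_all (b2_bt hκ) 0) hS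
  have hB : ∀ κ : ZMod 3,
      Tendsto (fun X : ℕ => (B κ (X / 3) : ℝ) / (X : ℝ)) atTop
        (nhds (cr 0 * (9 * c) * (1 / 3))) := by
    intro κ
    refine lim3 ?_
    exact prodlim (b := fun X => (SS X).card) (fun X => Finset.card_filter_le _ _)
      (Pool.Agent.Helper68.C6.SV.s_DV _ _ (bt2 κ) (-κ) 0) hS
  have hS3 := lim3 hS
  -- the counts
  have eT : ∀ X : ℕ, {D : 𝓞 K | Algebra.norm ℤ D ≤ X ∧ Squarefree D}.ncard =
      6 * (SS X).card + 6 * (SS (X / 3)).card := by
    intro X
    have h1 := count_all j hj X (fun _ => True)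
    simp only [and_true] at h1
    have h2 := s_CNTALL X (fun _ => True)
    simp only [and_true, Finset.filter_true, Finset.sum_const] at h2
    rw [h1, h2]
    have h3 : (Finset.univ : Finset (ZMod 3)).card = 3 := by decide
    rw [h3, smul_eq_mul]
    ring
  have eG : ∀ X : ℕ,
      {D : 𝓞 K | Algebra.norm ℤ D ≤ X ∧ Squarefree D ∧ Part3 D}.ncard =
      ∑ κ : ZMod 3, (2 * A κ X + 2 * B κ (X / 3)) := by
    intro X
    rw [count_all j hj X (fun D => Part3 D), s_CNTALL X (fun D => Part3 (j D))]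
    refine Finset.sum_congr rfl fun κ _ => ?_
    have hneg : ∀ D : Ei, Part3 (j (-D)) ↔ Part3 (j D) := by
      intro D
      rw [map_neg, part_neg]
    have e1 : ((SS X).filter fun S => Part3 (j (w ^ κ.val * ∏ π ∈ S, π))).card = A κ X := by
      by_cases hκ : κ = 0
      · subst hκ
        have e0 : (w : Ei) ^ (0 : ZMod 3).val = 1 := by decide
        have e2 : A 0 X = A₀ X + E X := if_pos rfl
        rw [e2]
        simp only [e0, one_mul]
        have e3 : A₀ X = ((SS X).filter fun S => rq (∏ π ∈ S, π) ≠ 0 ∧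
            Part3 (j (∏ π ∈ S, π))).card := by
          show ((Pool.Agent.Y703.XK.SS X).filter Pool.Agent.Y703.XK.Gd).card = _
          rw [mem_c, Finset.filter_filter]
          congr 1
          refine Finset.filter_congr fun S hS => ?_
          have hSp := mem_pq hS
          rw [px_rq]
          refine and_congr_right fun h => ?_
          refine (part_I j hj hSp ?_).symm
          rw [← Pool.Agent.Y550.XK.NS.nrm_prod, Ne, ← Pool.Agent.Y550.XK.NS.mod_iff,
            ← (rq_iff (prod_prm hSp)).2, px_rq]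
          exact h
        rw [e3]
        show _ = _ + ((SS X).filter fun S => rq (∏ π ∈ S, π) = 0 ∧
          Part3 (j (∏ π ∈ S, π))).card
        rw [← Finset.card_union_of_disjoint]
        · congr 1
          ext S
          simp only [Finset.mem_union, Finset.mem_filter]
          by_cases h : rq (∏ π ∈ S, π) = 0
          · simp [h]
          · simp [h]
        · rw [Finset.disjoint_left]
          intro S h1 h2
          rw [Finset.mem_filter] at h1 h2
          exact h1.2.1 h2.2.1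
      · have e2 : A κ X = ((SS X).filter (GB (b2 κ) 0)).card := if_neg hκ
        rw [e2]
        congr 1
        refine Finset.filter_congr fun S hS => ?_
        exact part_II j hκ (mem_pq hS)
    have e2 : ((SS (X / 3)).filter fun S =>
        Part3 (j (lam * w ^ κ.val * ∏ π ∈ S, π))).card = B κ (X / 3) := by
      show _ = ((SS (X / 3)).filter (GV (β₁ κ) β₂ (-κ) 0)).card
      congr 1
      refine Finset.filter_congr fun S hS => ?_
      exact part_V j hdisc (mem_pq hS) κ
    have e1' : ((SS X).filter fun S =>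
        Part3 (j (-(w ^ κ.val * ∏ π ∈ S, π)))).card = A κ X :=
      (congrArg Finset.card (Finset.filter_congr fun S _ => hneg _)).trans e1
    have e2' : ((SS (X / 3)).filter fun S =>
        Part3 (j (-(lam * w ^ κ.val * ∏ π ∈ S, π)))).card = B κ (X / 3) :=
      (congrArg Finset.card (Finset.filter_congr fun S _ => hneg _)).trans e2
    have key : ∀ a b c d : ℕ, a = A κ X → b = A κ X → c = B κ (X / 3) → d = B κ (X / 3) →
        a + b + c + d = 2 * A κ X + 2 * B κ (X / 3) := by
      intro a b c d h1 h2 h3 h4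
      omega
    refine key _ _ _ _ ?_ ?_ ?_ ?_
    · convert e1
    · convert e1'
    · convert e2
    · convert e2'
  -- the limit
  have hnum : Tendsto (fun X : ℕ =>
      ((∑ κ : ZMod 3, (2 * A κ X + 2 * B κ (X / 3)) : ℕ) : ℝ) / (X : ℝ)) atTop
      (nhds (72 * c * cr 0)) := by
    have h1 : Tendsto (fun X : ℕ => ∑ κ : ZMod 3, (2 * ((A κ X : ℝ) / (X : ℝ)) +
        2 * ((B κ (X / 3) : ℝ) / (X : ℝ)))) atTop
        (nhds (∑ _κ : ZMod 3, (2 * (cr 0 * (9 * c)) + 2 * (cr 0 * (9 * c) * (1 / 3))))) :=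
      tendsto_finsetSum _ fun κ _ =>
        Tendsto.add (Tendsto.const_mul _ (hA κ)) (Tendsto.const_mul _ (hB κ))
    have e3 : ∑ _κ : ZMod 3, (2 * (cr 0 * (9 * c)) + 2 * (cr 0 * (9 * c) * (1 / 3))) =
        72 * c * cr 0 := by
      have h3 : (Finset.univ : Finset (ZMod 3)).card = 3 := by decide
      rw [Finset.sum_const, h3, nsmul_eq_mul]
      push_cast
      ring
    rw [e3] at h1
    refine h1.congr fun X => ?_
    push_cast
    rw [Finset.sum_div]
    refine Finset.sum_congr rfl fun κ _ => ?_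
    ring
  have hden : Tendsto (fun X : ℕ =>
      ((6 * (SS X).card + 6 * (SS (X / 3)).card : ℕ) : ℝ) / (X : ℝ)) atTop (nhds (72 * c)) := by
    have h1 := (hS.const_mul 6).add (hS3.const_mul 6)
    have e3 : 6 * (9 * c) + 6 * (9 * c * (1 / 3)) = 72 * c := by ring
    rw [e3] at h1
    refine h1.congr fun X => ?_
    push_cast
    ring
  have hlim := hnum.div hden (by positivity)
  have e4 : 72 * c * cr 0 / (72 * c) = cr 0 := by
    field_simp
  rw [e4] at hlim
  refine hlim.congr' ?_
  filter_upwards [eventually_ge_atTop 1] with X hX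
  have hX0 : (X : ℝ) ≠ 0 := by
    have : (1 : ℝ) ≤ X := by exact_mod_cast hX
    linarith
  rw [eT, eG]
  exact div_div_div_cancel_right₀ hX0 _ _

end Pool.Agent.Helper68.C8.AllSq
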