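import Pool.Agent.Helper68.C8.StFin
import Pool.Agent.Helper68.C2.Asm2
import Pool.Agent.Helper68.C2.Fact2
import Pool.Agent.Helper68.C6.Asm6
import Pool.Agent.Helper68.C6.NG
import Pool.Agent.Helper68.C7.Asm1

/-!
# The law and the criterion for every cube-free element (`S_ALL`)
-/

set_option autoImplicit false
set_option linter.unusedVariables false
set_option linter.unusedSectionVars false

open scoped Classical

namespace Pool.Agent.Helper68.C8.All

open NumberField IsDedekindDomain WeierstrassCurve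
open Pool.Agent.Y692.QS (Ei w nr isUnit_iff)
open Pool.Agent.Y696.CTK (ED ED_map ED_Δ ED_c₄ IsTam tors Tri Law3 pq_symm)
open Pool.Agent.Y703.CT (Dt pD rq Ker)
open Pool.Agent.Y715.T.RecG (Pq cs_of cs_spec cs_mul cs_pow)
open Pool.Agent.Y715.T.Rec (cs nn)
open Pool.Agent.Y715.T.Gi (lam lam_sq prime_lam CF)
open Pool.Agent.Helper68.C2 (pD2)
open Pool.Agent.Helper68.C2.Fact2 (ge3 root_cases cf_symm nn_eq)
open Pool.Agent.Helper68.C2.LK2 (cs_w w_unit not_dvd_w)
open Pool.Agent.Helper68.C2.Chr (tq tq_prim)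
open Pool.Agent.Helper68.C5 (pD5)
open Pool.Agent.Helper68.C5.Chr5 (ts ts_prim)
open Pool.Agent.Helper68.C6 (pD6 Ker6)
open Pool.Agent.Helper68.C6.NG (nge ED_Ng LF_eq tam tri tors_eq)
open Pool.Agent.Helper68.C6.Sel6 (cs_t not_dvd_lam)
open Pool.Agent.Helper68.C7 (Ker7)

/-! ### the sign -/

section
variable {K : Type} [Field K] [NumberField K]

lemma tri_neg (D : 𝓞 K) : Tri (-D) ↔ Tri D :=
  ⟨fun h => by have := tri (-D) h; rwa [neg_neg] at this, fun h => tri D h⟩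

theorem law_neg (D : 𝓞 K) (h : Law3 D) : Law3 (-D) := by
  obtain ⟨h1, h2, Lf, c, h3, h4, h5, h6, h7⟩ := h
  have e : ((-D : 𝓞 K) : K) = -(D : K) := rfl
  refine ⟨?_, by rw [tors_eq]; exact h2, Lf, c, h3, ?_, ?_, tam D h6, ?_⟩
  · rw [e]
    have h := nge (ED_Ng (D : K))
    refine @Finite.of_equiv _ _ h1 (Equiv.subtypeEquiv h.toEquiv fun P => ?_)
    show P ∈ AddCommGroup.torsion _ ↔ h P ∈ AddCommGroup.torsion _
    constructor
    · exact fun hP => h.toAddMonoidHom.isOfFinAddOrder hP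
    · intro hP
      have := h.symm.toAddMonoidHom.isOfFinAddOrder hP
      rwa [show h.symm.toAddMonoidHom (h P) = P from h.symm_apply_apply P] at this
  · intro s hs
    obtain ⟨h8, h9⟩ := h4 s hs
    rw [e, LF_eq]
    refine ⟨h8, h9.trans ?_⟩
    unfold WeierstrassCurve.LSeries
    rw [LF_eq]
  · rw [tri_neg]
    exact h5
  · intro σ
    have e' : (σ ((-D : 𝓞 K) : K)) ^ 2 = (σ (D : K)) ^ 2 := by
      rw [e, map_neg, neg_sq]
    rw [e', tors_eq, tri_neg]
    exact h7 σ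

lemma law_sign {D X : 𝓞 K} (h : D = X ∨ D = -X) (hX : Law3 X) : Law3 D := by
  rcases h with h | h
  · rw [h]; exact hX
  · rw [h]; exact law_neg X hX

lemma tri_sign {D X : 𝓞 K} (h : D = X ∨ D = -X) : Tri D ↔ Tri X := by
  rcases h with h | h
  · rw [h]
  · rw [h, tri_neg]

end

/-! ### the symbols -/

section
variable {K : Type} [Field K] [NumberField K] (j : Ei ≃+* 𝓞 K)

lemma root_kap {ω : 𝓞 K} (hω : ω ^ 2 + ω + 1 = 0) :
    ∃ κ : ZMod 3, (κ = 1 ∨ κ = 2) ∧ ω = j (w ^ κ.val) := by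
  rcases root_cases j hω with h | h
  · exact ⟨1, Or.inl rfl, by rw [h]; rfl⟩
  · exact ⟨2, Or.inr rfl, h⟩

lemma wpow_mul (κ c : ZMod 3) : ((w : Ei) ^ κ.val) ^ c.val = w ^ (κ * c).val := by
  revert c κ
  decide

lemma rq_ts (x y : ℤ) : rq ((1 : Ei) + 3 * ⟨x, y⟩) = ((x + y : ℤ) : ZMod 3) := by
  obtain ⟨x', y', h1, h2⟩ := Pool.Agent.Y703.CT.ex_q (α := 1 + 3 * ⟨x, y⟩) ⟨⟨x, y⟩, by ring⟩
  rw [h2]
  have h3 : (3 : Ei) * ⟨x, y⟩ = 3 * ⟨x', y'⟩ := add_left_cancel h1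
  have h4 : (⟨x, y⟩ : Ei) = ⟨x', y'⟩ := mul_left_cancel₀ (by decide) h3
  rw [QuadraticAlgebra.ext_iff] at h4
  simp only at h4
  rw [h4.1, h4.2]

lemma ts_form (κ : ZMod 3) (x y : ℤ) : ts κ ((1 : Ei) + 3 * ⟨x, y⟩) =
    (y : ZMod 3) - κ * ((x : ZMod 3) + y) := by
  rw [ts_prim]
  unfold Pool.Agent.Helper68.C5.Chr5.lt
  show -(κ * (x : ZMod 3) - (1 - κ) * (y : ZMod 3)) = _
  ring

/-- `ts` in terms of `ts 0` and `rq` -/
lemma ts_eq {α : Ei} (h : (3 : Ei) ∣ α - 1) (κ : ZMod 3) : ts κ α = ts 0 α - κ * rq α := by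
  obtain ⟨⟨x, y⟩, hq⟩ := h
  have e : α = 1 + 3 * ⟨x, y⟩ := by linear_combination hq
  rw [e, ts_form, ts_form, rq_ts]
  push_cast
  ring

lemma cs_lam {ρ : Ei} (h : Pq ρ) : cs ρ lam = -ts 0 ρ := by
  have := cs_t h 0
  rw [ZMod.val_zero, pow_zero, mul_one, neg_zero] at this
  exact this

lemma cs_neg_lam {ρ : Ei} (h : Pq ρ) : cs ρ (-lam) = -ts 0 ρ := by
  have h1 : ¬ ρ ∣ lam := not_dvd_lam h
  have h2 : ¬ ρ ∣ -lam := by rwa [dvd_neg]
  have h3 := cs_pow h.prime h.norm h1 2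
  have h4 := cs_pow h.prime h.norm h2 2
  rw [neg_sq, h3, cs_lam h] at h4
  have h5 : ∀ a b : ZMod 3, ((2 : ℕ) : ZMod 3) * a = ((2 : ℕ) : ZMod 3) * b → b = a := by decide
  exact h5 _ _ h4

variable {ω : 𝓞 K} {n : ℕ} {π : Fin n → 𝓞 K} {e : Fin n → ℕ} {χ : Fin n → Fin n → ZMod 3}
  {ν τ μ : Fin n → ZMod 3} {D : 𝓞 K} {a k : ℕ} {κ : ZMod 3}

lemma ex_eq (hj : ∀ z : Ei, Algebra.norm ℤ (j z) = nr z) (p : 𝓞 K) : ex p = nn (j.symm p) :=
  (nn_eq j hj p).symm

lemma val_e {m : ℕ} (h : m = 1 ∨ m = 2) : ((m : ℕ) : ZMod 3).val = m := by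
  rcases h with h | h <;> rw [h] <;> rfl

lemma dt_of (h : IsFact ω D a k n π e) :
    Dt (fun i => j.symm (π i)) (fun i => (e i : ZMod 3)) := by
  refine ⟨fun i => pq_symm j (h.prime i).1 (h.prime i).2, fun i k hik hd => ?_, fun i => ?_⟩
  · have h5 := Pool.Agent.Y274.CT.eq_of_dvd (pq_symm j (h.prime i).1 (h.prime i).2)
      (pq_symm j (h.prime k).1 (h.prime k).2) hd
    exact hik (h.inj (j.symm.injective h5.symm))
  · rcases h.exp i with h5 | h5 <;> rw [h5] <;> decide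

lemma sym_chi (hj : ∀ z : Ei, Algebra.norm ℤ (j z) = nr z) (h : IsFact ω D a k n π e)
    (hs : IsSym ω π χ ν τ μ) (hωκ : ω = j (w ^ κ.val)) (i l : Fin n) (hil : i ≠ l) :
    cs (j.symm (π l)) (j.symm (π i)) = κ * χ l i := by
  have hpq := pq_symm j (h.prime l).1 (h.prime l).2
  apply cs_of hpq.prime hpq.norm
  have h5 := map_dvd j.symm (hs.chi i l hil)
  rwa [hωκ, map_sub, map_pow, map_pow, RingEquiv.symm_apply_apply, ex_eq j hj, wpow_mul] at h5

lemma sym_nu (hj : ∀ z : Ei, Algebra.norm ℤ (j z) = nr z) (h : IsFact ω D a k n π e)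
    (hs : IsSym ω π χ ν τ μ) (hκ : κ = 1 ∨ κ = 2) (hωκ : ω = j (w ^ κ.val)) (l : Fin n) :
    rq (j.symm (π l)) = -ν l := by
  have hpq := pq_symm j (h.prime l).1 (h.prime l).2
  have h1 : cs (j.symm (π l)) (w ^ κ.val) = κ * ν l := by
    apply cs_of hpq.prime hpq.norm
    have h5 := map_dvd j.symm (hs.nu l)
    simp only [hωκ, map_sub, map_pow, RingEquiv.symm_apply_apply] at h5
    rwa [ex_eq j hj, wpow_mul] at h5
  rw [cs_pow hpq.prime hpq.norm (not_dvd_w hpq.prime), ZMod.natCast_zmod_val, cs_w hpq,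
    tq_prim hpq.three] at h1
  have h2 : κ ≠ 0 := by rcases hκ with h | h <;> rw [h] <;> decide
  have h3 := mul_left_cancel₀ h2 h1
  rw [← h3, neg_neg]

lemma sym_tau (hj : ∀ z : Ei, Algebra.norm ℤ (j z) = nr z) (h : IsFact ω D a k n π e)
    (hs : IsSym ω π χ ν τ μ) (hκ : κ = 1 ∨ κ = 2) (hωκ : ω = j (w ^ κ.val)) (l : Fin n) :
    ts 0 (j.symm (π l)) = -(κ * τ l) := by
  have hpq := pq_symm j (h.prime l).1 (h.prime l).2
  have h1 : cs (j.symm (π l)) (w ^ κ.val - (w ^ κ.val) ^ 2) = κ * τ l := by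
    apply cs_of hpq.prime hpq.norm
    have h5 := map_dvd j.symm (hs.tau l)
    simp only [hωκ, map_sub, map_pow, RingEquiv.symm_apply_apply] at h5
    rwa [ex_eq j hj, wpow_mul] at h5
  rw [← h1]
  rcases hκ with h2 | h2
  · have e1 : (w : Ei) ^ κ.val - (w ^ κ.val) ^ 2 = lam := by rw [h2]; decide
    rw [e1, cs_lam hpq, neg_neg]
  · have e1 : (w : Ei) ^ κ.val - (w ^ κ.val) ^ 2 = -lam := by rw [h2]; decide
    rw [e1, cs_neg_lam hpq, neg_neg]

lemma sym_mu (h : IsFact ω D a k n π e) (hs : IsSym ω π χ ν τ μ) (hκ : κ = 1 ∨ κ = 2)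
    (hωκ : ω = j (w ^ κ.val)) (l : Fin n) : ts 0 (j.symm (π l)) = κ * μ l := by
  obtain ⟨x, y, h1, h2⟩ := hs.mu l
  have h3 : j.symm (π l) = 1 + 3 * ((x : Ei) + (y : Ei) * w ^ κ.val) := by
    rw [h1, hωκ, map_add, map_one, map_mul, map_ofNat, map_add, map_intCast, map_mul,
      map_intCast, RingEquiv.symm_apply_apply]
  rcases hκ with h4 | h4
  · have e1 : ((x : Ei) + (y : Ei) * w ^ κ.val) = ⟨x, y⟩ := by
      rw [h4]
      have e2 : (w : Ei) ^ (1 : ZMod 3).val = ⟨0, 1⟩ := by decide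
      rw [e2]
      ext
      · rw [QuadraticAlgebra.re_add, Pool.Agent.Y692.QS.mul_re]
        simp
      · rw [QuadraticAlgebra.im_add, Pool.Agent.Y692.QS.mul_im]
        simp
    rw [h3, e1, ts_form, h2, h4]
    ring
  · have e1 : ((x : Ei) + (y : Ei) * w ^ κ.val) = ⟨x - y, -y⟩ := by
      rw [h4]
      have e2 : (w : Ei) ^ (2 : ZMod 3).val = ⟨-1, -1⟩ := by decide
      rw [e2]
      ext
      · rw [QuadraticAlgebra.re_add, Pool.Agent.Y692.QS.mul_re]
        simp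
        ring
      · rw [QuadraticAlgebra.im_add, Pool.Agent.Y692.QS.mul_im]
        simp
    rw [h3, e1, ts_form, h2, h4]
    push_cast
    have h3' : (3 : ZMod 3) = 0 := by decide
    linear_combination -(y : ZMod 3) * h3'

/-! ### the twisting element -/

lemma j_pD (h : IsFact ω D a k n π e) :
    j (pD (fun i => j.symm (π i)) (fun i => (e i : ZMod 3))) = ∏ i, π i ^ e i := by
  unfold Pool.Agent.Y703.CT.pD
  rw [map_prod]
  refine Finset.prod_congr rfl fun i _ => ?_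
  rw [val_e (h.exp i), map_pow, RingEquiv.apply_symm_apply]

lemma lam_form (hκ : κ = 1 ∨ κ = 2) (hωκ : ω = j (w ^ κ.val)) :
    ω - ω ^ 2 = j lam ∨ ω - ω ^ 2 = -j lam := by
  rcases hκ with h | h
  · left
    rw [hωκ, ← map_pow, ← map_sub, h]
    congr 1
  · right
    rw [hωκ, ← map_pow, ← map_sub, ← map_neg, h]
    congr 1

lemma k_form (h : IsFact ω D a k n π e) (hωκ : ω = j (w ^ κ.val)) :
    ω ^ k = j (w ^ (κ * (k : ZMod 3)).val) := by
  have hk : ((k : ℕ) : ZMod 3).val = k := by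
    rw [ZMod.val_natCast]
    exact Nat.mod_eq_of_lt (by have := h.kle; omega)
  rw [hωκ, ← map_pow]
  congr 1
  have := wpow_mul κ (k : ZMod 3)
  rwa [hk] at this

lemma form (h : IsFact ω D a k n π e) (hκ : κ = 1 ∨ κ = 2) (hωκ : ω = j (w ^ κ.val)) :
    D = j (lam ^ a * w ^ (κ * (k : ZMod 3)).val *
      pD (fun i => j.symm (π i)) (fun i => (e i : ZMod 3))) ∨
    D = -j (lam ^ a * w ^ (κ * (k : ZMod 3)).val *
      pD (fun i => j.symm (π i)) (fun i => (e i : ZMod 3))) := by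
  rw [map_mul, map_mul, map_pow, j_pD j h, ← k_form j h hωκ]
  have h1 : (ω - ω ^ 2) ^ a = (j lam) ^ a ∨ (ω - ω ^ 2) ^ a = -(j lam) ^ a := by
    rcases lam_form j hκ hωκ with h2 | h2
    · rw [h2]; exact Or.inl rfl
    · rw [h2]
      rcases Nat.even_or_odd a with h3 | h3
      · rw [h3.neg_pow]; exact Or.inl rfl
      · rw [h3.neg_pow]; exact Or.inr rfl
  rcases h.eq with h2 | h2 <;> rcases h1 with h3 | h3 <;> rw [h3] at h2
  · exact Or.inl h2
  · right
    rw [h2]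
    ring
  · exact Or.inr h2
  · left
    rw [h2]
    ring

end

/-! ### the linear systems -/

section
variable {n : ℕ} {π : Fin n → Ei} {e : Fin n → ℕ} {χ : Fin n → Fin n → ZMod 3}
  {ν τ μ : Fin n → ZMod 3} {k : ℕ} {κ : ZMod 3}

lemma key (hchi : ∀ i l, i ≠ l → cs (π l) (π i) = κ * χ l i) (v : Fin n → ZMod 3) (l : Fin n) :
    ∑ i, (e i : ZMod 3) * cs (π l) (π i) * (v i - v l) =
      κ * ∑ i, (e i : ZMod 3) * χ l i * (v i - v l) := by
  rw [Finset.mul_sum]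
  refine Finset.sum_congr rfl fun i _ => ?_
  by_cases hil : i = l
  · rw [hil, sub_self, mul_zero, mul_zero, mul_zero]
  · rw [hchi i l hil]
    ring

lemma kap_sq (hκ : κ = 1 ∨ κ = 2) : κ * κ = 1 := by
  rcases hκ with h | h <;> rw [h] <;> decide

theorem crit0W (hchi : ∀ i l, i ≠ l → cs (π l) (π i) = κ * χ l i)
    (hnu : ∀ l, rq (π l) = -ν l) (hκ : κ = 1 ∨ κ = 2) (hk : k ≠ 0) :
    Pool.Agent.Helper68.C2.KerW π (fun i => (e i : ZMod 3)) (κ * (k : ZMod 3)) ↔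
      Sys 0 k e χ ν τ μ := by
  have hκκ := kap_sq hκ
  unfold Pool.Agent.Helper68.C2.KerW Sys
  simp only [zero_ne_one, if_false, hk, false_and, and_false, if_false, Nat.cast_zero, zero_mul,
    zero_add]
  constructor
  · rintro h v s h1 rfl
    refine ⟨rfl, h v fun l => ?_⟩
    rw [key hchi, h1 l, hnu]
    ring
  · intro h v h1
    refine (h v 0 (fun l => ?_) rfl).2
    have h2 := h1 l
    rw [key hchi, hnu] at h2
    linear_combination κ * h2 - (∑ i, (e i : ZMod 3) * χ l i * (v i - v l)) * hκκ +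
      ((k : ZMod 3) * ν l * v l) * hκκ

theorem crit00 (hchi : ∀ i l, i ≠ l → cs (π l) (π i) = κ * χ l i)
    (hnu : ∀ l, rq (π l) = -ν l) (hκ : κ = 1 ∨ κ = 2)
    (hs : ∑ i, (e i : ZMod 3) * rq (π i) ≠ 0) :
    Ker π (fun i => (e i : ZMod 3)) ↔ Sys 0 0 e χ ν τ μ := by
  have hκκ := kap_sq hκ
  have hs' : ¬ ∑ i, (e i : ZMod 3) * ν i = 0 := by
    intro h
    apply hs
    have e1 : ∑ i, (e i : ZMod 3) * rq (π i) = -∑ i, (e i : ZMod 3) * ν i := by
      rw [← Finset.sum_neg_distrib]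
      refine Finset.sum_congr rfl fun i _ => ?_
      rw [hnu]
      ring
    rw [e1, h, neg_zero]
  unfold Ker Sys
  simp only [zero_ne_one, if_false, hs', and_false, Nat.cast_zero, zero_mul,
    zero_add, and_self, if_true]
  constructor
  · rintro h v s h1 rfl
    refine ⟨rfl, h v fun l => ?_⟩
    rw [key hchi, h1 l]
    ring
  · intro h v h1
    refine (h v 0 (fun l => ?_) rfl).2
    have h2 := h1 l
    rw [key hchi] at h2
    linear_combination κ * h2 - (∑ i, (e i : ZMod 3) * χ l i * (v i - v l)) * hκκ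

theorem crit03 (hchi : ∀ i l, i ≠ l → cs (π l) (π i) = κ * χ l i)
    (hnu : ∀ l, rq (π l) = -ν l) (hmu : ∀ l, ts 0 (π l) = κ * μ l) (hκ : κ = 1 ∨ κ = 2)
    (hs : ∑ i, (e i : ZMod 3) * rq (π i) = 0) :
    Ker7 π (fun i => (e i : ZMod 3)) ↔ Sys 0 0 e χ ν τ μ := by
  have hκκ := kap_sq hκ
  have e1 : ∑ i, (e i : ZMod 3) * rq (π i) = -∑ i, (e i : ZMod 3) * ν i := by
    rw [← Finset.sum_neg_distrib]
    refine Finset.sum_congr rfl fun i _ => ?_
    rw [hnu]
    ring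
  have hs' : ∑ i, (e i : ZMod 3) * ν i = 0 := by
    rw [hs] at e1
    exact neg_eq_zero.1 e1.symm
  have e2 : ∀ v : Fin n → ZMod 3, ∑ i, (e i : ZMod 3) * rq (π i) * v i =
      -∑ i, (e i : ZMod 3) * ν i * v i := by
    intro v
    rw [← Finset.sum_neg_distrib]
    refine Finset.sum_congr rfl fun i _ => ?_
    rw [hnu]
    ring
  have e3 : ∑ i, (e i : ZMod 3) * ts 0 (π i) = κ * ∑ i, (e i : ZMod 3) * μ i := by
    rw [Finset.mul_sum]
    refine Finset.sum_congr rfl fun i _ => ?_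
    rw [hmu]
    ring
  unfold Ker7 Sys
  simp only [zero_ne_one, if_false, hs', Nat.cast_zero, zero_mul,
    zero_add, and_self, if_true]
  constructor
  · intro h v s h1 h2
    have h3 := h v (κ * s) (fun l => by
      rw [key hchi, h1 l, hnu]
      ring) (by
      rw [e2, h2, e3]
      linear_combination -(s * ∑ i, (e i : ZMod 3) * μ i) * hκκ)
    refine ⟨?_, h3.2⟩
    have h4 := h3.1
    linear_combination κ * h4 - s * hκκ
  · intro h v s h1 h2
    have h3 := h v (κ * s) (fun l => by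
      have h4 := h1 l
      rw [key hchi, hnu] at h4
      linear_combination κ * h4 - (∑ i, (e i : ZMod 3) * χ l i * (v i - v l)) * hκκ) (by
      rw [e2, e3] at h2
      linear_combination -h2)
    refine ⟨?_, h3.2⟩
    have h4 := h3.1
    linear_combination κ * h4 - s * hκκ

theorem crit1 (hchi : ∀ i l, i ≠ l → cs (π l) (π i) = κ * χ l i)
    (hnu : ∀ l, rq (π l) = -ν l) (htau : ∀ l, ts 0 (π l) = -(κ * τ l))
    (h3 : ∀ l, (3 : Ei) ∣ π l - 1) (hκ : κ = 1 ∨ κ = 2) :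
    Ker6 π (fun i => (e i : ZMod 3)) (κ * (k : ZMod 3)) ↔ Sys 1 k e χ ν τ μ := by
  have hκκ := kap_sq hκ
  have e2 : ∀ v : Fin n → ZMod 3, ∑ i, (e i : ZMod 3) * rq (π i) * v i =
      -∑ i, (e i : ZMod 3) * ν i * v i := by
    intro v
    rw [← Finset.sum_neg_distrib]
    refine Finset.sum_congr rfl fun i _ => ?_
    rw [hnu]
    ring
  have ht : ∀ l, ts (-(κ * (k : ZMod 3))) (π l) = -(κ * (τ l + (k : ZMod 3) * ν l)) := by
    intro l
    rw [ts_eq (h3 l), htau, hnu]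
    ring
  unfold Ker6 Sys
  simp only [if_true, Nat.cast_one, one_mul, one_ne_zero, false_and, if_false]
  constructor
  · intro h v s h1 h2
    have h4 := h v (-(κ * s)) (fun l => by
      rw [key hchi, h1 l, ht, hnu]
      ring) (by
      rw [e2, ← h2]
      linear_combination -((k : ZMod 3) * s) * hκκ)
    refine ⟨?_, h4.1⟩
    have h5 := h4.2
    linear_combination -κ * h5 - s * hκκ
  · intro h v s h1 h2
    have h4 := h v (-(κ * s)) (fun l => by
      have h5 := h1 l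
      rw [key hchi, ht, hnu] at h5
      linear_combination κ * h5 - (∑ i, (e i : ZMod 3) * χ l i * (v i - v l)) * hκκ +
        ((τ l + (k : ZMod 3) * ν l) * v l) * hκκ) (by
      rw [e2] at h2
      linear_combination -h2)
    refine ⟨h4.2, ?_⟩
    have h5 := h4.1
    linear_combination -κ * h5 - s * hκκ

theorem crit2 (hchi : ∀ i l, i ≠ l → cs (π l) (π i) = κ * χ l i)
    (hnu : ∀ l, rq (π l) = -ν l) (htau : ∀ l, ts 0 (π l) = -(κ * τ l))
    (h3 : ∀ l, (3 : Ei) ∣ π l - 1) (hκ : κ = 1 ∨ κ = 2) :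
    Pool.Agent.Helper68.C5.KerW π (fun i => (e i : ZMod 3)) (κ * (k : ZMod 3)) ↔
      Sys 2 k e χ ν τ μ := by
  have hκκ := kap_sq hκ
  have h33 : (3 : ZMod 3) = 0 := by decide
  have ht : ∀ l, ts (κ * (k : ZMod 3)) (π l) = κ * (2 * τ l + (k : ZMod 3) * ν l) := by
    intro l
    rw [ts_eq (h3 l), htau, hnu]
    linear_combination -(κ * τ l) * h33
  unfold Pool.Agent.Helper68.C5.KerW Sys
  simp only [OfNat.ofNat_ne_one, OfNat.ofNat_ne_zero, false_and, if_false, Nat.cast_ofNat]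
  constructor
  · rintro h v s h1 rfl
    refine ⟨rfl, h v fun l => ?_⟩
    rw [key hchi, h1 l, ht]
    ring
  · intro h v h1
    refine (h v 0 (fun l => ?_) rfl).2
    have h2 := h1 l
    rw [key hchi, ht] at h2
    linear_combination κ * h2 - (∑ i, (e i : ZMod 3) * χ l i * (v i - v l)) * hκκ +
      ((2 * τ l + (k : ZMod 3) * ν l) * v l) * hκκ

end

/-! ### the factorization -/

lemma split_lam {z : Ei} (hz : CF z) : ∃ a : ℕ, a ≤ 2 ∧ ∃ z' : Ei, z = lam ^ a * z' ∧ ¬ lam ∣ z' := by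
  by_cases h0 : lam ∣ z
  · obtain ⟨z1, rfl⟩ := h0
    by_cases h1 : lam ∣ z1
    · obtain ⟨z2, rfl⟩ := h1
      by_cases h2 : lam ∣ z2
      · exfalso
        obtain ⟨z3, rfl⟩ := h2
        exact prime_lam.not_isUnit (hz.2 lam ⟨z3, by ring⟩)
      · exact ⟨2, le_rfl, z2, by ring, h2⟩
    · exact ⟨1, by norm_num, z1, by ring, h1⟩
  · exact ⟨0, by norm_num, z, by ring, h0⟩

lemma nr3 {z : Ei} (h : ¬ lam ∣ z) : ¬ (3 : ℤ) ∣ nr z := by
  intro h1
  apply h
  have h2 : (3 : ℤ) ∣ z.re + z.im := by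
    have h3 : ((z.re ^ 2 - z.re * z.im + z.im ^ 2 : ℤ) : ZMod 3) = 0 :=
      (ZMod.intCast_zmod_eq_zero_iff_dvd _ 3).2 h1
    apply (ZMod.intCast_zmod_eq_zero_iff_dvd _ 3).1
    push_cast at h3 ⊢
    generalize (z.re : ZMod 3) = x at h3 ⊢
    generalize (z.im : ZMod 3) = y at h3 ⊢
    revert x y
    decide
  obtain ⟨c, hc⟩ := h2
  refine ⟨-lam * (c : Ei) + (z.im : Ei) * (1 + w), ?_⟩
  have e1 : (lam : Ei) * (-lam * (c : Ei) + (z.im : Ei) * (1 + w)) =
      3 * (c : Ei) + (z.im : Ei) * (w - 1) := by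
    have h3 : (lam : Ei) * (1 + w) = w - 1 := by decide
    have h4 := lam_sq
    linear_combination (-(c : Ei)) * h4 + (z.im : Ei) * h3
  rw [e1]
  have e2 : (w - 1 : Ei) = ⟨-1, 1⟩ := by decide
  have e3 : (3 : Ei) = ⟨3, 0⟩ := rfl
  rw [e2, e3]
  ext
  · rw [QuadraticAlgebra.re_add, Pool.Agent.Y692.QS.mul_re, Pool.Agent.Y692.QS.mul_re]
    simp
    linarith
  · rw [QuadraticAlgebra.im_add, Pool.Agent.Y692.QS.mul_im, Pool.Agent.Y692.QS.mul_im]
    simp

/-- the factorization of the cube-free elements -/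
lemma fact_ei {z : Ei} (hz : CF z) : ∃ (a : ℕ) (c : ZMod 3) (n : ℕ) (π : Fin n → Ei)
    (e : Fin n → ZMod 3), a ≤ 2 ∧ Dt π e ∧
      (z = lam ^ a * w ^ c.val * pD π e ∨ z = -(lam ^ a * w ^ c.val * pD π e)) := by
  obtain ⟨a, ha, z', hz', hl⟩ := split_lam hz
  have h3 := nr3 hl
  obtain ⟨P, hP⟩ : ∃ P, P = Pool.Agent.Y692.QS.ns z' := ⟨_, rfl⟩
  obtain ⟨u, hu⟩ : ∃ u, u = Pool.Agent.Y692.QS.ep z' := ⟨_, rfl⟩
  have h4 := (Pool.Agent.Y692.QS.ep_cases z' h3).2
  have huu : IsUnit u := by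
    rw [hu]
    refine IsUnit.of_mul_eq_one (star (Pool.Agent.Y692.QS.ep z')) ?_
    rw [mul_comm]
    exact h4
  have hzP : z' = u * P := by
    rw [hu, hP]
    unfold Pool.Agent.Y692.QS.ns
    rw [← mul_assoc, mul_comm (Pool.Agent.Y692.QS.ep z'), h4, one_mul]
  have hP3 : (3 : Ei) ∣ P - 1 := by
    rw [hP]
    exact Pool.Agent.Y692.QS.ns_one h3
  have hPz : P ∣ z := by
    rw [hz', hzP]
    exact ⟨lam ^ a * u, by ring⟩
  have hCF : CF P := ⟨fun h0 => hz.1 (by rw [h0] at hPz; exact zero_dvd_iff.1 hPz),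
    fun x hx => hz.2 x (hx.trans hPz)⟩
  obtain ⟨n, π, e, hD, h5⟩ := ge3 P hP3 hCF
  obtain ⟨c, hc⟩ := Pool.Agent.Y715.T.RecC.unit_form huu
  refine ⟨a, c, n, π, e, ha, hD, ?_⟩
  rw [hz', hzP, h5]
  rcases hc with h6 | h6
  · left
    rw [h6]
    ring
  · right
    rw [h6]
    ring

section
variable {K : Type} [Field K] [NumberField K] (j : Ei ≃+* 𝓞 K)

/-- there is a factorization -/
lemma fact_ex (hj : ∀ z : Ei, Algebra.norm ℤ (j z) = nr z) {D : 𝓞 K}
    (hD : ∀ x : 𝓞 K, x ^ 3 ∣ D → IsUnit x) :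
    ∃ (ω : 𝓞 K) (a k n : ℕ) (π : Fin n → 𝓞 K) (e : Fin n → ℕ) (χ : Fin n → Fin n → ZMod 3)
      (ν τ μ : Fin n → ZMod 3), IsFact ω D a k n π e ∧ IsSym ω π χ ν τ μ := by
  obtain ⟨a, c, n, π, e, ha, hdt, hz⟩ := fact_ei (cf_symm j hD)
  have hww : (j w) ^ 2 + j w + 1 = 0 := by
    have h1 : (w : Ei) ^ 2 + w + 1 = 0 := by decide
    rw [← map_pow, ← map_one j, ← map_add, ← map_add, h1, map_zero]
  have hex : ∀ l, ex (j (π l)) = nn (π l) := by
    intro l
    rw [ex_eq j hj, RingEquiv.symm_apply_apply]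
  have hlam : j w - (j w) ^ 2 = j lam := by
    rw [← map_pow, ← map_sub]
    congr 1
  refine ⟨j w, a, c.val, n, fun i => j (π i), fun i => (e i).val, fun l i => cs (π l) (π i),
    fun l => -rq (π l), fun l => cs (π l) lam, fun l => ts 0 (π l), ⟨hww, ha, ?_, fun i => ⟨?_, ?_⟩,
    ?_, ?_, ?_⟩, ⟨?_, ?_, ?_, ?_⟩⟩
  · have := ZMod.val_lt c
    omega
  · exact (MulEquiv.prime_iff (j : Ei ≃* 𝓞 K)).2 (hdt.pq i).prime
  · have h1 := map_dvd j (hdt.pq i).three
    rwa [map_sub, map_one, map_ofNat] at h1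
  · intro i l hil
    by_contra hne
    have h1 : π i = π l := j.injective hil
    exact hdt.nd i l hne (by rw [h1])
  · intro i
    show (e i).val = 1 ∨ (e i).val = 2
    have h6 : (e i).val < 3 := ZMod.val_lt _
    have h7 : (e i).val ≠ 0 := by
      intro h8
      exact hdt.e0 i ((ZMod.val_eq_zero _).1 h8)
    omega
  · have e1 : (j w - (j w) ^ 2) ^ a * (j w) ^ c.val * ∏ i, j (π i) ^ (e i).val =
        j (lam ^ a * w ^ c.val * pD π e) := by
      rw [hlam, map_mul, map_mul, map_pow, map_pow]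
      congr 1
      unfold Pool.Agent.Y703.CT.pD
      rw [map_prod]
      simp only [map_pow]
    rw [e1]
    rcases hz with h | h
    · left
      rw [← h, RingEquiv.apply_symm_apply]
    · right
      rw [← map_neg, ← h, RingEquiv.apply_symm_apply]
  · intro i l hil
    have h1 := map_dvd j (cs_spec (hdt.pq l).prime (hdt.pq l).norm (hdt.nd i l hil))
    rw [hex]
    simp only [map_sub, map_pow] at h1
    exact h1
  · intro l
    have h1 := map_dvd j (cs_spec (hdt.pq l).prime (hdt.pq l).norm (not_dvd_w (hdt.pq l).prime))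
    rw [cs_w (hdt.pq l), tq_prim (hdt.pq l).three] at h1
    rw [hex]
    simp only [map_sub, map_pow] at h1
    exact h1
  · intro l
    have h1 := map_dvd j (cs_spec (hdt.pq l).prime (hdt.pq l).norm (not_dvd_lam (hdt.pq l)))
    rw [hex, hlam]
    simp only [map_sub, map_pow] at h1
    exact h1
  · intro l
    obtain ⟨⟨x, y⟩, hq⟩ := (hdt.pq l).three
    have e1 : π l = 1 + 3 * ⟨x, y⟩ := by linear_combination hq
    refine ⟨x, y, ?_, ?_⟩
    · have e2 : (⟨x, y⟩ : Ei) = (x : Ei) + (y : Ei) * w := by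
        have e3 : (w : Ei) = ⟨0, 1⟩ := rfl
        rw [e3]
        ext
        · rw [QuadraticAlgebra.re_add, Pool.Agent.Y692.QS.mul_re]
          simp
        · rw [QuadraticAlgebra.im_add, Pool.Agent.Y692.QS.mul_im]
          simp
      show j (π l) = _
      rw [e1, e2, map_add, map_one, map_mul, map_ofNat, map_add, map_intCast, map_mul,
        map_intCast]
    · show ts 0 (π l) = _
      rw [e1, ts_form]
      ring

/-- the law and the criterion for a factorization -/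
theorem main_case (h3 : S_III) (h4 : S_IV) (hj : ∀ z : Ei, Algebra.norm ℤ (j z) = nr z)
    (hdisc : discr K = -3) {ω D : 𝓞 K} {a k n : ℕ} {π : Fin n → 𝓞 K} {e : Fin n → ℕ}
    {χ : Fin n → Fin n → ZMod 3} {ν τ μ : Fin n → ZMod 3} (hD1 : D ≠ 1) (hD2 : D ≠ -1)
    (h : IsFact ω D a k n π e) (hs : IsSym ω π χ ν τ μ) :
    Law3 D ∧ (Tri D ↔ Sys a k e χ ν τ μ) := by
  obtain ⟨κ, hκ, hωκ⟩ := root_kap j h.om
  have hdt := dt_of j h
  have hf := form j h hκ hωκ
  have hchi := sym_chi j hj h hs hωκ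
  have hnu := sym_nu j hj h hs hκ hωκ
  have htau := sym_tau j hj h hs hκ hωκ
  have hmu := sym_mu j h hs hκ hωκ
  have hthree : ∀ l, (3 : Ei) ∣ j.symm (π l) - 1 := fun l => (hdt.pq l).three
  have ha := h.ale
  have hkle := h.kle
  have hκ0 : κ ≠ 0 := by rcases hκ with h | h <;> rw [h] <;> decide
  obtain rfl | rfl | rfl : a = 0 ∨ a = 1 ∨ a = 2 := by omega
  · rw [pow_zero, one_mul] at hf
    by_cases hk : k = 0
    · subst hk
      rw [Nat.cast_zero, mul_zero, ZMod.val_zero, pow_zero, one_mul] at hf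
      have hn : Nonempty (Fin n) := by
        by_contra hn
        rw [not_nonempty_iff] at hn
        have h5 := h.eq
        rw [Finset.univ_eq_empty, Finset.prod_empty, pow_zero, pow_zero, mul_one, mul_one] at h5
        rcases h5 with h5 | h5
        · exact hD1 h5
        · exact hD2 h5
      by_cases hsum : ∑ i, (e i : ZMod 3) * rq (j.symm (π i)) = 0
      · obtain ⟨h5, h6⟩ := h3 K j hdisc (Fin n) _ _ hdt hsum
        refine ⟨law_sign hf h5, ?_⟩
        rw [tri_sign hf, h6]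
        exact crit03 hchi hnu hmu hκ hsum
      · refine ⟨law_sign hf (Pool.Agent.Helper68.C7.Asm1.law_of j hdisc hdt hsum), ?_⟩
        rw [tri_sign hf, Pool.Agent.Helper68.C7.Asm1.tri_iff j hdt hsum]
        exact crit00 hchi hnu hκ hsum
    · have hk0 : κ * (k : ZMod 3) ≠ 0 := by
        apply mul_ne_zero hκ0
        obtain rfl | rfl : k = 1 ∨ k = 2 := by omega
        · decide
        · decide
      refine ⟨law_sign hf (Pool.Agent.Helper68.C2.Asm2.law_of j hdisc hdt hk0), ?_⟩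
      rw [tri_sign hf]
      refine (Pool.Agent.Helper68.C2.Asm2.tri_iff j hdt hk0).trans ?_
      exact crit0W hchi hnu hκ hk
  · rw [pow_one] at hf
    refine ⟨law_sign hf (Pool.Agent.Helper68.C6.Asm6.law_of j hdisc hdt), ?_⟩
    rw [tri_sign hf]
    refine (Pool.Agent.Helper68.C6.Asm6.tri_iff j hdt).trans ?_
    exact crit1 hchi hnu htau hthree hκ
  · have hf' : D = j (pD5 (fun i => j.symm (π i)) (fun i => (e i : ZMod 3))
        (κ * (k : ZMod 3))) ∨ D = -j (pD5 (fun i => j.symm (π i)) (fun i => (e i : ZMod 3))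
        (κ * (k : ZMod 3))) := by
      have e1 : (lam : Ei) ^ 2 * w ^ (κ * (k : ZMod 3)).val *
          pD (fun i => j.symm (π i)) (fun i => (e i : ZMod 3)) =
          -pD5 (fun i => j.symm (π i)) (fun i => (e i : ZMod 3)) (κ * (k : ZMod 3)) := by
        unfold Pool.Agent.Helper68.C5.pD5
        rw [lam_sq]
        ring
      rw [e1, map_neg, neg_neg] at hf
      exact hf.symm
    obtain ⟨h5, h6⟩ := h4 K j hdisc (Fin n) _ _ (κ * (k : ZMod 3)) hdt
    refine ⟨law_sign hf' h5, ?_⟩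
    rw [tri_sign hf', h6]
    exact crit2 hchi hnu htau hthree hκ

end

/-- **ALL**: the law and the criterion for every cubic twist. -/
theorem s_ALL (h3 : S_III) (h4 : S_IV) : S_ALL := by
  intro K _ _ _ D hD
  obtain ⟨⟨j, hj⟩, hdisc⟩ := Pool.Agent.Y455.CTK.jex K
  obtain ⟨hD1, hD2, hD3⟩ := hD
  have hex := fact_ex j hj hD3
  refine ⟨?_, hex, fun ω a k n π e χ ν τ μ hf hs =>
    (main_case j h3 h4 hj hdisc hD1 hD2 hf hs).2⟩
  obtain ⟨ω, a, k, n, π, e, χ, ν, τ, μ, hf, hs⟩ := hex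
  exact (main_case j h3 h4 hj hdisc hD1 hD2 hf hs).1

end Pool.Agent.Helper68.C8.All
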