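import Pool.Agent.Helper68.C7.AN7
import Pool.Agent.Helper68.C7.T3
import Pool.Agent.Helper68.C7.C3
import Pool.Agent.Helper68.C7.W3
import Pool.Agent.Helper68.C7.Asm7
import Pool.Agent.Helper68.C7.D7
import Pool.Agent.Helper68.C5K.Asm5K
import Pool.Agent.Helper68.C8.All
import Pool.Agent.Helper68.C8.AllSq

/-!
# All the cubic twists over `ℚ(ω)`: the final theorems
-/

set_option autoImplicit false

namespace Pool.Agent.Helper68.C8.Fin8

open Pool.Agent.Helper68.C8

theorem an : Pool.Agent.Helper68.N7.S_AN7 :=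
  Pool.Agent.Helper68.N7.AN7.an7 Pool.Agent.Helper68.C7.T3.s_T3
    (Pool.Agent.Helper68.C7.C3.s_C3 Pool.Agent.Helper68.C7.W3.s_W3)

theorem iii : S_III := Pool.Agent.Helper68.N7.Asm7.s_III an

theorem all : S_ALL := Pool.Agent.Helper68.C8.All.s_ALL iii Pool.Agent.Helper68.C5K.Asm5K.s_IV

theorem allsq : S_ALLSQ :=
  Pool.Agent.Helper68.C8.AllSq.s_ALLSQ iii Pool.Agent.Helper68.C7.D7.s_D7

end Pool.Agent.Helper68.C8.Fin8
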