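import Pool.Agent.Helper68.C8.AllCfc
import Pool.Agent.Helper68.C8.Fin8

/-!
# The exact proportion of all cube-free twists
-/

set_option autoImplicit false
set_option linter.unusedSectionVars false

open scoped Classical

namespace Pool.Agent.Helper68.C8.AllCf

open NumberField Finset Filter
open Pool.Agent.Y692.QS (Ei w nr)
open Pool.Agent.Y715.T.Gi (lam CF)
open Pool.Agent.Y715.T.RecG (Pq)
open Pool.Agent.Y699.E (nrm)
open Pool.Agent.Y703.XL (cr cr_pos)
open Pool.Agent.Helper68.C3 (Part3 SS Cl)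
open Pool.Agent.Helper68.C3.Fin3 (cr_zero)
open Pool.Agent.Helper68.C8.CF (mem_SS)

section
variable {K : Type} [Field K] [NumberField K] (j : Ei ≃+* 𝓞 K)

lemma cf_iff (z : Ei) : (∀ x : 𝓞 K, x ^ 3 ∣ j z → IsUnit x) ↔ CF z := by
  constructor
  · intro h
    have h1 := Pool.Agent.Helper68.C2.Fact2.cf_symm j h
    rwa [RingEquiv.symm_apply_apply] at h1
  · intro h x hx
    obtain ⟨y, rfl⟩ := j.surjective x
    rw [← map_pow, map_dvd_iff j] at hx
    exact (h.2 y hx).map j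

lemma count_K (hj : ∀ z : Ei, Algebra.norm ℤ (j z) = nr z) (X : ℕ) (Q : 𝓞 K → Prop) :
    {D : 𝓞 K | Algebra.norm ℤ D ≤ X ∧ (∀ x : 𝓞 K, x ^ 3 ∣ D → IsUnit x) ∧ Q D}.ncard =
      {z : Ei | nr z ≤ X ∧ CF z ∧ Q (j z)}.ncard := by
  have h1 : {D : 𝓞 K | Algebra.norm ℤ D ≤ X ∧ (∀ x : 𝓞 K, x ^ 3 ∣ D → IsUnit x) ∧ Q D} =
      j '' {z : Ei | nr z ≤ X ∧ CF z ∧ Q (j z)} := by
    ext D
    obtain ⟨z, rfl⟩ := j.surjective D
    have e : j z ∈ (j '' {z : Ei | nr z ≤ X ∧ CF z ∧ Q (j z)}) ↔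
        z ∈ {z : Ei | nr z ≤ X ∧ CF z ∧ Q (j z)} := j.injective.mem_set_image
    rw [e]
    show Algebra.norm ℤ (j z) ≤ X ∧ _ ∧ _ ↔ _
    rw [hj, cf_iff]
    rfl
  rw [h1, Set.ncard_image_of_injective _ j.injective]

/-- the number of the good sets -/
noncomputable def GG (s : Bool) (a : ℕ) (κ : ZMod 3) (T : Finset Ei) (Y : ℕ) : ℕ :=
  ((SS Y).filter fun S => Disjoint S T ∧ Part3 (j (el s a κ T (S ∪ T)))).card

/-- the number of all the sets -/
noncomputable def AA (T : Finset Ei) (Y : ℕ) : ℕ := ((SS Y).filter fun S => Disjoint S T).card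

/-- the number of the sets with the criterion -/
noncomputable def CC (a : ℕ) (κ : ZMod 3) (T : Finset Ei) (Y : ℕ) : ℕ :=
  ((SS Y).filter fun S => Disjoint S T ∧ GoodU a κ T (S ∪ T)).card

lemma GG_CC [IsCyclotomicExtension {3} ℚ K] (h3 : S_III) (h4 : S_IV) (hdisc : discr K = -3)
    (s : Bool) {a : ℕ} (ha : a < 3) (κ : ZMod 3) {T : Finset Ei} (hT : ∀ π ∈ T, Pq π) (Y : ℕ) :
    GG j s a κ T Y ≤ CC a κ T Y + 1 ∧ CC a κ T Y ≤ GG j s a κ T Y + 1 := by
  have key : ∀ S ∈ SS Y, S.Nonempty →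
      (Part3 (j (el s a κ T (S ∪ T))) ↔ GoodU a κ T (S ∪ T)) := by
    intro S hS hne
    have hU : ∀ π ∈ S ∪ T, Pq π := fun π hπ => by
      rw [Finset.mem_union] at hπ
      exact hπ.elim ((mem_SS.1 hS).1 π) (hT π)
    have h5 := part_all (T := T) (U := S ∪ T) j h3 h4 hdisc hU (show a ≤ 2 by omega) κ
      (fun h => by
        have h6 := Finset.union_eq_empty.1 h.2.2
        exact hne.ne_empty h6.1)
    rw [← h5]
    unfold el
    cases s
    · have e : ((if (false : Bool) = true then 1 else -1 : Ei) *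
          (lam ^ a * w ^ κ.val * PU T (S ∪ T))) = -(lam ^ a * w ^ κ.val * PU T (S ∪ T)) := by
        simp
      rw [e, map_neg, Pool.Agent.Helper68.C6.MJ.part_neg]
    · have e : ((if (true : Bool) = true then 1 else -1 : Ei) *
          (lam ^ a * w ^ κ.val * PU T (S ∪ T))) = lam ^ a * w ^ κ.val * PU T (S ∪ T) := by
        simp
      rw [e]
  constructor
  · exact Pool.Agent.Helper68.C8.AllSq.card_near _ _ _ fun S hS hne h =>
      ⟨h.1, (key S hS hne).1 h.2⟩
  · exact Pool.Agent.Helper68.C8.AllSq.card_near _ _ _ fun S hS hne h =>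
      ⟨h.1, (key S hS hne).2 h.2⟩

lemma AA_le (T : Finset Ei) (Y : ℕ) : AA T Y ≤ (SS Y).card := Finset.card_filter_le _ _

lemma filter_and_le (Y : ℕ) (T : Finset Ei) (P : Finset Ei → Prop) :
    ((SS Y).filter fun S => Disjoint S T ∧ P S).card ≤ AA T Y := by
  refine Finset.card_le_card fun S hS => ?_
  rw [Finset.mem_filter] at hS ⊢
  exact ⟨hS.1, hS.2.1⟩

lemma lim_CC (a : ℕ) (κ : ZMod 3) {T : Finset Ei} (hT : ∀ π ∈ T, Pq π) :
    Tendsto (fun Y : ℕ => ((CC a κ T Y : ℝ) - cr 0 * (AA T Y : ℝ)) / (Y : ℝ)) atTop (nhds 0) := by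
  obtain ⟨C, hC, hup⟩ := SS_up
  have h1 : Tendsto (fun Y : ℕ => (CC a κ T Y : ℝ) / (AA T Y : ℝ) - cr 0) atTop (nhds 0) := by
    have h := (Pool.Agent.Helper68.C8.CF.s_CF T hT a κ).sub_const (cr 0)
    rw [sub_self] at h
    exact h
  have h2 : Tendsto (fun Y : ℕ => C * |(CC a κ T Y : ℝ) / (AA T Y : ℝ) - cr 0|) atTop
      (nhds 0) := by
    have h := (h1.abs).const_mul C
    rwa [abs_zero, mul_zero] at h
  refine squeeze_zero_norm (fun Y => ?_) h2
  have hle : (AA T Y : ℝ) ≤ C * Y := (by exact_mod_cast AA_le T Y : (AA T Y : ℝ) ≤ _).trans (hup Y)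
  rcases Nat.eq_zero_or_pos (AA T Y) with h | h
  · have h5 : CC a κ T Y = 0 := by
      have := filter_and_le Y T fun S => GoodU a κ T (S ∪ T)
      unfold CC
      omega
    rw [h, h5]
    simp only [Nat.cast_zero, mul_zero, sub_zero, zero_div, norm_zero]
    positivity
  · have h6 : (0 : ℝ) < AA T Y := by exact_mod_cast h
    have hY : (0 : ℝ) < Y := by
      by_contra h7
      have h8 : (Y : ℝ) = 0 := le_antisymm (not_lt.1 h7) (Nat.cast_nonneg _)
      rw [h8, mul_zero] at hle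
      linarith
    have e : ((CC a κ T Y : ℝ) - cr 0 * (AA T Y : ℝ)) / (Y : ℝ) =
        ((AA T Y : ℝ) / Y) * ((CC a κ T Y : ℝ) / (AA T Y : ℝ) - cr 0) := by
      field_simp
    rw [e, norm_mul, Real.norm_eq_abs, Real.norm_eq_abs, abs_of_nonneg (by positivity)]
    refine mul_le_mul_of_nonneg_right ?_ (abs_nonneg _)
    rw [div_le_iff₀ hY]
    exact hle

lemma lim_GG [IsCyclotomicExtension {3} ℚ K] (h3 : S_III) (h4 : S_IV) (hdisc : discr K = -3)
    (s : Bool) {a : ℕ} (ha : a < 3) (κ : ZMod 3) {T : Finset Ei} (hT : ∀ π ∈ T, Pq π) :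
    Tendsto (fun Y : ℕ => ((GG j s a κ T Y : ℝ) - cr 0 * (AA T Y : ℝ)) / (Y : ℝ)) atTop
      (nhds 0) := by
  have h1 : Tendsto (fun Y : ℕ => ((GG j s a κ T Y : ℝ) - (CC a κ T Y : ℝ)) / (Y : ℝ)) atTop
      (nhds 0) := by
    refine squeeze_zero_norm (a := fun Y : ℕ => 1 / (Y : ℝ)) (fun Y => ?_)
      tendsto_one_div_atTop_nhds_zero_nat
    obtain ⟨h5, h6⟩ := GG_CC j h3 h4 hdisc s ha κ hT Y
    rw [Real.norm_eq_abs, abs_div, abs_of_nonneg (Nat.cast_nonneg Y : (0 : ℝ) ≤ (Y : ℝ))]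
    apply div_le_div_of_nonneg_right _ (Nat.cast_nonneg Y)
    have h7 : (GG j s a κ T Y : ℝ) ≤ CC a κ T Y + 1 := by exact_mod_cast h5
    have h8 : (CC a κ T Y : ℝ) ≤ GG j s a κ T Y + 1 := by exact_mod_cast h6
    rw [abs_le]
    constructor <;> linarith
  have h2 := h1.add (lim_CC a κ hT)
  rw [add_zero] at h2
  refine h2.congr fun Y => ?_
  ring

end

/-- **the exact proportion of all cubic twists**, from the two classes -/
theorem s_ALLCF' (h3 : S_III) (h4 : S_IV) : S_ALLCF := by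
  intro K _ _ _
  obtain ⟨⟨j, hj⟩, hdisc⟩ := Pool.Agent.Y455.CTK.jex K
  have hc9 := Pool.Agent.Y703.XL.t_C9
  have hcr : ∏' i : ℕ, (1 - (1 / 3 : ℝ) ^ (2 * i + 1)) = cr 0 := cr_zero.symm
  have hcr9 : cr 0 = Pool.Agent.Y703.XK.c9 := by
    unfold cr
    rw [Finset.range_zero, Finset.prod_empty, div_one]
  rw [hcr]
  refine ⟨?_, ?_, ?_⟩
  rotate_left
  · rw [hcr9]
    exact hc9.2.2.2.1
  · rw [hcr9]
    exact hc9.2.2.2.2
  -- the counts
  let t : ℕ → ℕ := fun X => {D : 𝓞 K | Algebra.norm ℤ D ≤ X ∧ ∀ x : 𝓞 K, x ^ 3 ∣ D → IsUnit x}.ncard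
  let g : ℕ → ℕ := fun X =>
    {D : 𝓞 K | Algebra.norm ℤ D ≤ X ∧ (∀ x : 𝓞 K, x ^ 3 ∣ D → IsUnit x) ∧ Part3 D}.ncard
  have ht : ∀ X, t X = ∑ s : Bool, ∑ a ∈ range 3, ∑ κ : ZMod 3, ∑ T ∈ SS X,
      AA T (X / (3 ^ a * NN T ^ 2)) := by
    intro X
    have h1 := count_K j hj X (fun _ => True)
    have h2 := count X (fun _ => True)
    simp only [and_true] at h1 h2
    exact h1.trans h2
  have hg : ∀ X, g X = ∑ s : Bool, ∑ a ∈ range 3, ∑ κ : ZMod 3, ∑ T ∈ SS X,
      GG j s a κ T (X / (3 ^ a * NN T ^ 2)) := by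
    intro X
    have h1 := count_K j hj X (fun D => Part3 D)
    have h2 := count X (fun z => Part3 (j z))
    exact h1.trans h2
  -- the difference
  have hdiff : Tendsto (fun X : ℕ => ((g X : ℝ) - cr 0 * (t X : ℝ)) / (X : ℝ)) atTop
      (nhds 0) := by
    have h1 : Tendsto (fun X : ℕ => ∑ s : Bool, ∑ a ∈ range 3, ∑ κ : ZMod 3,
        (∑ T ∈ SS X, ((GG j s a κ T (X / (3 ^ a * NN T ^ 2)) : ℝ) -
          cr 0 * (AA T (X / (3 ^ a * NN T ^ 2)) : ℝ))) / (X : ℝ)) atTop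
        (nhds (∑ _s : Bool, ∑ _a ∈ range 3, ∑ _κ : ZMod 3, (0 : ℝ))) := by
      refine tendsto_finsetSum _ fun s _ => tendsto_finsetSum _ fun a ha =>
        tendsto_finsetSum _ fun κ _ => ?_
      exact dom (GG j s a κ) AA a AA_le (fun T Y => filter_and_le Y T _)
        fun T hT => lim_GG j h3 h4 hdisc s (Finset.mem_range.1 ha) κ hT
    simp only [Finset.sum_const_zero] at h1
    refine h1.congr fun X => ?_
    rw [ht, hg]
    push_cast
    simp only [Finset.mul_sum, ← Finset.sum_div, ← Finset.sum_sub_distrib]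
  -- the lower bound
  obtain ⟨c, X₀, hc, hlow⟩ := Pool.Agent.Helper68.C3.Asy3.t_LOW
  have hlo : ∀ X : ℕ, X₀ ≤ X → c * X ≤ (t X : ℝ) := by
    intro X hX
    refine (hlow X hX).trans ?_
    have h1 : (SS X).card ≤ t X := by
      rcases Nat.eq_zero_or_pos X with h | h
      · rw [h, SS_zero]
        exact Nat.zero_le _
      have hmem : (∅ : Finset Ei) ∈ SS X := by
        rw [mem_SS]
        refine ⟨fun π hπ => absurd hπ (Finset.notMem_empty _), ?_⟩
        rw [Finset.prod_empty]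
        exact h
      have e : (SS X).card = AA ∅ (X / (3 ^ 0 * NN ∅ ^ 2)) := by
        unfold AA NN
        rw [Finset.prod_empty, one_pow, pow_zero, one_mul, Nat.div_one]
        congr 1
        refine (Finset.filter_true_of_mem fun S _ => ?_).symm
        exact Finset.disjoint_empty_right _
      rw [ht, e]
      refine le_trans ?_ (Finset.single_le_sum (f := fun s : Bool => ∑ a ∈ range 3,
        ∑ κ : ZMod 3, ∑ T ∈ SS X, AA T (X / (3 ^ a * NN T ^ 2)))
        (fun _ _ => Nat.zero_le _) (Finset.mem_univ true))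
      refine le_trans ?_ (Finset.single_le_sum (f := fun a : ℕ =>
        ∑ κ : ZMod 3, ∑ T ∈ SS X, AA T (X / (3 ^ a * NN T ^ 2)))
        (fun _ _ => Nat.zero_le _) (Finset.mem_range.2 (show 0 < 3 by norm_num)))
      refine le_trans ?_ (Finset.single_le_sum (f := fun κ : ZMod 3 =>
        ∑ T ∈ SS X, AA T (X / (3 ^ 0 * NN T ^ 2)))
        (fun _ _ => Nat.zero_le _) (Finset.mem_univ 0))
      exact Finset.single_le_sum (f := fun T => AA T (X / (3 ^ 0 * NN T ^ 2)))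
        (fun _ _ => Nat.zero_le _) hmem
    exact_mod_cast h1
  -- the limit
  have hlim : Tendsto (fun X : ℕ => (g X : ℝ) / (t X : ℝ) - cr 0) atTop (nhds 0) := by
    have h1 : Tendsto (fun X : ℕ => |((g X : ℝ) - cr 0 * (t X : ℝ)) / (X : ℝ)| * (1 / c)) atTop
        (nhds 0) := by
      have h := (hdiff.abs).mul_const (1 / c)
      rwa [abs_zero, zero_mul] at h
    refine squeeze_zero_norm' ?_ h1
    filter_upwards [eventually_ge_atTop (max X₀ 1)] with X hX
    have hX1 : (0 : ℝ) < X := by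
      have : 0 < X := by
        have := (le_max_right X₀ 1).trans hX
        omega
      exact_mod_cast this
    have h2 := hlo X ((le_max_left _ _).trans hX)
    have h3 : (0 : ℝ) < t X := lt_of_lt_of_le (by positivity) h2
    have e : (g X : ℝ) / (t X : ℝ) - cr 0 =
        (((g X : ℝ) - cr 0 * (t X : ℝ)) / (X : ℝ)) * ((X : ℝ) / (t X : ℝ)) := by
      field_simp
    rw [e, norm_mul, Real.norm_eq_abs, Real.norm_eq_abs]
    refine mul_le_mul_of_nonneg_left ?_ (abs_nonneg _)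
    rw [abs_of_nonneg (by positivity), div_le_div_iff₀ h3 hc]
    linarith
  have h5 := hlim.add_const (cr 0)
  rw [zero_add] at h5
  refine h5.congr fun X => ?_
  rw [sub_add_cancel]

/-- **the exact proportion of all cubic twists** -/
theorem s_ALLCF : S_ALLCF := s_ALLCF' Pool.Agent.Helper68.C8.Fin8.iii
  Pool.Agent.Helper68.C5K.Asm5K.s_IV

end Pool.Agent.Helper68.C8.AllCf
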