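import Pool.Agent.Helper68.C8.All
import Pool.Agent.Helper68.C8.CF
import Pool.Agent.Helper68.C6.MJ

/-!
# The exact proportion of all cube-free twists, part 1: the criterion and the parametrization
-/

set_option autoImplicit false
set_option linter.unusedSectionVars false

open scoped Classical

namespace Pool.Agent.Helper68.C8.AllCf

open NumberField Finset Filter
open Pool.Agent.Y692.QS (Ei w nr nr_mul nr_neg mul_re mul_im int_dvd nr_nonneg)
open Pool.Agent.Y715.T.Gi (lam nr_lam lam_sq prime_lam CF)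
open Pool.Agent.Y715.T.Rec (cs)
open Pool.Agent.Y715.T.RecG (Pq)
open Pool.Agent.Y699.E (nrm prm eq_of_dvd)
open Pool.Agent.Y703.CT (rq ex_q Dt pD Ker)
open Pool.Agent.Y703.XL (cr)
open Pool.Agent.Y696.CTK (Tri Law3)
open Pool.Agent.Helper68.C3 (Part3 SS)
open Pool.Agent.Helper68.C3.Fin3 (part3_iff)
open Pool.Agent.Helper68.C7 (Ker7)
open Pool.Agent.Helper68.C8.CF (mem_SS)

/-- the product `∏_(U \ T) π ∏_T π²` -/
noncomputable def PU (T U : Finset Ei) : Ei := ∏ ρ ∈ U, ρ ^ (if ρ ∈ T then 2 else 1)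

lemma pD_of (T U : Finset Ei) : pD (fun ρ : {ρ // ρ ∈ U} => (ρ : Ei)) (eT T) = PU T U := by
  unfold pD PU
  rw [← Finset.prod_coe_sort U (fun ρ => ρ ^ (if ρ ∈ T then 2 else 1))]
  refine Finset.prod_congr rfl fun ρ _ => ?_
  unfold eT
  by_cases h : (ρ : Ei) ∈ T
  · rw [if_pos h, if_pos h]; rfl
  · rw [if_neg h, if_neg h]; rfl

lemma dt_T {T U : Finset Ei} (hU : ∀ π ∈ U, Pq π) :
    Dt (fun ρ : {ρ // ρ ∈ U} => (ρ : Ei)) (eT T) where
  pq p := hU p p.2
  nd := by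
    intro i k hik hd
    exact hik (Subtype.ext (eq_of_dvd (hU k k.2) (hU i i.2) hd).symm)
  e0 p := by
    unfold eT
    split_ifs <;> decide

section
variable {K : Type} [Field K] [NumberField K] (j : Ei ≃+* 𝓞 K)

/-- the criterion for all classes together -/
theorem part_all [IsCyclotomicExtension {3} ℚ K] (h3 : S_III) (h4 : S_IV) (hdisc : discr K = -3)
    {T U : Finset Ei} (hU : ∀ π ∈ U, Pq π) {a : ℕ} (ha : a ≤ 2) (κ : ZMod 3)
    (hne : ¬ (a = 0 ∧ κ = 0 ∧ U = ∅)) :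
    Part3 (j (lam ^ a * w ^ κ.val * PU T U)) ↔ GoodU a κ T U := by
  have hdt := dt_T (T := T) hU
  rw [← pD_of]
  obtain rfl | rfl | rfl : a = 0 ∨ a = 1 ∨ a = 2 := by omega
  · rw [pow_zero, one_mul]
    by_cases hκ : κ = 0
    · subst hκ
      have hUne : U.Nonempty := by
        rw [Finset.nonempty_iff_ne_empty]
        exact fun h => hne ⟨rfl, rfl, h⟩
      have : Nonempty {ρ // ρ ∈ U} := hUne.to_subtype
      rw [ZMod.val_zero, pow_zero, one_mul]
      unfold GoodU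
      rw [if_pos ⟨rfl, rfl⟩]
      by_cases hs : ∑ ρ : {ρ // ρ ∈ U}, eT T ρ * rq (ρ : Ei) = 0
      · rw [if_pos hs]
        obtain ⟨h5, h6⟩ := h3 K j hdisc {ρ // ρ ∈ U} _ _ hdt hs
        rw [part3_iff h5, h6]
      · rw [if_neg hs, part3_iff (Pool.Agent.Helper68.C7.Asm1.law_of j hdisc hdt hs),
          Pool.Agent.Helper68.C7.Asm1.tri_iff j hdt hs]
    · unfold GoodU
      rw [if_neg (fun h => hκ h.2), if_pos rfl]
      have h5 := Pool.Agent.Helper68.C2.Asm2.law_of j hdisc hdt hκ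
      have h6 := Pool.Agent.Helper68.C2.Asm2.tri_iff j hdt hκ
      unfold Pool.Agent.Helper68.C2.pD2 at h5 h6
      rw [part3_iff h5, h6]
  · unfold GoodU
    rw [if_neg (fun h => absurd h.1 one_ne_zero), if_neg one_ne_zero, if_pos rfl, pow_one]
    have h5 := Pool.Agent.Helper68.C6.Asm6.law_of (κ := κ) j hdisc hdt
    have h6 := Pool.Agent.Helper68.C6.Asm6.tri_iff (κ := κ) j hdt
    unfold Pool.Agent.Helper68.C6.pD6 at h5 h6
    rw [part3_iff h5, h6]
  · unfold GoodU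
    rw [if_neg (fun h => absurd h.1 two_ne_zero), if_neg two_ne_zero, if_neg (by norm_num)]
    have e1 : (lam : Ei) ^ 2 * w ^ κ.val * pD (fun ρ : {ρ // ρ ∈ U} => (ρ : Ei)) (eT T) =
        -Pool.Agent.Helper68.C5.pD5 (fun ρ : {ρ // ρ ∈ U} => (ρ : Ei)) (eT T) κ := by
      unfold Pool.Agent.Helper68.C5.pD5
      rw [lam_sq]
      ring
    rw [e1, map_neg, Pool.Agent.Helper68.C6.MJ.part_neg]
    obtain ⟨h5, h6⟩ := h4 K j hdisc {ρ // ρ ∈ U} _ _ κ hdt
    rw [part3_iff h5, h6]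

end

/-! ### The parametrization of the cube-free elements -/

/-- the element with the given data -/
noncomputable def el (s : Bool) (a : ℕ) (κ : ZMod 3) (T U : Finset Ei) : Ei :=
  (if s then 1 else -1) * (lam ^ a * w ^ κ.val * PU T U)

lemma PU_prim {T U : Finset Ei} (hU : ∀ π ∈ U, Pq π) : (3 : Ei) ∣ PU T U - 1 := by
  have h1 : ∀ V : Finset Ei, (∀ π ∈ V, Pq π) →
      (3 : Ei) ∣ (∏ ρ ∈ V, ρ ^ (if ρ ∈ T then 2 else 1)) - 1 := by
    intro V
    induction V using Finset.induction_on with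
    | empty => intro _; simp
    | insert x V hx ih =>
      intro hV
      rw [Finset.prod_insert hx]
      have h2 := ih fun π hπ => hV π (Finset.mem_insert_of_mem hπ)
      have h3 : (3 : Ei) ∣ x ^ (if x ∈ T then 2 else 1) - 1 := by
        have h4 := (hV x (Finset.mem_insert_self _ _)).three
        exact h4.trans (sub_one_dvd_pow_sub_one _ _)
      have e : x ^ (if x ∈ T then 2 else 1) * (∏ ρ ∈ V, ρ ^ (if ρ ∈ T then 2 else 1)) - 1 =
        (x ^ (if x ∈ T then 2 else 1) - 1) * (∏ ρ ∈ V, ρ ^ (if ρ ∈ T then 2 else 1)) +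
          ((∏ ρ ∈ V, ρ ^ (if ρ ∈ T then 2 else 1)) - 1) := by ring
      rw [e]
      exact dvd_add (h3.mul_right _) h2
  exact h1 U hU

lemma lam_three : lam ∣ (3 : Ei) := ⟨-lam, by linear_combination lam_sq⟩

lemma lam_PU {T U : Finset Ei} (hU : ∀ π ∈ U, Pq π) : ¬ lam ∣ PU T U := by
  intro h
  have h1 := dvd_sub h (lam_three.trans (PU_prim (T := T) hU))
  rw [sub_sub_cancel] at h1
  exact prime_lam.not_dvd_one h1

lemma dvd_PU {T U : Finset Ei} (hU : ∀ π ∈ U, Pq π) {x : Ei} (hx : Pq x) :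
    x ∣ PU T U ↔ x ∈ U := by
  constructor
  · intro h
    unfold PU at h
    obtain ⟨ρ, hρ, h1⟩ := (hx.prime.dvd_finsetProd_iff _).1 h
    have h2 := hx.prime.dvd_of_dvd_pow h1
    rw [eq_of_dvd hx (hU ρ hρ) h2]
    exact hρ
  · intro h
    unfold PU
    refine dvd_trans ?_ (Finset.dvd_prod_of_mem _ h)
    split_ifs
    · exact dvd_pow_self _ two_ne_zero
    · rw [pow_one]

lemma PU_erase {T U : Finset Ei} {x : Ei} (hx : x ∈ U) :
    PU T U = x ^ (if x ∈ T then 2 else 1) * PU T (U.erase x) := by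
  unfold PU
  rw [Finset.mul_prod_erase U (fun ρ => ρ ^ (if ρ ∈ T then 2 else 1)) hx]

lemma sq_dvd_PU {T U : Finset Ei} (hU : ∀ π ∈ U, Pq π) {x : Ei} (hx : Pq x) :
    x ^ 2 ∣ PU T U ↔ x ∈ U ∧ x ∈ T := by
  constructor
  · intro h
    have h1 : x ∈ U := (dvd_PU hU hx).1 ((dvd_pow_self x two_ne_zero).trans h)
    refine ⟨h1, ?_⟩
    by_contra h2
    rw [PU_erase h1, if_neg h2, pow_one, pow_two] at h
    have h3 := (mul_dvd_mul_iff_left hx.prime.ne_zero).1 h
    have h4 := (dvd_PU (fun π hπ => hU π (Finset.mem_of_mem_erase hπ)) hx).1 h3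
    exact Finset.notMem_erase x U h4
  · rintro ⟨h1, h2⟩
    rw [PU_erase h1, if_pos h2]
    exact dvd_mul_right _ _

lemma PU_inj {T U T' U' : Finset Ei} (hU : ∀ π ∈ U, Pq π) (hU' : ∀ π ∈ U', Pq π) (hT : T ⊆ U)
    (hT' : T' ⊆ U') (h : PU T U = PU T' U') : T = T' ∧ U = U' := by
  constructor
  · ext x
    constructor
    · intro hx
      have hp := hU x (hT hx)
      exact ((sq_dvd_PU hU' hp).1 (h ▸ (sq_dvd_PU hU hp).2 ⟨hT hx, hx⟩)).2
    · intro hx
      have hp := hU' x (hT' hx)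
      exact ((sq_dvd_PU hU hp).1 (h ▸ (sq_dvd_PU hU' hp).2 ⟨hT' hx, hx⟩)).2
  · ext x
    constructor
    · intro hx
      exact (dvd_PU hU' (hU x hx)).1 (h ▸ (dvd_PU hU (hU x hx)).2 hx)
    · intro hx
      exact (dvd_PU hU (hU' x hx)).1 (h ▸ (dvd_PU hU' (hU' x hx)).2 hx)

lemma PU_union {S T : Finset Ei} (h : Disjoint S T) :
    PU T (S ∪ T) = (∏ π ∈ S, π) * (∏ π ∈ T, π) ^ 2 := by
  unfold PU
  rw [Finset.prod_union h, ← Finset.prod_pow]
  congr 1
  · refine Finset.prod_congr rfl fun x hx => ?_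
    rw [if_neg (Finset.disjoint_left.1 h hx), pow_one]
  · refine Finset.prod_congr rfl fun x hx => ?_
    rw [if_pos hx]

lemma unit_dec : ∀ (s s' : Bool) (κ κ' : ZMod 3),
    (((3 : ℤ) ∣ ((if s then 1 else -1) * (w : Ei) ^ κ.val -
      (if s' then 1 else -1) * (w : Ei) ^ κ'.val).re) ∧
    ((3 : ℤ) ∣ ((if s then 1 else -1) * (w : Ei) ^ κ.val -
      (if s' then 1 else -1) * (w : Ei) ^ κ'.val).im)) → s = s' ∧ κ = κ' := by
  decide

lemma unit_wk (κ : ZMod 3) : IsUnit ((w : Ei) ^ κ.val) := Pool.Agent.Helper68.C3.NS3.wk_unit κ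

lemma unit_s (s : Bool) : IsUnit ((if s then 1 else -1 : Ei)) := by
  cases s
  · exact isUnit_one.neg
  · exact isUnit_one

lemma lam_pow_le {a a' : ℕ} {x y : Ei} (hx : ¬ lam ∣ x) (h : lam ^ a * x = lam ^ a' * y) :
    a' ≤ a := by
  by_contra hlt
  push Not at hlt
  obtain ⟨k, rfl⟩ := Nat.exists_eq_add_of_lt hlt
  rw [show a + k + 1 = a + (k + 1) by ring, pow_add, mul_assoc] at h
  have h1 := mul_left_cancel₀ (pow_ne_zero a prime_lam.ne_zero) h
  apply hx
  rw [h1, pow_succ']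
  exact ⟨lam ^ k * y, by ring⟩

lemma el_inj {s s' : Bool} {a a' : ℕ} {κ κ' : ZMod 3} {T U T' U' : Finset Ei}
    (hU : ∀ π ∈ U, Pq π) (hU' : ∀ π ∈ U', Pq π) (hT : T ⊆ U) (hT' : T' ⊆ U')
    (h : el s a κ T U = el s' a' κ' T' U') : s = s' ∧ a = a' ∧ κ = κ' ∧ T = T' ∧ U = U' := by
  have e : ∀ (s : Bool) (a : ℕ) (κ : ZMod 3) (T U : Finset Ei), el s a κ T U =
      lam ^ a * (((if s then 1 else -1) * w ^ κ.val) * PU T U) := by
    intro s a κ T U
    unfold el
    ring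
  have hu : ∀ (s : Bool) (κ : ZMod 3), IsUnit ((if s then 1 else -1 : Ei) * w ^ κ.val) :=
    fun s κ => (unit_s s).mul (unit_wk κ)
  have hl : ∀ (s : Bool) (κ : ZMod 3) {T U : Finset Ei}, (∀ π ∈ U, Pq π) →
      ¬ lam ∣ ((if s then 1 else -1) * w ^ κ.val) * PU T U := by
    intro s κ T U hU h
    exact lam_PU hU ((hu s κ).dvd_mul_left.1 h)
  rw [e, e] at h
  have h1 : a = a' := le_antisymm (lam_pow_le (hl s' κ' hU') h.symm) (lam_pow_le (hl s κ hU) h)
  subst h1
  have h2 := mul_left_cancel₀ (pow_ne_zero a prime_lam.ne_zero) h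
  have h3 : (3 : Ei) ∣ (if s then 1 else -1) * (w : Ei) ^ κ.val -
      (if s' then 1 else -1) * (w : Ei) ^ κ'.val := by
    have e1 : (if s then 1 else -1) * (w : Ei) ^ κ.val -
        (if s' then 1 else -1) * (w : Ei) ^ κ'.val =
        ((if s' then 1 else -1) * (w : Ei) ^ κ'.val) * (PU T' U' - 1) -
          ((if s then 1 else -1) * (w : Ei) ^ κ.val) * (PU T U - 1) := by
      linear_combination h2
    rw [e1]
    exact dvd_sub ((PU_prim hU').mul_left _) ((PU_prim hU).mul_left _)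
  rw [Pool.Agent.Helper68.C6.MJ.dvd3] at h3
  obtain ⟨h4, h5⟩ := unit_dec s s' κ κ' h3
  subst h4
  subst h5
  have h6 := (hu s κ).mul_left_cancel h2
  obtain ⟨h7, h8⟩ := PU_inj hU hU' hT hT' h6
  exact ⟨rfl, rfl, rfl, h7, h8⟩

/-- every cube-free element has such data -/
lemma el_surj {z : Ei} (hz : CF z) : ∃ (s : Bool) (a : ℕ) (κ : ZMod 3) (T S : Finset Ei),
    a < 3 ∧ (∀ π ∈ S, Pq π) ∧ (∀ π ∈ T, Pq π) ∧ Disjoint S T ∧ z = el s a κ T (S ∪ T) := by
  obtain ⟨a, κ, n, π, e, ha, hD, h⟩ := Pool.Agent.Helper68.C8.All.fact_ei hz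
  have hinj : Function.Injective π := by
    intro i l hil
    by_contra hne
    exact hD.nd i l hne (by rw [hil])
  have he : ∀ i, e i = 1 ∨ e i = 2 := by
    intro i
    have h1 := hD.e0 i
    revert h1
    generalize e i = x
    revert x
    decide
  set T : Finset Ei := (Finset.univ.filter fun i => e i = 2).image π with hTd
  set S : Finset Ei := (Finset.univ.filter fun i => ¬ e i = 2).image π with hSd
  have hd : Disjoint S T := by
    rw [Finset.disjoint_left]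
    intro x hx hx'
    rw [hSd, Finset.mem_image] at hx
    rw [hTd, Finset.mem_image] at hx'
    obtain ⟨i, hi, rfl⟩ := hx
    obtain ⟨l, hl, h1⟩ := hx'
    rw [hinj h1] at hl
    exact (Finset.mem_filter.1 hi).2 (Finset.mem_filter.1 hl).2
  have hST : S ∪ T = Finset.univ.image π := by
    ext x
    rw [Finset.mem_union, hSd, hTd, Finset.mem_image, Finset.mem_image, Finset.mem_image]
    constructor
    · rintro (⟨i, -, rfl⟩ | ⟨i, -, rfl⟩) <;> exact ⟨i, Finset.mem_univ _, rfl⟩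
    · rintro ⟨i, -, rfl⟩
      by_cases h1 : e i = 2
      · exact Or.inr ⟨i, Finset.mem_filter.2 ⟨Finset.mem_univ _, h1⟩, rfl⟩
      · exact Or.inl ⟨i, Finset.mem_filter.2 ⟨Finset.mem_univ _, h1⟩, rfl⟩
  have hmem : ∀ i, π i ∈ T ↔ e i = 2 := by
    intro i
    rw [hTd, Finset.mem_image]
    constructor
    · rintro ⟨l, hl, h1⟩
      rw [hinj h1] at hl
      exact (Finset.mem_filter.1 hl).2
    · exact fun h1 => ⟨i, Finset.mem_filter.2 ⟨Finset.mem_univ _, h1⟩, rfl⟩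
  have hP : pD π e = PU T (S ∪ T) := by
    unfold PU pD
    rw [hST, Finset.prod_image fun i _ l _ h => hinj h]
    refine Finset.prod_congr rfl fun i _ => ?_
    congr 1
    rcases he i with h1 | h1
    · rw [if_neg, h1]
      · rfl
      · rw [hmem, h1]
        decide
    · rw [if_pos ((hmem i).2 h1), h1]
      rfl
  have hSq : ∀ π ∈ S, Pq π := by
    intro x hx
    rw [hSd, Finset.mem_image] at hx
    obtain ⟨i, -, rfl⟩ := hx
    exact hD.pq i
  have hTq : ∀ π ∈ T, Pq π := by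
    intro x hx
    rw [hTd, Finset.mem_image] at hx
    obtain ⟨i, -, rfl⟩ := hx
    exact hD.pq i
  rw [hP] at h
  rcases h with h | h
  · refine ⟨true, a, κ, T, S, by omega, hSq, hTq, hd, ?_⟩
    rw [h]
    unfold el
    simp
  · refine ⟨false, a, κ, T, S, by omega, hSq, hTq, hd, ?_⟩
    rw [h]
    unfold el
    simp

end Pool.Agent.Helper68.C8.AllCf
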