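import Pool.Agent.Helper68.C8.AllCfa

/-!
# The exact proportion of all cube-free twists, part 2: the count
-/

set_option autoImplicit false
set_option linter.unusedSectionVars false

open scoped Classical

namespace Pool.Agent.Helper68.C8.AllCf

open NumberField Finset Filter
open Pool.Agent.Y692.QS (Ei w nr nr_mul nr_neg mul_re mul_im int_dvd nr_nonneg)
open Pool.Agent.Y715.T.Gi (lam nr_lam lam_sq prime_lam CF)
open Pool.Agent.Y715.T.RecG (Pq)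
open Pool.Agent.Y699.E (nrm prm eq_of_dvd nrm_mul nrm_one)
open Pool.Agent.Helper68.C3 (SS)
open Pool.Agent.Helper68.C8.CF (mem_SS)

/-- the norm of the product -/
noncomputable def NN (T : Finset Ei) : ℕ := ∏ π ∈ T, nrm π

lemma NN_pos {T : Finset Ei} (hT : ∀ π ∈ T, Pq π) : 0 < NN T :=
  Pool.Agent.Helper68.C3.Cnt3.pr_pos hT

lemma nrm_w (κ : ZMod 3) : nrm ((w : Ei) ^ κ.val) = 1 := by
  revert κ
  decide

lemma nrm_lam : nrm lam = 3 := by decide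

lemma nrm_pow (x : Ei) (n : ℕ) : nrm (x ^ n) = nrm x ^ n := by
  induction n with
  | zero => rw [pow_zero, pow_zero, nrm_one]
  | succ n ih => rw [pow_succ, pow_succ, nrm_mul, ih]

lemma nrm_s (s : Bool) : nrm (if s then 1 else -1 : Ei) = 1 := by
  cases s
  · decide
  · decide

lemma nrm_el (s : Bool) (a : ℕ) (κ : ZMod 3) {S T : Finset Ei} (h : Disjoint S T) :
    nrm (el s a κ T (S ∪ T)) = 3 ^ a * (NN S * NN T ^ 2) := by
  unfold el NN
  rw [PU_union h, nrm_mul, nrm_s, one_mul, nrm_mul, nrm_mul, nrm_pow, nrm_lam, nrm_w, mul_one,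
    nrm_mul, nrm_pow, Pool.Agent.Y550.XK.NS.nrm_prod, Pool.Agent.Y550.XK.NS.nrm_prod]

lemma nr_le_iff (z : Ei) (X : ℕ) : nr z ≤ X ↔ nrm z ≤ X := by
  rw [← Pool.Agent.Y699.E.nrm_cast]
  exact Nat.cast_le

lemma el_cf (s : Bool) {a : ℕ} (ha : a < 3) (κ : ZMod 3) {T U : Finset Ei}
    (hU : ∀ π ∈ U, Pq π) : CF (el s a κ T U) := by
  have hdt := dt_T (T := T) hU
  have h := Pool.Agent.Helper68.C5.Sel5.cf_lam hdt (eT T) ((unit_s s).mul (unit_wk κ)) (k := a)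
    (by omega)
  have e1 : el s a κ T U = (if s then 1 else -1) * w ^ κ.val * lam ^ a *
      ∏ j : {ρ // ρ ∈ U}, (j : Ei) ^ (eT T j).val := by
    unfold el
    rw [← pD_of]
    unfold Pool.Agent.Y703.CT.pD
    ring
  rw [e1]
  exact h

lemma NN_le {X a : ℕ} {S T : Finset Ei} (hS : ∀ π ∈ S, Pq π) (hT : ∀ π ∈ T, Pq π)
    (h : 3 ^ a * (NN S * NN T ^ 2) ≤ X) : T ∈ SS X ∧ S ∈ SS (X / (3 ^ a * NN T ^ 2)) := by
  have hT1 := NN_pos hT
  have hS1 := NN_pos hS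
  have h3 : 0 < 3 ^ a := by positivity
  rw [mem_SS, mem_SS]
  refine ⟨⟨hT, ?_⟩, hS, ?_⟩
  · refine le_trans ?_ h
    show NN T ≤ _
    calc NN T ≤ NN T ^ 2 := Nat.le_self_pow two_ne_zero _
      _ ≤ NN S * NN T ^ 2 := Nat.le_mul_of_pos_left _ hS1
      _ ≤ _ := Nat.le_mul_of_pos_left _ h3
  · rw [Nat.le_div_iff_mul_le (by positivity)]
    refine le_trans (le_of_eq ?_) h
    show NN S * _ = _
    ring

lemma NN_ge {X a : ℕ} {S T : Finset Ei} (hT : ∀ π ∈ T, Pq π)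
    (h : S ∈ SS (X / (3 ^ a * NN T ^ 2))) : 3 ^ a * (NN S * NN T ^ 2) ≤ X := by
  have hT1 := NN_pos hT
  have h3 : 0 < 3 ^ a := by positivity
  rw [mem_SS] at h
  have h1 : NN S ≤ X / (3 ^ a * NN T ^ 2) := h.2
  rw [Nat.le_div_iff_mul_le (by positivity)] at h1
  refine le_trans (le_of_eq ?_) h1
  ring

/-- **the count** -/
theorem count (X : ℕ) (Q : Ei → Prop) :
    {z : Ei | nr z ≤ X ∧ CF z ∧ Q z}.ncard =
      ∑ s : Bool, ∑ a ∈ range 3, ∑ κ : ZMod 3, ∑ T ∈ SS X,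
        ((SS (X / (3 ^ a * NN T ^ 2))).filter fun S =>
          Disjoint S T ∧ Q (el s a κ T (S ∪ T))).card := by
  set A : Finset ((_ : Bool × ℕ × ZMod 3 × Finset Ei) × Finset Ei) :=
    ((univ : Finset Bool) ×ˢ (range 3 ×ˢ ((univ : Finset (ZMod 3)) ×ˢ SS X))).sigma fun p =>
      (SS (X / (3 ^ p.2.1 * NN p.2.2.2 ^ 2))).filter fun S =>
        Disjoint S p.2.2.2 ∧ Q (el p.1 p.2.1 p.2.2.1 p.2.2.2 (S ∪ p.2.2.2)) with hA
  have hmem : ∀ (s : Bool) (a : ℕ) (κ : ZMod 3) (T S : Finset Ei),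
      (⟨(s, a, κ, T), S⟩ : (_ : Bool × ℕ × ZMod 3 × Finset Ei) × Finset Ei) ∈ A ↔
        (a < 3 ∧ T ∈ SS X) ∧ S ∈ SS (X / (3 ^ a * NN T ^ 2)) ∧ Disjoint S T ∧
          Q (el s a κ T (S ∪ T)) := by
    intro s a κ T S
    rw [hA, Finset.mem_sigma, Finset.mem_filter, Finset.mem_product, Finset.mem_product,
      Finset.mem_product, Finset.mem_range]
    constructor
    · rintro ⟨⟨-, h1, -, h2⟩, h3⟩
      exact ⟨⟨h1, h2⟩, h3⟩
    · rintro ⟨⟨h1, h2⟩, h3⟩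
      exact ⟨⟨Finset.mem_univ _, h1, Finset.mem_univ _, h2⟩, h3⟩
  let f : ((_ : Bool × ℕ × ZMod 3 × Finset Ei) × Finset Ei) → Ei := fun q =>
    el q.1.1 q.1.2.1 q.1.2.2.1 q.1.2.2.2 (q.2 ∪ q.1.2.2.2)
  have hset : {z : Ei | nr z ≤ X ∧ CF z ∧ Q z} = ((A.image f : Finset Ei) : Set Ei) := by
    ext z
    rw [Finset.mem_coe, Finset.mem_image]
    constructor
    · rintro ⟨h1, h2, h3⟩
      obtain ⟨s, a, κ, T, S, ha, hS, hT, hd, rfl⟩ := el_surj h2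
      rw [nr_le_iff, nrm_el s a κ hd] at h1
      obtain ⟨h4, h5⟩ := NN_le hS hT h1
      exact ⟨⟨(s, a, κ, T), S⟩, (hmem _ _ _ _ _).2 ⟨⟨ha, h4⟩, h5, hd, h3⟩, rfl⟩
    · rintro ⟨⟨⟨s, a, κ, T⟩, S⟩, h, rfl⟩
      rw [hmem] at h
      obtain ⟨⟨ha, h4⟩, h5, hd, h3⟩ := h
      have hT := (mem_SS.1 h4).1
      have hS := (mem_SS.1 h5).1
      have hU : ∀ π ∈ S ∪ T, Pq π := fun π hπ => by
        rw [Finset.mem_union] at hπ
        exact hπ.elim (hS π) (hT π)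
      refine ⟨?_, el_cf s ha κ hU, h3⟩
      rw [nr_le_iff]
      show nrm (el s a κ T (S ∪ T)) ≤ X
      rw [nrm_el s a κ hd]
      exact NN_ge hT h5
  rw [hset, Set.ncard_coe_finset, Finset.card_image_of_injOn, hA, Finset.card_sigma]
  · simp only [Finset.sum_product]
  · rintro ⟨⟨s, a, κ, T⟩, S⟩ h ⟨⟨s', a', κ', T'⟩, S'⟩ h' hf
    rw [Finset.mem_coe, hmem] at h h'
    obtain ⟨⟨ha, h4⟩, h5, hd, h3⟩ := h
    obtain ⟨⟨ha', h4'⟩, h5', hd', h3'⟩ := h'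
    have hT := (mem_SS.1 h4).1
    have hS := (mem_SS.1 h5).1
    have hT' := (mem_SS.1 h4').1
    have hS' := (mem_SS.1 h5').1
    have hU : ∀ π ∈ S ∪ T, Pq π := fun π hπ => by
      rw [Finset.mem_union] at hπ
      exact hπ.elim (hS π) (hT π)
    have hU' : ∀ π ∈ S' ∪ T', Pq π := fun π hπ => by
      rw [Finset.mem_union] at hπ
      exact hπ.elim (hS' π) (hT' π)
    obtain ⟨rfl, rfl, rfl, rfl, h6⟩ := el_inj hU hU' Finset.subset_union_right
      Finset.subset_union_right hf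
    have h7 : S = S' := by
      have e1 : (S ∪ T) \ T = S := by
        rw [Finset.union_sdiff_right]
        exact Finset.sdiff_eq_self_of_disjoint hd
      have e2 : (S' ∪ T) \ T = S' := by
        rw [Finset.union_sdiff_right]
        exact Finset.sdiff_eq_self_of_disjoint hd'
      rw [← e1, ← e2, h6]
    rw [h7]

end Pool.Agent.Helper68.C8.AllCf
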