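import Pool.Agent.Helper68.C7.D7a
import Pool.Agent.Helper68.C7.Defs7
import Pool.Agent.Helper68.C2.Defs2
import Pool.Agent.Helper68.C5.Defs5

/-!
# The linear systems of the cubic twists as Laplacian systems

Part 1 of the module CF (linear algebra).
-/

set_option autoImplicit false

open scoped Classical

namespace Pool.Agent.Helper68.C8.CF

open Finset
open Pool.Agent.Y692.QS (Ei)
open Pool.Agent.Y715.T.Rec (cs)
open Pool.Agent.Y703.CT (rq Ker)
open Pool.Agent.Y703.XL (nA)
open Pool.Agent.Helper68.C5.Chr5 (ts)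
open Pool.Agent.Helper68.C7.D7 (Lap ww Sys sys_iff chg)
open Pool.Agent.Helper68.C7 (Ker7)
open Pool.Agent.Helper68.C6 (Ker6)

/-! ### Laplacian systems with constant solutions only -/

/-- all solutions are constant -/
def LapC {T : Type} [Fintype T] (w : T → T → ZMod 3) : Prop :=
  ∀ x : T → ZMod 3, Lap w x → ∀ a b, x a = x b

theorem lap_const {T : Type} [Fintype T] (w : T → T → ZMod 3) (c : ZMod 3) :
    Lap w (fun _ => c) := by
  intro a
  refine Finset.sum_eq_zero fun b _ => ?_
  rw [sub_self, mul_zero]

theorem lapC_iff_card {T : Type} [Fintype T] [Nonempty T] (w : T → T → ZMod 3) :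
    LapC w ↔ Nat.card {x : T → ZMod 3 // Lap w x} = 3 ^ (0 + 1) := by
  obtain ⟨f, hf⟩ : ∃ f : ZMod 3 → {x : T → ZMod 3 // Lap w x}, f = fun c =>
    ⟨fun _ => c, lap_const w c⟩ := ⟨_, rfl⟩
  have hinj : Function.Injective f := by
    intro c d h
    rw [hf] at h
    exact congrFun (congrArg Subtype.val h) (Classical.arbitrary T)
  have h3 : Nat.card (ZMod 3) = 3 := Nat.card_zmod 3
  have hiff : LapC w ↔ Function.Surjective f := by
    constructor
    · rintro h ⟨x, hx⟩
      refine ⟨x (Classical.arbitrary T), ?_⟩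
      rw [hf]
      refine Subtype.ext (funext fun a => ?_)
      exact h x hx _ _
    · intro h x hx a b
      obtain ⟨c, hc⟩ := h ⟨x, hx⟩
      rw [hf] at hc
      have h1 := congrArg Subtype.val hc
      have h2 : x = fun _ => c := h1.symm
      rw [h2]
  rw [hiff, zero_add, pow_one]
  constructor
  · intro h
    exact (Nat.card_congr (Equiv.ofBijective f ⟨hinj, h⟩)).symm.trans h3
  · intro h
    have : Finite {x : T → ZMod 3 // Lap w x} := inferInstance
    exact (hinj.bijective_of_nat_card_le (by rw [h, h3])).2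

theorem lapC_reindex {T T' : Type} [Fintype T] [Fintype T'] (σ : T' ≃ T) (w : T → T → ZMod 3) :
    LapC w ↔ LapC (fun a b => w (σ a) (σ b)) := by
  constructor
  · intro h x hx a b
    have h1 := h (fun t => x (σ.symm t)) (by
      intro t
      rw [← σ.sum_comp]
      have h2 := hx (σ.symm t)
      simp only [σ.apply_symm_apply] at h2
      simp only [σ.symm_apply_apply]
      exact h2) (σ a) (σ b)
    simpa using h1
  · intro h x hx a b
    have h1 := h (fun t => x (σ t)) (by
      intro t
      have h2 := hx (σ t)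
      rw [← σ.sum_comp] at h2
      exact h2) (σ.symm a) (σ.symm b)
    simpa using h1

/-- one equation follows from the others -/
theorem lap_of_ne {T : Type} [Fintype T] {w : T → T → ZMod 3} (hw : ∀ a b, w a b = w b a)
    {x : T → ZMod 3} (a₀ : T) (h : ∀ a, a ≠ a₀ → ∑ b, w a b * (x b - x a) = 0) : Lap w x := by
  have h1 : ∑ a, ∑ b, w a b * (x b - x a) = 0 := by
    have h2 : ∑ a, ∑ b, w a b * (x b - x a) = -∑ a, ∑ b, w a b * (x b - x a) := by
      conv_lhs => rw [Finset.sum_comm]
      rw [← Finset.sum_neg_distrib]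
      refine Finset.sum_congr rfl fun a _ => ?_
      rw [← Finset.sum_neg_distrib]
      refine Finset.sum_congr rfl fun b _ => ?_
      rw [hw b a]
      ring
    generalize ∑ a, ∑ b, w a b * (x b - x a) = s at h2
    revert h2
    revert s
    decide
  intro a
  by_cases ha : a = a₀
  · subst ha
    rw [Finset.sum_eq_single a (fun b _ hb => h b hb) (fun h => absurd (mem_univ a) h)] at h1
    exact h1
  · exact h a ha

theorem card_blk {Y J : Type} [Fintype Y] [Fintype J] {w : Y ⊕ J → Y ⊕ J → ZMod 3}
    (hw : ∀ a b, w a b = w b a) :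
    Nat.card {x : Y ⊕ J → ZMod 3 // Lap w x} =
      nA (fun u v => w (Sum.inl u) (Sum.inl v)) (fun u l => w (Sum.inl u) (Sum.inr l))
        (fun k l => w (Sum.inr k) (Sum.inr l)) := by
  unfold nA
  refine Nat.card_congr (Equiv.subtypeEquiv (Equiv.sumArrowEquivProdArrow Y J (ZMod 3))
    fun x => ?_)
  unfold Lap
  constructor
  · intro h
    refine ⟨fun u => ?_, fun k => ?_⟩
    · have h1 := h (Sum.inl u)
      rw [Fintype.sum_sum_type] at h1
      exact h1
    · have h1 := h (Sum.inr k)
      rw [Fintype.sum_sum_type] at h1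
      rw [← h1]
      refine congrArg₂ _ (sum_congr rfl fun u _ => ?_) rfl
      show w (Sum.inl u) (Sum.inr k) * _ = w (Sum.inr k) (Sum.inl u) * _
      rw [hw (Sum.inl u)]
      rfl
  · rintro ⟨h1, h2⟩ a
    rcases a with u | k
    · rw [Fintype.sum_sum_type]
      exact h1 u
    · rw [Fintype.sum_sum_type, ← h2 k]
      refine congrArg₂ _ (sum_congr rfl fun u _ => ?_) rfl
      show w (Sum.inr k) (Sum.inl u) * _ = w (Sum.inl u) (Sum.inr k) * _
      rw [hw (Sum.inl u)]
      rfl

theorem lapC_nA {Y J : Type} [Fintype Y] [Fintype J] [Nonempty J] {w : Y ⊕ J → Y ⊕ J → ZMod 3}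
    (hw : ∀ a b, w a b = w b a) :
    LapC w ↔ nA (fun u v => w (Sum.inl u) (Sum.inl v)) (fun u l => w (Sum.inl u) (Sum.inr l))
        (fun k l => w (Sum.inr k) (Sum.inr l)) = 3 ^ (0 + 1) := by
  rw [lapC_iff_card, card_blk hw]

/-! ### One additional vertex -/

/-- the weights -/
def wC {V : Type} (c : V → V → ZMod 3) (γ : V → ZMod 3) (a b : Option V) : ZMod 3 :=
  a.elim (b.elim 0 γ) fun j => b.elim (γ j) fun i => c j i

theorem wC_symm {V : Type} {c : V → V → ZMod 3} (hc : ∀ a b, c a b = c b a) (γ : V → ZMod 3)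
    (a b : Option V) : wC c γ a b = wC c γ b a := by
  rcases a with _ | a <;> rcases b with _ | b
  · rfl
  · rfl
  · rfl
  · exact hc a b

section
variable {V : Type} [Fintype V] {c : V → V → ZMod 3}

theorem per_iff (hc : ∀ a b, c a b = c b a) (γ : V → ZMod 3) :
    (∀ v : V → ZMod 3, (∀ j, ∑ i, c j i * (v i - v j) = γ j * v j) → ∀ j, v j = 0) ↔
      LapC (wC c γ) := by
  constructor
  · intro h x hx
    have h1 := h (fun j => x (some j) - x none) (by
      intro j
      have h2 := hx (some j)
      rw [Fintype.sum_option] at h2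
      have h3 : γ j * (x none - x (some j)) + ∑ i, c j i * (x (some i) - x (some j)) = 0 := h2
      have h4 : ∑ i, c j i * (x (some i) - x none - (x (some j) - x none)) =
          ∑ i, c j i * (x (some i) - x (some j)) :=
        Finset.sum_congr rfl fun i _ => by ring
      rw [h4]
      linear_combination h3)
    have h5 : ∀ a, x a = x none := by
      intro a
      rcases a with _ | j
      · rfl
      · exact sub_eq_zero.1 (h1 j)
    intro a b
    rw [h5 a, h5 b]
  · intro h v hv j
    have h1 := h (fun a => a.elim 0 v) (by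
      refine lap_of_ne (wC_symm hc γ) none fun a ha => ?_
      rcases a with _ | j
      · exact absurd rfl ha
      · rw [Fintype.sum_option]
        show γ j * (0 - v j) + ∑ i, c j i * (v i - v j) = 0
        rw [hv j]
        ring) (some j) none
    exact h1

/-! ### Two additional vertices -/

/-- the weights -/
def wD {V : Type} (c : V → V → ZMod 3) (γ δ : V → ZMod 3) (m : ZMod 3)
    (a b : Option (Option V)) : ZMod 3 :=
  a.elim (b.elim 0 fun b => b.elim m γ) fun a => a.elim (b.elim m fun b => b.elim 0 δ)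
    fun j => b.elim (γ j) fun b => b.elim (δ j) fun i => c j i

omit [Fintype V] in
theorem wD_symm (hc : ∀ a b, c a b = c b a) (γ δ : V → ZMod 3) (m : ZMod 3)
    (a b : Option (Option V)) : wD c γ δ m a b = wD c γ δ m b a := by
  rcases a with _ | _ | a <;> rcases b with _ | _ | b
  · rfl
  · rfl
  · rfl
  · rfl
  · rfl
  · rfl
  · rfl
  · rfl
  · exact hc a b

theorem bord_iff (hc : ∀ a b, c a b = c b a) (g β : V → ZMod 3) (κ : ZMod 3) :
    (∀ (v : V → ZMod 3) (s : ZMod 3), (∀ j, ∑ i, c j i * (v i - v j) = g j * v j - β j * s) →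
      κ * s = ∑ i, β i * v i → (∀ j, v j = 0) ∧ s = 0) ↔
      LapC (wD c (fun j => g j - β j) β (κ - ∑ j, β j)) := by
  constructor
  · intro h x hx
    have h1 := h (fun j => x (some (some j)) - x none) (x (some none) - x none) (by
      intro j
      have h2 := hx (some (some j))
      rw [Fintype.sum_option, Fintype.sum_option] at h2
      have h3 : (g j - β j) * (x none - x (some (some j))) +
          (β j * (x (some none) - x (some (some j))) +
            ∑ i, c j i * (x (some (some i)) - x (some (some j)))) = 0 := h2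
      have h4 : ∑ i, c j i * (x (some (some i)) - x none - (x (some (some j)) - x none)) =
          ∑ i, c j i * (x (some (some i)) - x (some (some j))) :=
        Finset.sum_congr rfl fun i _ => by ring
      rw [h4]
      linear_combination h3) (by
      have h2 := hx (some none)
      rw [Fintype.sum_option, Fintype.sum_option] at h2
      have h3 : (κ - ∑ j, β j) * (x none - x (some none)) +
          (0 * (x (some none) - x (some none)) +
            ∑ i, β i * (x (some (some i)) - x (some none))) = 0 := h2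
      have h4 : ∑ i, β i * (x (some (some i)) - x (some none)) =
          ∑ i, β i * (x (some (some i)) - x none) -
            (∑ j, β j) * (x (some none) - x none) := by
        rw [Finset.sum_mul, ← Finset.sum_sub_distrib]
        exact Finset.sum_congr rfl fun i _ => by ring
      rw [h4] at h3
      linear_combination -h3)
    obtain ⟨h1, h0⟩ := h1
    have h5 : ∀ a, x a = x none := by
      intro a
      rcases a with _ | _ | j
      · rfl
      · exact sub_eq_zero.1 h0
      · exact sub_eq_zero.1 (h1 j)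
    intro a b
    rw [h5 a, h5 b]
  · intro h v s hv hs
    have h1 := h (fun a => a.elim 0 fun a => a.elim s v) (by
      refine lap_of_ne (wD_symm hc _ _ _) none fun a ha => ?_
      rcases a with _ | _ | j
      · exact absurd rfl ha
      · rw [Fintype.sum_option, Fintype.sum_option]
        show (κ - ∑ j, β j) * (0 - s) + (0 * (s - s) + ∑ i, β i * (v i - s)) = 0
        have h4 : ∑ i, β i * (v i - s) = ∑ i, β i * v i - (∑ j, β j) * s := by
          rw [Finset.sum_mul, ← Finset.sum_sub_distrib]
          exact Finset.sum_congr rfl fun i _ => by ring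
        rw [h4, ← hs]
        ring
      · rw [Fintype.sum_option, Fintype.sum_option]
        show (g j - β j) * (0 - v j) + (β j * (s - v j) + ∑ i, c j i * (v i - v j)) = 0
        rw [hv j]
        ring)
    exact ⟨fun j => h1 (some (some j)) none, h1 (some none) none⟩

/-- the system with the bordered matrix with vanishing sum -/
theorem sysC_iff (β : V → ZMod 3) (κ : ZMod 3) (z₀ : V)
    (hβ : ∑ π, β π = 0) :
    (∀ (v : V → ZMod 3) (s : ZMod 3), (∀ j, ∑ i, c j i * (v i - v j) = s * β j) →
      ∑ i, β i * v i = -(s * κ) → s = 0 ∧ ∀ i j, v i = v j) ↔ LapC (ww c β κ z₀) := by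
  constructor
  · intro h x hx
    obtain ⟨q, rfl⟩ := (chg z₀).surjective x
    obtain ⟨v, s⟩ := q
    obtain ⟨h1, h2⟩ := (sys_iff c β κ z₀ hβ (v, s)).2 hx
    obtain ⟨h3, h4⟩ := h v s h1 h2
    have h5 : ∀ a, chg z₀ (v, s) a = v z₀ := by
      intro a
      rcases a with _ | j
      · show s + v z₀ = v z₀
        rw [h3, zero_add]
      · exact h4 j z₀
    intro a b
    rw [h5 a, h5 b]
  · intro h v s h1 h2
    have h3 := h (chg z₀ (v, s)) ((sys_iff c β κ z₀ hβ (v, s)).1 ⟨h1, h2⟩)
    refine ⟨?_, fun i j => h3 (some i) (some j)⟩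
    have h4 : s + v z₀ = v z₀ := h3 none (some z₀)
    exact left_eq_add.1 (by rw [add_comm]; exact h4.symm)

end

/-! ### The five systems -/

section
variable {J : Type} [Fintype J] (π : J → Ei) (e : J → ZMod 3)

/-- the symmetric weights -/
noncomputable def cW (j i : J) : ZMod 3 := e j * e i * cs (π j) (π i)

variable {π e}

theorem mul_cW (he : ∀ j, e j ≠ 0) (v : J → ZMod 3) (j : J) (r : ZMod 3) :
    ∑ i, e i * cs (π j) (π i) * (v i - v j) = r ↔
      ∑ i, cW π e j i * (v i - v j) = e j * r := by
  have h1 : ∑ i, cW π e j i * (v i - v j) = e j * ∑ i, e i * cs (π j) (π i) * (v i - v j) := by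
    rw [Finset.mul_sum]
    refine Finset.sum_congr rfl fun i _ => ?_
    unfold cW
    ring
  rw [h1]
  have h2 : e j ≠ 0 := he j
  constructor
  · intro h
    rw [h]
  · intro h
    exact mul_left_cancel₀ h2 h

theorem ker_iff (he : ∀ j, e j ≠ 0) : Ker π e ↔ LapC (cW π e) := by
  unfold Ker LapC Lap
  refine forall_congr' fun v => imp_congr (forall_congr' fun j => ?_) Iff.rfl
  rw [mul_cW he, mul_zero]

theorem ker2_iff (he : ∀ j, e j ≠ 0) (hc : ∀ a b, cW π e a b = cW π e b a) (κ : ZMod 3) :
    Pool.Agent.Helper68.C2.KerW π e κ ↔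
      LapC (wC (cW π e) fun j => -κ * (e j * rq (π j))) := by
  rw [← per_iff hc]
  unfold Pool.Agent.Helper68.C2.KerW
  refine forall_congr' fun v => imp_congr (forall_congr' fun j => ?_) Iff.rfl
  rw [mul_cW he]
  refine Eq.congr rfl ?_
  ring

theorem ker5_iff (he : ∀ j, e j ≠ 0) (hc : ∀ a b, cW π e a b = cW π e b a) (κ : ZMod 3) :
    Pool.Agent.Helper68.C5.KerW π e κ ↔
      LapC (wC (cW π e) fun j => e j * ts κ (π j)) := by
  rw [← per_iff hc]
  unfold Pool.Agent.Helper68.C5.KerW
  refine forall_congr' fun v => imp_congr (forall_congr' fun j => ?_) Iff.rfl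
  rw [mul_cW he]
  refine Eq.congr rfl ?_
  ring

theorem ker6_iff (he : ∀ j, e j ≠ 0) (hc : ∀ a b, cW π e a b = cW π e b a) (κ : ZMod 3) :
    Ker6 π e κ ↔
      LapC (wD (cW π e) (fun j => -(e j * ts (-κ) (π j)) - e j * rq (π j))
        (fun j => e j * rq (π j)) (κ - ∑ j, e j * rq (π j))) := by
  rw [← bord_iff hc (fun j => -(e j * ts (-κ) (π j))) (fun j => e j * rq (π j)) κ]
  unfold Ker6
  refine forall_congr' fun v => forall_congr' fun s =>
    imp_congr (forall_congr' fun j => ?_) Iff.rfl
  rw [mul_cW he]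
  refine Eq.congr rfl ?_
  ring

theorem ker7_iff (he : ∀ j, e j ≠ 0) (z₀ : J)
    (hs : ∑ j, e j * rq (π j) = 0) :
    Ker7 π e ↔ LapC (ww (cW π e) (fun j => e j * rq (π j)) (-∑ j, e j * ts 0 (π j)) z₀) := by
  rw [← sysC_iff _ _ z₀ hs]
  unfold Ker7
  refine forall_congr' fun v => forall_congr' fun s =>
    imp_congr (forall_congr' fun j => ?_) (imp_congr ?_ Iff.rfl)
  · rw [mul_cW he]
    refine Eq.congr rfl ?_
    ring
  · rw [mul_neg, neg_neg]

end

end Pool.Agent.Helper68.C8.CF
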