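import Pool.Agent.Helper68.C7.D7b

/-!
# The count in a box for a general block system

Part 2 of the module CF (adapted from `Pool.Agent.Helper68.C7.D7b`).
-/

set_option autoImplicit false

open scoped Classical

namespace Pool.Agent.Helper68.C8.CF

open Finset
open Pool.Agent.Y692.QS (Ei)
open Pool.Agent.Y715.T.Rec (cs)
open Pool.Agent.Y715.T.RecG (Pq)
open Pool.Agent.Y703.XK (HB prs S_EQ)
open Pool.Agent.Y703.XL (nA cr S_LA)
open Pool.Agent.Y688.XK (cs_symm HB_sub)
open Pool.Agent.Helper68.C6.SV (BoxN)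
open Pool.Agent.Helper68.C7.D7 (lb nA_congr)

/-- the data of a block system for a family of labels -/
def Dat (ι : Type) [Fintype ι] [LinearOrder ι] (S₀ : Finset Ei) (P : Finset Ei → Prop) (r : ℕ)
    (b : ι → Option (Option S₀) → ZMod 3) : Prop :=
  ∃ (Y : Type) (_ : Fintype Y) (A : Y → Y → ZMod 3) (B : Y → ι → ZMod 3) (sh : ι → ι → ZMod 3),
    Fintype.card Y ≤ S₀.card + 2 ∧ (∀ u v, A u v = A v u) ∧
    (∀ w : Y → ZMod 3, (∃ u, w u ≠ 0) → ∃ k, ∑ u, w u * B u k ≠ 0) ∧
    (∀ k l, sh k l = sh l k) ∧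
    ∀ p : ι → Ei, Function.Injective p → (∀ i, Pq (p i)) → (∀ i, p i ∉ S₀) →
      (fun i => lb S₀ (p i)) = b →
        (P (S₀ ∪ univ.image p) ↔ nA A B (fun k l => cs (p k) (p l) + sh k l) = 3 ^ (r + 1))

/-- the data for a box -/
def DatB (W : Finset Ei → Finset Ei → Prop) (P : Finset Ei → Prop) (r : ℕ) : Prop :=
  ∀ (ι : Type) [Fintype ι] [LinearOrder ι] (S₀ : Finset Ei), (∀ u ∈ S₀, Pq u) →
    S₀.card + 2 < Fintype.card ι →
    ∃ LL : Finset (ι → Option (Option S₀) → ZMod 3),
      (∀ p : ι → Ei, Function.Injective p → (∀ i, Pq (p i)) → (∀ i, p i ∉ S₀) →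
        (W S₀ (univ.image p) ↔ (fun i => lb S₀ (p i)) ∈ LL)) ∧
      ∀ b ∈ LL, Dat ι S₀ P r b

theorem ext_sh {ι : Type} [Fintype ι] [LinearOrder ι] {p : ι → Ei} {sh : ι → ι → ZMod 3}
    (hpr : ∀ i, Pq (p i)) (hsh : ∀ k l, sh k l = sh l k) (k l : ι) (hkl : k ≠ l) :
    cs (p k) (p l) + sh k l =
      Pool.Agent.Y703.XK.ext (fun e : prs ι => cs (p e.1.1) (p e.1.2) + sh e.1.1 e.1.2) k l := by
  unfold Pool.Agent.Y703.XK.ext
  by_cases h : (k, l) ∈ prs ι
  · rw [dif_pos h]
  · rw [dif_neg h]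
    have h' : (l, k) ∈ prs ι := by
      unfold prs at h ⊢
      rw [mem_filter] at h ⊢
      simp only [mem_univ, true_and, not_lt] at h ⊢
      exact lt_of_le_of_ne h (Ne.symm hkl)
    rw [dif_pos h']
    show _ = cs (p l) (p k) + sh l k
    rw [cs_symm (hpr l) (hpr k), hsh l k]

/-- **The count in a box.** -/
theorem t_GBOX (hEQ : S_EQ) (hLA : S_LA) (r : ℕ) {W : Finset Ei → Finset Ei → Prop}
    {P : Finset Ei → Prop} (hD : DatB W P r) : BoxN W P (cr r) (3 ^ (r + 1)) := by
  intro ι _ _ C X κ S₀ hκ hCX hHB hS₀ hC hdis hcard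
  have hcOO : Fintype.card (Option (Option S₀)) = S₀.card + 2 := by
    rw [Fintype.card_option, Fintype.card_option, Fintype.card_coe]
  obtain ⟨LL, hW', hLD⟩ := hD ι S₀ hS₀ hcard
  obtain ⟨cc, hcc⟩ : ∃ cc : ℝ, cc = 3 ^ (r + 1) * (3 ^ (S₀.card + 2) / 3 ^ Fintype.card ι) :=
    ⟨_, rfl⟩
  obtain ⟨R, hR⟩ : ∃ R : ℝ, R = 3 ^ (prs ι).card * (κ * ∏ j, (X j : ℝ)) := ⟨_, rfl⟩
  have hcc0 : 0 ≤ cc := by rw [hcc]; positivity
  have hR0 : 0 ≤ R := by
    rw [hR]
    exact mul_nonneg (by positivity)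
      (mul_nonneg hκ (Finset.prod_nonneg fun j _ => by positivity))
  -- facts on tuples
  have hinj : ∀ p ∈ Fintype.piFinset C, Function.Injective p := by
    intro p hp i j hij
    rw [Fintype.mem_piFinset] at hp
    by_contra hne
    have h1 := Finset.disjoint_left.1 (hdis i j hne) (hp i)
    rw [hij] at h1
    exact h1 (hp j)
  have hd : ∀ p ∈ Fintype.piFinset C, ∀ i, p i ∉ S₀ := by
    intro p hp i
    rw [Fintype.mem_piFinset] at hp
    exact (hC i _ (hp i)).2
  have hpr : ∀ p ∈ Fintype.piFinset C, ∀ i, Pq (p i) := by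
    intro p hp i
    rw [Fintype.mem_piFinset] at hp
    exact (hC i _ (hp i)).1
  -- the part with given labels
  have h1 : ∀ b ∈ LL,
      |(((Fintype.piFinset C).filter fun p => (fun i => lb S₀ (p i)) = b ∧
          P (S₀ ∪ univ.image p)).card : ℝ) -
        cr r * (((Fintype.piFinset C).filter fun p =>
          (fun i => lb S₀ (p i)) = b).card : ℝ)| ≤
      cc * (((Fintype.piFinset C).filter fun p =>
        (fun i => lb S₀ (p i)) = b).card : ℝ) + R := by
    intro b hb
    obtain ⟨Y, hY, A, B, sh, hYc, hA, hB, hsh, hP⟩ := hLD b hb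
    obtain ⟨C', hC'⟩ : ∃ C' : ι → Finset Ei,
      C' = fun i => (C i).filter fun q => lb S₀ q = b i := ⟨_, rfl⟩
    have hpi : (Fintype.piFinset C).filter (fun p => (fun i => lb S₀ (p i)) = b) =
        Fintype.piFinset C' := by
      ext p
      simp only [Finset.mem_filter, Fintype.mem_piFinset, hC']
      constructor
      · rintro ⟨h2, h3⟩ i
        exact ⟨h2 i, congrFun h3 i⟩
      · intro h2
        exact ⟨fun i => (h2 i).1, funext fun i => (h2 i).2⟩
    have h2 := hLA r Y ι A B (by omega) hA hB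
    obtain ⟨Q, hQ⟩ : ∃ Q : (prs ι → ZMod 3) → Prop, Q = fun α =>
        nA A B (Pool.Agent.Y703.XK.ext (fun e => α e + sh e.1.1 e.1.2)) = 3 ^ (r + 1) := ⟨_, rfl⟩
    have h3 := hEQ ι C' X κ hκ
      (fun i => (Finset.card_le_card (by rw [hC']; exact Finset.filter_subset _ _)).trans (hCX i))
      (by rw [hC']; exact HB_sub hHB fun i q => lb S₀ q = b i) Q
    have h4 : ((Fintype.piFinset C).filter fun p => (fun i => lb S₀ (p i)) = b ∧
        P (S₀ ∪ univ.image p)) = ((Fintype.piFinset C').filter fun p =>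
          Q fun e => cs (p e.1.1) (p e.1.2)) := by
      rw [← hpi, Finset.filter_filter]
      refine Finset.filter_congr fun p hp => ?_
      refine and_congr_right fun hl => ?_
      rw [hP p (hinj p hp) (hpr p hp) (hd p hp) hl, hQ]
      have e : nA A B (fun k l => cs (p k) (p l) + sh k l) =
          nA A B (Pool.Agent.Y703.XK.ext fun e : prs ι =>
            cs (p e.1.1) (p e.1.2) + sh e.1.1 e.1.2) :=
        nA_congr (ext_sh (hpr p hp) hsh)
      rw [e]
    have h5 : (((Fintype.piFinset C').card : ℕ) : ℝ) = ∏ j, ((C' j).card : ℝ) := by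
      rw [Fintype.card_piFinset]
      push_cast
      rfl
    rw [h4, hpi, h5]
    rw [← hR] at h3
    obtain ⟨n, hn⟩ : ∃ n : ℝ, n = (((Fintype.piFinset C').filter fun p =>
          Q fun e => cs (p e.1.1) (p e.1.2)).card : ℝ) := ⟨_, rfl⟩
    obtain ⟨q, hq⟩ : ∃ q : ℝ, q = ((univ.filter Q).card : ℝ) / 3 ^ (prs ι).card := ⟨_, rfl⟩
    obtain ⟨M, hM⟩ : ∃ M : ℝ, M = ∏ j, ((C' j).card : ℝ) := ⟨_, rfl⟩
    have hM0 : 0 ≤ M := by
      rw [hM]
      exact Finset.prod_nonneg fun j _ => by positivity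
    have h2' : |q - cr r| ≤ cc := by
      have e : (univ.filter Q).card = (univ.filter fun α : prs ι → ZMod 3 =>
          nA A B (Pool.Agent.Y703.XK.ext α) = 3 ^ (r + 1)).card := by
        refine Finset.card_bij (fun α _ e => α e + sh e.1.1 e.1.2) ?_ ?_ ?_
        · intro α hα
          rw [Finset.mem_filter] at hα ⊢
          rw [hQ] at hα
          exact ⟨mem_univ _, hα.2⟩
        · intro α _ α' _ h
          funext e
          exact add_right_cancel (congrFun h e)
        · intro α hα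
          refine ⟨fun e => α e - sh e.1.1 e.1.2, ?_, ?_⟩
          · rw [Finset.mem_filter] at hα ⊢
            rw [hQ]
            refine ⟨mem_univ _, ?_⟩
            simp only [sub_add_cancel]
            exact hα.2
          · funext e
            exact sub_add_cancel _ _
      rw [hq, e]
      refine h2.trans ?_
      rw [hcc]
      have h6 : (3 : ℝ) ^ Fintype.card Y ≤ 3 ^ (S₀.card + 2) :=
        pow_le_pow_right₀ (by norm_num) hYc
      gcongr
    rw [← hn, ← hq, ← hM] at h3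
    rw [← hn, ← hM]
    have h6 : |n - cr r * M| ≤ |n - q * M| + |q - cr r| * M := by
      have h7 : n - cr r * M = (n - q * M) + (q - cr r) * M := by ring
      have h8 : |(q - cr r) * M| = |q - cr r| * M := by rw [abs_mul, abs_of_nonneg hM0]
      rw [h7, ← h8]
      exact abs_add_le _ _
    have h7 : |q - cr r| * M ≤ cc * M := mul_le_mul_of_nonneg_right h2' hM0
    linarith
  -- sum over the labels
  have hW : ∀ p ∈ Fintype.piFinset C, (W S₀ (univ.image p) ↔ (fun i => lb S₀ (p i)) ∈ LL) :=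
    fun p hp => hW' p (hinj p hp) (hpr p hp) (hd p hp)
  have hfib : ∀ T : (ι → Ei) → Prop,
      (((Fintype.piFinset C).filter fun p => W S₀ (univ.image p) ∧ T p).card : ℝ) =
      ∑ b ∈ LL, (((Fintype.piFinset C).filter fun p =>
        (fun i => lb S₀ (p i)) = b ∧ T p).card : ℝ) := by
    intro T
    rw [Finset.card_eq_sum_card_fiberwise (f := fun (p : ι → Ei) (i : ι) => lb S₀ (p i))
      (t := LL) (by
        intro p hp
        rw [Finset.mem_coe, Finset.mem_filter] at hp
        rw [Finset.mem_coe]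
        exact (hW p hp.1).1 hp.2.1)]
    push_cast
    refine Finset.sum_congr rfl fun b hb => ?_
    congr 2
    ext p
    simp only [Finset.mem_filter]
    constructor
    · rintro ⟨⟨h3, h4, h4'⟩, h5⟩
      exact ⟨h3, h5, h4'⟩
    · rintro ⟨h3, h4, h5⟩
      refine ⟨⟨h3, ?_, h5⟩, h4⟩
      rw [hW p h3, h4]
      exact hb
  have hf1 := hfib fun p => P (S₀ ∪ univ.image p)
  have hf2 : (((Fintype.piFinset C).filter fun p => W S₀ (univ.image p)).card : ℝ) =
      ∑ b ∈ LL, (((Fintype.piFinset C).filter fun p => (fun i => lb S₀ (p i)) = b).card : ℝ) := by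
    have h2 := hfib fun _ => True
    simpa only [and_true] using h2
  rw [← hcc, hf1, hf2, Finset.mul_sum, ← Finset.sum_sub_distrib]
  refine (Finset.abs_sum_le_sum_abs _ _).trans ?_
  refine le_trans (le_of_eq (Finset.sum_congr rfl fun b _ => ?_))
    ((Finset.sum_le_sum h1).trans ?_)
  · congr!
  rw [Finset.sum_add_distrib, ← Finset.mul_sum, Finset.sum_const, nsmul_eq_mul]
  have h5 : ((LL.card : ℕ) : ℝ) ≤ 3 ^ ((S₀.card + 2) * Fintype.card ι) := by
    have h6 : LL.card ≤ Fintype.card (ι → Option (Option S₀) → ZMod 3) :=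
      Finset.card_le_univ _
    rw [Fintype.card_fun, Fintype.card_fun, ZMod.card, hcOO, ← pow_mul] at h6
    exact_mod_cast h6
  have h6 := mul_le_mul_of_nonneg_right h5 hR0
  rw [pow_add, mul_assoc, ← hR]
  linarith

end Pool.Agent.Helper68.C8.CF
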