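import Pool.Agent.Helper68.C8.StFin
import Pool.Agent.Helper68.C3.St3

/-!
# The proportion among all cube-free `D`: statements
-/

set_option autoImplicit false
set_option linter.unusedVariables false

open scoped Classical

namespace Pool.Agent.Helper68.C8

open NumberField
open Pool.Agent.Y692.QS (Ei w)
open Pool.Agent.Y703.CT (Dt pD rq Ker)
open Pool.Agent.Y715.T.RecG (Pq)
open Pool.Agent.Y703.XL (cr)
open Pool.Agent.Helper68.C3 (SS Part3)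
open Pool.Agent.Helper68.C7 (Ker7)

/-- the exponents: two on `T`, one on the rest -/
def eT (T : Finset Ei) {S : Finset Ei} (ρ : {ρ // ρ ∈ S}) : ZMod 3 := if (ρ : Ei) ∈ T then 2 else 1

/-- the criterion for `√-3 ^ a ω ^ κ ∏_S π ∏_T π²`, as a property of `U = S ∪ T` and `T` -/
def GoodU (a : ℕ) (κ : ZMod 3) (T U : Finset Ei) : Prop :=
  if a = 0 ∧ κ = 0 then
    (if ∑ ρ : {ρ // ρ ∈ U}, eT T ρ * rq (ρ : Ei) = 0 then
      Ker7 (fun ρ : {ρ // ρ ∈ U} => (ρ : Ei)) (eT T)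
    else Ker (fun ρ : {ρ // ρ ∈ U} => (ρ : Ei)) (eT T))
  else if a = 0 then Pool.Agent.Helper68.C2.KerW (fun ρ : {ρ // ρ ∈ U} => (ρ : Ei)) (eT T) κ
  else if a = 1 then Pool.Agent.Helper68.C6.Ker6 (fun ρ : {ρ // ρ ∈ U} => (ρ : Ei)) (eT T) κ
  else Pool.Agent.Helper68.C5.KerW (fun ρ : {ρ // ρ ∈ U} => (ρ : Ei)) (eT T) κ

/-- **CF**: for fixed `T` the law for the sets `S` disjoint from `T`. -/
def S_CF : Prop := ∀ T : Finset Ei, (∀ ρ ∈ T, Pq ρ) → ∀ (a : ℕ) (κ : ZMod 3),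
  Filter.Tendsto (fun X : ℕ =>
    (((SS X).filter fun S => Disjoint S T ∧ GoodU a κ T (S ∪ T)).card : ℝ) /
      (((SS X).filter fun S => Disjoint S T).card : ℝ)) Filter.atTop (nhds (cr 0))

/-- **ALLCF**: the exact proportion of all cubic twists. -/
def S_ALLCF : Prop := ∀ (K : Type) [Field K] [NumberField K] [IsCyclotomicExtension {3} ℚ K],
  Filter.Tendsto (fun X : ℕ =>
    ({D : 𝓞 K | Algebra.norm ℤ D ≤ X ∧ (∀ x : 𝓞 K, x ^ 3 ∣ D → IsUnit x) ∧ Part3 D}.ncard : ℝ) /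
      ({D : 𝓞 K | Algebra.norm ℤ D ≤ X ∧ ∀ x : 𝓞 K, x ^ 3 ∣ D → IsUnit x}.ncard : ℝ)) Filter.atTop
    (nhds (∏' i : ℕ, (1 - (1 / 3 : ℝ) ^ (2 * i + 1)))) ∧
  (0.639 : ℝ) < ∏' i : ℕ, (1 - (1 / 3 : ℝ) ^ (2 * i + 1)) ∧
  ∏' i : ℕ, (1 - (1 / 3 : ℝ) ^ (2 * i + 1)) < 0.6391

end Pool.Agent.Helper68.C8
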