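import Pool.Agent.Helper68.C8.CFa
import Pool.Agent.Helper68.C8.CFb
import Pool.Agent.Helper68.C8.StCF

/-!
# The data of the five block systems

Part 3 of the module CF.
-/

set_option autoImplicit false
set_option linter.unusedSectionVars false

open scoped Classical

namespace Pool.Agent.Helper68.C8.CF

open Finset
open Pool.Agent.Y692.QS (Ei)
open Pool.Agent.Y715.T.Rec (cs)
open Pool.Agent.Y715.T.RecG (Pq)
open Pool.Agent.Y703.CT (rq Ker ex_q)
open Pool.Agent.Y703.XK (HB prs S_EQ)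
open Pool.Agent.Y703.XL (nA cr S_LA)
open Pool.Agent.Y688.XK (cs_symm HB_sub)
open Pool.Agent.Y170.XL (em em_bij sum_em)
open Pool.Agent.Helper68.C5.Chr5 (ts ts_prim lt)
open Pool.Agent.Helper68.C6.SV (BoxN Nd2 LN)
open Pool.Agent.Helper68.C6 (Ker6)
open Pool.Agent.Helper68.C7 (Ker7)
open Pool.Agent.Helper68.C7.D7 (lb nA_congr Lap ww ww_symm dl dl_pos dl_neg Ch exists_ch)
open Pool.Agent.Helper68.C8 (eT GoodU)

/-! ### From weights on `Y ⊕ ι` to the data -/

theorem dat_of {ι : Type} [Fintype ι] [LinearOrder ι] [Nonempty ι] {S₀ : Finset Ei}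
    {P : Finset Ei → Prop} {b : ι → Option (Option S₀) → ZMod 3} {Y : Type} [Fintype Y]
    (hY : Fintype.card Y ≤ S₀.card + 2)
    (wt : (ι → ι → ZMod 3) → Y ⊕ ι → Y ⊕ ι → ZMod 3) (sh : ι → ι → ZMod 3)
    (hsh : ∀ k l, sh k l = sh l k)
    (hsym : ∀ R : ι → ι → ZMod 3, (∀ k l, R k l = R l k) → ∀ a a', wt R a a' = wt R a' a)
    (h1 : ∀ R u v, wt R (Sum.inl u) (Sum.inl v) = wt (fun _ _ => 0) (Sum.inl u) (Sum.inl v))
    (h2 : ∀ R u l, wt R (Sum.inl u) (Sum.inr l) = wt (fun _ _ => 0) (Sum.inl u) (Sum.inr l))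
    (h3 : ∀ R k l, wt R (Sum.inr k) (Sum.inr l) = R k l + sh k l)
    (hB : ∀ w : Y → ZMod 3, (∃ u, w u ≠ 0) →
      ∃ k, ∑ u, w u * wt (fun _ _ => 0) (Sum.inl u) (Sum.inr k) ≠ 0)
    (hP : ∀ p : ι → Ei, Function.Injective p → (∀ i, Pq (p i)) → (∀ i, p i ∉ S₀) →
      (fun i => lb S₀ (p i)) = b →
      (P (S₀ ∪ univ.image p) ↔ LapC (wt fun k l => cs (p k) (p l)))) : Dat ι S₀ P 0 b := by
  refine ⟨Y, inferInstance, fun u v => wt (fun _ _ => 0) (Sum.inl u) (Sum.inl v),
    fun u l => wt (fun _ _ => 0) (Sum.inl u) (Sum.inr l), sh, hY,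
    fun u v => hsym _ (fun _ _ => rfl) _ _, hB, hsh, fun p hi hp hd hl => ?_⟩
  rw [hP p hi hp hd hl, lapC_nA (hsym _ fun k l => cs_symm (hp k) (hp l))]
  have e1 : (fun u v : Y => wt (fun k l => cs (p k) (p l)) (Sum.inl u) (Sum.inl v)) =
      fun u v => wt (fun _ _ => 0) (Sum.inl u) (Sum.inl v) := by
    funext u v
    exact h1 _ u v
  have e2 : (fun (u : Y) (l : ι) => wt (fun k l => cs (p k) (p l)) (Sum.inl u) (Sum.inr l)) =
      fun u l => wt (fun _ _ => 0) (Sum.inl u) (Sum.inr l) := by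
    funext u l
    exact h2 _ u l
  have e3 : (fun k l : ι => wt (fun k l => cs (p k) (p l)) (Sum.inr k) (Sum.inr l)) =
      fun k l => cs (p k) (p l) + sh k l := by
    funext k l
    exact h3 _ k l
  rw [e1, e2, e3]

/-- the additional vertex joins the first block -/
def os {Y ι : Type} : Option Y ⊕ ι ≃ Option (Y ⊕ ι) where
  toFun := Sum.elim (fun o => o.map Sum.inl) (fun l => some (Sum.inr l))
  invFun := fun o => o.elim (Sum.inl none) (Sum.elim (fun y => Sum.inl (some y)) Sum.inr)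
  left_inv a := by
    rcases a with _ | _
    · rename_i o
      rcases o with _ | _ <;> rfl
    · rfl
  right_inv a := by
    rcases a with _ | _ | _ <;> rfl

/-! ### The weights on the primes -/

/-- the weights of the primes -/
noncomputable def ee (T : Finset Ei) (x : Ei) : ZMod 3 := if x ∈ T then 2 else 1

theorem ee_ne (T : Finset Ei) (x : Ei) : ee T x ≠ 0 := by
  unfold ee
  split_ifs <;> decide

theorem ee_out {T : Finset Ei} {x : Ei} (h : x ∉ T) : ee T x = 1 := if_neg h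

section
variable {ι : Type} [Fintype ι] (T S₀ : Finset Ei) (b : ι → Option (Option S₀) → ZMod 3)

/-- the first character -/
noncomputable def bet (z : S₀ ⊕ ι) : ZMod 3 :=
  z.elim (fun u : S₀ => ee T u * rq (u : Ei)) fun l => b l none

/-- the second character -/
noncomputable def tau (z : S₀ ⊕ ι) : ZMod 3 :=
  z.elim (fun u : S₀ => ee T u * ts 0 (u : Ei)) fun l => b l (some none)

/-- the symbols -/
noncomputable def ccT (R : ι → ι → ZMod 3) (z z' : S₀ ⊕ ι) : ZMod 3 :=
  z.elim (fun u : S₀ => z'.elim (fun v : S₀ => ee T u * ee T v * cs (u : Ei) v)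
    fun l => ee T u * b l (some (some u)))
    fun k => z'.elim (fun v : S₀ => ee T v * b k (some (some v))) fun l => R k l

variable {T S₀ b}

omit [Fintype ι] in
theorem ccT_symm (h : ∀ u ∈ S₀, Pq u) {R : ι → ι → ZMod 3} (hR : ∀ k l, R k l = R l k)
    (z z' : S₀ ⊕ ι) : ccT T S₀ b R z z' = ccT T S₀ b R z' z := by
  rcases z with u | k <;> rcases z' with v | l
  · show ee T u * ee T v * cs (u : Ei) v = ee T v * ee T u * cs (v : Ei) u
    rw [cs_symm (h u u.2) (h v v.2)]
    ring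
  · rfl
  · rfl
  · exact hR k l

/-- nonvanishing combinations of the labels -/
theorem LN_get (hL : LN S₀ b) (t s : ZMod 3) (v : S₀ → ZMod 3)
    (h : t ≠ 0 ∨ s ≠ 0 ∨ ∃ u, v u ≠ 0) :
    ∃ i, t * b i none + (s * b i (some none) + ∑ u, v u * b i (some (some u))) ≠ 0 := by
  obtain ⟨i, hi⟩ := hL (fun o => o.elim t fun o => o.elim s v) (by
    rcases h with h | h | ⟨u, hu⟩
    · exact ⟨none, h⟩
    · exact ⟨some none, h⟩
    · exact ⟨some (some u), hu⟩)
  refine ⟨i, ?_⟩
  rw [Fintype.sum_option, Fintype.sum_option] at hi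
  exact hi

end

/-! ### The transport to the boxes -/

section
variable {ι : Type} [Fintype ι] [LinearOrder ι] {T S₀ : Finset Ei} {p : ι → Ei}

/-- the vertices -/
noncomputable def emE (hp : Function.Injective p) (hd : ∀ i, p i ∉ S₀) :
    S₀ ⊕ ι ≃ ↥(S₀ ∪ univ.image p) := Equiv.ofBijective _ (em_bij hp hd)

theorem eT_em (hT : T ⊆ S₀) (hp : Function.Injective p) (hd : ∀ i, p i ∉ S₀) :
    (∀ u : S₀, eT T (emE hp hd (Sum.inl u)) = ee T u) ∧
      ∀ l : ι, eT T (emE hp hd (Sum.inr l)) = 1 :=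
  ⟨fun _ => rfl, fun l => if_neg fun h => hd l (hT h)⟩

theorem eT_ne {U : Finset Ei} (j : {ρ // ρ ∈ U}) : eT T j ≠ 0 := by
  unfold eT
  split_ifs <;> decide

theorem cW_em (hT : T ⊆ S₀) (hp : Function.Injective p) (hpr : ∀ i, Pq (p i))
    (hS₀ : ∀ u ∈ S₀, Pq u) (hd : ∀ i, p i ∉ S₀) (z z' : S₀ ⊕ ι) :
    cW (fun ρ : {ρ // ρ ∈ S₀ ∪ univ.image p} => (ρ : Ei)) (eT T) (emE hp hd z) (emE hp hd z') =
      ccT T S₀ (fun i => lb S₀ (p i)) (fun k l => cs (p k) (p l)) z z' := by
  obtain ⟨h1, h2⟩ := eT_em hT hp hd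
  unfold cW
  rcases z with u | k <;> rcases z' with v | l
  · rw [h1, h1]
    rfl
  · rw [h1, h2, mul_one]
    rfl
  · rw [h1, h2, one_mul]
    show ee T v * cs (p k) v = ee T v * cs v (p k)
    rw [cs_symm (hpr k) (hS₀ v v.2)]
  · rw [h2, h2, one_mul, one_mul]
    rfl

theorem rq_em (hT : T ⊆ S₀) (hp : Function.Injective p) (hd : ∀ i, p i ∉ S₀) (z : S₀ ⊕ ι) :
    eT T (emE hp hd z) * rq (emE hp hd z : Ei) = bet T S₀ (fun i => lb S₀ (p i)) z := by
  obtain ⟨h1, h2⟩ := eT_em hT hp hd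
  rcases z with u | k
  · rw [h1]
    rfl
  · rw [h2, one_mul]
    rfl

theorem ts_em (hT : T ⊆ S₀) (hp : Function.Injective p) (hd : ∀ i, p i ∉ S₀) (z : S₀ ⊕ ι) :
    eT T (emE hp hd z) * ts 0 (emE hp hd z : Ei) = tau T S₀ (fun i => lb S₀ (p i)) z := by
  obtain ⟨h1, h2⟩ := eT_em hT hp hd
  rcases z with u | k
  · rw [h1]
    rfl
  · rw [h2, one_mul]
    rfl

theorem ts_eq (κ : ZMod 3) {x : Ei} (h : (3 : Ei) ∣ x - 1) : ts κ x = ts 0 x - κ * rq x := by
  obtain ⟨x', y, e, hr⟩ := ex_q h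
  have h1 := ts_prim κ ⟨x', y⟩
  have h2 := ts_prim 0 ⟨x', y⟩
  rw [← e] at h1 h2
  rw [h1, h2, hr]
  unfold lt
  push_cast
  ring

theorem sum_rq (hT : T ⊆ S₀) (hp : Function.Injective p) (hd : ∀ i, p i ∉ S₀) :
    ∑ ρ : {ρ // ρ ∈ S₀ ∪ univ.image p}, eT T ρ * rq (ρ : Ei) =
      ∑ z, bet T S₀ (fun i => lb S₀ (p i)) z := by
  rw [← (emE hp hd).sum_comp]
  exact Finset.sum_congr rfl fun z _ => rq_em hT hp hd z

theorem sum_ts (hT : T ⊆ S₀) (hp : Function.Injective p) (hd : ∀ i, p i ∉ S₀) :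
    ∑ ρ : {ρ // ρ ∈ S₀ ∪ univ.image p}, eT T ρ * ts 0 (ρ : Ei) =
      ∑ z, tau T S₀ (fun i => lb S₀ (p i)) z := by
  rw [← (emE hp hd).sum_comp]
  exact Finset.sum_congr rfl fun z _ => ts_em hT hp hd z

end

theorem cW_symm {T U : Finset Ei} (h : ∀ u ∈ U, Pq u) (a b : {ρ // ρ ∈ U}) :
    cW (fun ρ : {ρ // ρ ∈ U} => (ρ : Ei)) (eT T) a b =
      cW (fun ρ : {ρ // ρ ∈ U} => (ρ : Ei)) (eT T) b a := by
  unfold cW
  rw [cs_symm (h a a.2) (h b b.2)]
  ring

/-! ### The five systems -/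

section
variable {ι : Type} [Fintype ι] [LinearOrder ι] [Nonempty ι] {T S₀ : Finset Ei}
  {b : ι → Option (Option S₀) → ZMod 3}

theorem pq_un {p : ι → Ei} (hpr : ∀ i, Pq (p i)) (hS₀ : ∀ u ∈ S₀, Pq u) :
    ∀ u ∈ S₀ ∪ univ.image p, Pq u := by
  intro u hu
  rw [mem_union, mem_image] at hu
  rcases hu with hu | ⟨i, -, rfl⟩
  · exact hS₀ u hu
  · exact hpr i

/-- no additional vertex -/
theorem datA (hT : T ⊆ S₀) (hS₀ : ∀ u ∈ S₀, Pq u) (hL : LN S₀ b) :
    Dat ι S₀ (fun U => Ker (fun ρ : {ρ // ρ ∈ U} => (ρ : Ei)) (eT T)) 0 b := by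
  refine dat_of (Y := S₀) (by rw [Fintype.card_coe]; omega) (fun R => ccT T S₀ b R)
    (fun _ _ => 0) (fun _ _ => rfl) (fun R hR => ccT_symm hS₀ hR) (fun _ _ _ => rfl)
    (fun _ _ _ => rfl) (fun R k l => (add_zero _).symm) ?_ ?_
  · intro w hw
    obtain ⟨k, hk⟩ := LN_get hL 0 0 (fun u => w u * ee T u) (by
      right
      right
      obtain ⟨u, hu⟩ := hw
      exact ⟨u, mul_ne_zero hu (ee_ne _ _)⟩)
    refine ⟨k, fun h0 => hk ?_⟩
    rw [zero_mul, zero_mul, zero_add, zero_add, ← h0]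
    refine Finset.sum_congr rfl fun u _ => ?_
    show w u * ee T u * b k (some (some u)) = w u * (ee T u * b k (some (some u)))
    ring
  · intro p hi hp hd hl
    subst hl
    rw [ker_iff (fun j => eT_ne j), lapC_reindex (emE hi hd)]
    have e : (fun z z' : S₀ ⊕ ι => cW (fun ρ : {ρ // ρ ∈ S₀ ∪ univ.image p} => (ρ : Ei)) (eT T)
        (emE hi hd z) (emE hi hd z')) =
        ccT T S₀ (fun i => lb S₀ (p i)) (fun k l => cs (p k) (p l)) := by
      funext z z'
      exact cW_em hT hi hp hS₀ hd z z'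
    rw [e]

/-- one additional vertex -/
theorem datC {P : Finset Ei → Prop} (γ : S₀ ⊕ ι → ZMod 3) (hS₀ : ∀ u ∈ S₀, Pq u) (t s : ZMod 3)
    (hts : t ≠ 0 ∨ s ≠ 0) (hγ : ∀ l, γ (Sum.inr l) = t * b l none + s * b l (some none))
    (hL : LN S₀ b) (hP : ∀ p : ι → Ei, Function.Injective p → (∀ i, Pq (p i)) →
      (∀ i, p i ∉ S₀) → (fun i => lb S₀ (p i)) = b →
      (P (S₀ ∪ univ.image p) ↔ LapC (wC (ccT T S₀ b fun k l => cs (p k) (p l)) γ))) :
    Dat ι S₀ P 0 b := by
  refine dat_of (Y := Option S₀) (by rw [Fintype.card_option, Fintype.card_coe]; omega)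
    (fun R a a' => wC (ccT T S₀ b R) γ (os a) (os a'))
    (fun _ _ => 0) (fun _ _ => rfl) (fun R hR a a' => wC_symm (ccT_symm hS₀ hR) γ _ _) ?_
    ?_ (fun R k l => (add_zero _).symm) ?_ ?_
  · rintro R (_ | u) (_ | v) <;> rfl
  · rintro R (_ | u) l <;> rfl
  · intro w hw
    obtain ⟨k, hk⟩ := LN_get hL (w none * t) (w none * s) (fun u => w (some u) * ee T u) (by
      obtain ⟨u, hu⟩ := hw
      rcases u with _ | u
      · rcases hts with h | h
        · exact Or.inl (mul_ne_zero hu h)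
        · exact Or.inr (Or.inl (mul_ne_zero hu h))
      · exact Or.inr (Or.inr ⟨u, mul_ne_zero hu (ee_ne _ _)⟩))
    refine ⟨k, fun h0 => hk ?_⟩
    rw [Fintype.sum_option] at h0
    have h1 : w none * γ (Sum.inr k) +
        ∑ u : S₀, w (some u) * (ee T u * b k (some (some u))) = 0 := h0
    rw [hγ] at h1
    rw [← h1]
    have h2 : ∑ u : S₀, w (some u) * ee T u * b k (some (some u)) =
        ∑ u : S₀, w (some u) * (ee T u * b k (some (some u))) :=
      Finset.sum_congr rfl fun u _ => by ring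
    rw [h2]
    ring
  · intro p hi hp hd hl
    rw [hP p hi hp hd hl]
    exact lapC_reindex os _

theorem dat2 (hT : T ⊆ S₀) (hS₀ : ∀ u ∈ S₀, Pq u) (hL : LN S₀ b) {κ : ZMod 3} (hκ : κ ≠ 0) :
    Dat ι S₀ (fun U => Pool.Agent.Helper68.C2.KerW (fun ρ : {ρ // ρ ∈ U} => (ρ : Ei)) (eT T) κ)
      0 b := by
  refine datC (fun z => -κ * bet T S₀ b z) hS₀ (-κ) 0 (Or.inl (neg_ne_zero.2 hκ))
    (fun l => ?_) hL (T := T) ?_
  · rw [zero_mul, add_zero]
    rfl
  · intro p hi hp hd hl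
    subst hl
    rw [ker2_iff (fun j => eT_ne j) (cW_symm (pq_un hp hS₀)),
      lapC_reindex (emE hi hd).optionCongr]
    have e : (fun a a' : Option (S₀ ⊕ ι) => wC (cW (fun ρ : {ρ // ρ ∈ S₀ ∪ univ.image p} =>
        (ρ : Ei)) (eT T)) (fun j => -κ * (eT T j * rq (j : Ei))) ((emE hi hd).optionCongr a)
          ((emE hi hd).optionCongr a')) =
        wC (ccT T S₀ (fun i => lb S₀ (p i)) (fun k l => cs (p k) (p l)))
          (fun z => -κ * bet T S₀ (fun i => lb S₀ (p i)) z) := by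
      funext a a'
      rcases a with _ | z <;> rcases a' with _ | z'
      · rfl
      · show -κ * (eT T (emE hi hd z') * rq (emE hi hd z' : Ei)) = -κ * bet T S₀ _ z'
        rw [rq_em hT hi hd]
      · show -κ * (eT T (emE hi hd z) * rq (emE hi hd z : Ei)) = -κ * bet T S₀ _ z
        rw [rq_em hT hi hd]
      · exact cW_em hT hi hp hS₀ hd z z'
    rw [e]

theorem dat5 (hT : T ⊆ S₀) (hS₀ : ∀ u ∈ S₀, Pq u) (hL : LN S₀ b) (κ : ZMod 3) :
    Dat ι S₀ (fun U => Pool.Agent.Helper68.C5.KerW (fun ρ : {ρ // ρ ∈ U} => (ρ : Ei)) (eT T) κ)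
      0 b := by
  refine datC (fun z => tau T S₀ b z - κ * bet T S₀ b z) hS₀ (-κ) 1 (Or.inr one_ne_zero)
    (fun l => ?_) hL (T := T) ?_
  · show b l (some none) - κ * b l none = _
    ring
  · intro p hi hp hd hl
    subst hl
    have hts : ∀ z, eT T (emE hi hd z) * ts κ (emE hi hd z : Ei) =
        tau T S₀ (fun i => lb S₀ (p i)) z - κ * bet T S₀ (fun i => lb S₀ (p i)) z := by
      intro z
      rw [ts_eq κ (pq_un hp hS₀ _ (emE hi hd z).2).three, ← rq_em hT hi hd, ← ts_em hT hi hd]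
      ring
    rw [ker5_iff (fun j => eT_ne j) (cW_symm (pq_un hp hS₀)),
      lapC_reindex (emE hi hd).optionCongr]
    have e : (fun a a' : Option (S₀ ⊕ ι) => wC (cW (fun ρ : {ρ // ρ ∈ S₀ ∪ univ.image p} =>
        (ρ : Ei)) (eT T)) (fun j => eT T j * ts κ (j : Ei)) ((emE hi hd).optionCongr a)
          ((emE hi hd).optionCongr a')) =
        wC (ccT T S₀ (fun i => lb S₀ (p i)) (fun k l => cs (p k) (p l)))
          (fun z => tau T S₀ (fun i => lb S₀ (p i)) z -
            κ * bet T S₀ (fun i => lb S₀ (p i)) z) := by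
      funext a a'
      rcases a with _ | z <;> rcases a' with _ | z'
      · rfl
      · exact hts z'
      · exact hts z
      · exact cW_em hT hi hp hS₀ hd z z'
    rw [e]

/-- two additional vertices -/
theorem dat6 (hT : T ⊆ S₀) (hS₀ : ∀ u ∈ S₀, Pq u) (hL : LN S₀ b) (κ : ZMod 3) :
    Dat ι S₀ (fun U => Ker6 (fun ρ : {ρ // ρ ∈ U} => (ρ : Ei)) (eT T) κ) 0 b := by
  refine dat_of (Y := Option (Option S₀))
    (by rw [Fintype.card_option, Fintype.card_option, Fintype.card_coe])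
    (fun R a a' => wD (ccT T S₀ b R)
      (fun z => -(tau T S₀ b z + κ * bet T S₀ b z) - bet T S₀ b z) (bet T S₀ b)
      (κ - ∑ z, bet T S₀ b z) ((os.trans os.optionCongr) a) ((os.trans os.optionCongr) a'))
    (fun _ _ => 0) (fun _ _ => rfl) (fun R hR a a' => wD_symm (ccT_symm hS₀ hR) _ _ _ _ _) ?_
    ?_ (fun R k l => (add_zero _).symm) ?_ ?_
  · rintro R (_ | _ | u) (_ | _ | v) <;> rfl
  · rintro R (_ | _ | u) l <;> rfl
  · intro w hw
    obtain ⟨k, hk⟩ := LN_get hL (w (some none) - (κ + 1) * w none) (-w none)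
      (fun u => w (some (some u)) * ee T u) (by
      by_cases h0 : w none = 0
      · obtain ⟨u, hu⟩ := hw
        rcases u with _ | _ | u
        · exact absurd h0 hu
        · left
          rw [h0, mul_zero, sub_zero]
          exact hu
        · exact Or.inr (Or.inr ⟨u, mul_ne_zero hu (ee_ne _ _)⟩)
      · exact Or.inr (Or.inl (neg_ne_zero.2 h0)))
    refine ⟨k, fun h0 => hk ?_⟩
    rw [Fintype.sum_option, Fintype.sum_option] at h0
    have h1 : w none * (-(b k (some none) + κ * b k none) - b k none) +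
        (w (some none) * b k none +
        ∑ u : S₀, w (some (some u)) * (ee T u * b k (some (some u)))) = 0 := h0
    rw [← h1]
    have h2 : ∑ u : S₀, w (some (some u)) * ee T u * b k (some (some u)) =
        ∑ u : S₀, w (some (some u)) * (ee T u * b k (some (some u))) :=
      Finset.sum_congr rfl fun u _ => by ring
    rw [h2]
    ring
  · intro p hi hp hd hl
    subst hl
    rw [← lapC_reindex (os.trans os.optionCongr)]
    have hts : ∀ z, -(eT T (emE hi hd z) * ts (-κ) (emE hi hd z : Ei)) -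
        eT T (emE hi hd z) * rq (emE hi hd z : Ei) =
        -(tau T S₀ (fun i => lb S₀ (p i)) z + κ * bet T S₀ (fun i => lb S₀ (p i)) z) -
          bet T S₀ (fun i => lb S₀ (p i)) z := by
      intro z
      rw [ts_eq (-κ) (pq_un hp hS₀ _ (emE hi hd z).2).three, ← rq_em hT hi hd, ← ts_em hT hi hd]
      ring
    rw [ker6_iff (fun j => eT_ne j) (cW_symm (pq_un hp hS₀)),
      lapC_reindex (emE hi hd).optionCongr.optionCongr, sum_rq hT hi hd]
    have e : (fun a a' : Option (Option (S₀ ⊕ ι)) =>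
        wD (cW (fun ρ : {ρ // ρ ∈ S₀ ∪ univ.image p} => (ρ : Ei)) (eT T))
          (fun j => -(eT T j * ts (-κ) (j : Ei)) - eT T j * rq (j : Ei))
          (fun j => eT T j * rq (j : Ei)) (κ - ∑ z, bet T S₀ (fun i => lb S₀ (p i)) z)
          ((emE hi hd).optionCongr.optionCongr a) ((emE hi hd).optionCongr.optionCongr a')) =
        wD (ccT T S₀ (fun i => lb S₀ (p i)) (fun k l => cs (p k) (p l)))
          (fun z => -(tau T S₀ (fun i => lb S₀ (p i)) z + κ * bet T S₀ (fun i => lb S₀ (p i)) z) -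
            bet T S₀ (fun i => lb S₀ (p i)) z) (bet T S₀ (fun i => lb S₀ (p i)))
          (κ - ∑ z, bet T S₀ (fun i => lb S₀ (p i)) z) := by
      funext a a'
      rcases a with _ | _ | z <;> rcases a' with _ | _ | z'
      · rfl
      · rfl
      · exact hts z'
      · rfl
      · rfl
      · exact rq_em hT hi hd z'
      · exact hts z
      · exact rq_em hT hi hd z
      · exact cW_em hT hi hp hS₀ hd z z'
    rw [e]

/-- the class with the special vertex -/
theorem dat7 (hT : T ⊆ S₀) (hS₀ : ∀ u ∈ S₀, Pq u) (hL : LN S₀ b)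
    (hs : ∑ z, bet T S₀ b z = 0) :
    Dat ι S₀ (fun U => Ker7 (fun ρ : {ρ // ρ ∈ U} => (ρ : Ei)) (eT T)) 0 b := by
  obtain ⟨z₀, hz₀⟩ := exists_ch (ι := ι) S₀
  refine dat_of (Y := Option S₀)
    (by rw [Fintype.card_option, Fintype.card_coe]; omega)
    (fun R a a' => ww (ccT T S₀ b R) (bet T S₀ b) (-∑ z, tau T S₀ b z) z₀ (os a) (os a'))
    (fun k l => dl (Sum.inr l : S₀ ⊕ ι) z₀ (b k none) + dl (Sum.inr k : S₀ ⊕ ι) z₀ (b l none))
    (fun k l => add_comm _ _) (fun R hR a a' => ww_symm (ccT_symm hS₀ hR) _ _ _ _ _) ?_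
    ?_ (fun R k l => rfl) ?_ ?_
  · rintro R (_ | u) (_ | v) <;> rfl
  · rintro R (_ | u) l <;> rfl
  · intro w hw
    obtain ⟨m, hm⟩ : ∃ m : ZMod 3, m = -∑ z, tau T S₀ b z := ⟨_, rfl⟩
    have hn : ∀ k, ∑ u, w u * ww (ccT T S₀ b fun _ _ => 0) (bet T S₀ b) (-∑ z, tau T S₀ b z) z₀
        (os (Sum.inl u)) (os (Sum.inr k)) =
        w none * (-b k none + dl (Sum.inr k : S₀ ⊕ ι) z₀ m) +
        ∑ u : S₀, w (some u) * (ee T u * b k (some (some u)) +
          (dl (Sum.inr k : S₀ ⊕ ι) z₀ (ee T u * rq (u : Ei)) +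
            dl (Sum.inl u : S₀ ⊕ ι) z₀ (b k none))) := by
      intro k
      rw [Fintype.sum_option, hm]
      rfl
    simp only [hn]
    rcases hz₀ with ⟨u₀, rfl⟩ | hE
    · -- a small prime
      obtain ⟨i, hi⟩ := LN_get hL (w (some u₀) - w none) 0 (fun u => w (some u) * ee T u) (by
        by_cases h : ∃ u : S₀, w (some u) ≠ 0
        · obtain ⟨u, hu⟩ := h
          exact Or.inr (Or.inr ⟨u, mul_ne_zero hu (ee_ne _ _)⟩)
        · left
          push Not at h
          obtain ⟨u, hu⟩ := hw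
          rcases u with _ | u
          · rw [h u₀, zero_sub]
            exact neg_ne_zero.2 hu
          · exact absurd (h u) hu)
      refine ⟨i, fun h0 => hi ?_⟩
      rw [dl_neg (by simp)] at h0
      have e : ∀ u : S₀, w (some u) * (ee T u * b i (some (some u)) +
          (dl (Sum.inr i : S₀ ⊕ ι) (Sum.inl u₀) (ee T u * rq (u : Ei)) +
            dl (Sum.inl u : S₀ ⊕ ι) (Sum.inl u₀) (b i none))) =
          w (some u) * ee T u * b i (some (some u)) +
            (if u = u₀ then w (some u) * b i none else 0) := by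
        intro u
        rw [dl_neg (by simp : (Sum.inr i : S₀ ⊕ ι) ≠ Sum.inl u₀)]
        by_cases h : u = u₀
        · rw [dl_pos (by rw [h]), if_pos h]
          ring
        · rw [dl_neg (fun h' => h (Sum.inl_injective h')), if_neg h]
          ring
      rw [sum_congr rfl fun u _ => e u, sum_add_distrib, Finset.sum_ite_eq' univ u₀,
        if_pos (mem_univ u₀)] at h0
      linear_combination h0
    · -- no small prime
      subst hE
      have hwn : w none ≠ 0 := by
        obtain ⟨u, hu⟩ := hw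
        rcases u with _ | u
        · exact hu
        · exact absurd u.2 (Finset.notMem_empty _)
      have hs' : ∑ l, b l none = 0 := by
        rw [Fintype.sum_sum_type] at hs
        have h0 : ∑ u : (∅ : Finset Ei), bet T ∅ b (Sum.inl u) = 0 := by simp
        rw [h0, zero_add] at hs
        exact hs
      obtain ⟨i, hi⟩ := LN_get hL 1 0 (fun _ => 0) (Or.inl one_ne_zero)
      have hi' : b i none ≠ 0 := by
        intro h
        apply hi
        rw [h]
        simp
      have hk : ∃ k, (Sum.inr k : (∅ : Finset Ei) ⊕ ι) ≠ z₀ ∧ b k none ≠ 0 := by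
        by_contra hc
        push Not at hc
        have h1 : (Sum.inr i : (∅ : Finset Ei) ⊕ ι) = z₀ := by
          by_contra h
          exact hi' (hc i h)
        apply hi'
        rw [← hs']
        symm
        refine Finset.sum_eq_single i (fun k _ hki => ?_) (fun h => absurd (mem_univ i) h)
        refine hc k fun h2 => hki ?_
        rw [← h1] at h2
        exact Sum.inr_injective h2
      obtain ⟨k, hk1, hk2⟩ := hk
      refine ⟨k, fun h0 => ?_⟩
      rw [dl_neg hk1] at h0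
      have h3 : ∑ u : (∅ : Finset Ei), w (some u) * (ee T u * b k (some (some u)) +
          (dl (Sum.inr k : (∅ : Finset Ei) ⊕ ι) z₀ (ee T u * rq (u : Ei)) +
            dl (Sum.inl u : (∅ : Finset Ei) ⊕ ι) z₀ (b k none))) = 0 := by simp
      rw [h3, add_zero, add_zero, mul_neg, neg_eq_zero, mul_eq_zero] at h0
      rcases h0 with h0 | h0
      · exact hwn h0
      · exact hk2 h0
  · intro p hi hp hd hl
    subst hl
    rw [← lapC_reindex os]
    rw [ker7_iff (fun j => eT_ne j) (emE hi hd z₀) (by rw [sum_rq hT hi hd]; exact hs),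
      lapC_reindex (emE hi hd).optionCongr, sum_ts hT hi hd]
    have hdl : ∀ z x, dl (emE hi hd z) (emE hi hd z₀) x = dl z z₀ x := by
      intro z x
      unfold dl
      by_cases h : z = z₀
      · rw [if_pos h, if_pos (by rw [h])]
      · rw [if_neg h, if_neg fun h' => h ((emE hi hd).injective h')]
    have e : (fun a a' : Option (S₀ ⊕ ι) =>
        ww (cW (fun ρ : {ρ // ρ ∈ S₀ ∪ univ.image p} => (ρ : Ei)) (eT T))
          (fun j => eT T j * rq (j : Ei)) (-∑ z, tau T S₀ (fun i => lb S₀ (p i)) z)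
          (emE hi hd z₀) ((emE hi hd).optionCongr a) ((emE hi hd).optionCongr a')) =
        ww (ccT T S₀ (fun i => lb S₀ (p i)) (fun k l => cs (p k) (p l)))
          (bet T S₀ (fun i => lb S₀ (p i))) (-∑ z, tau T S₀ (fun i => lb S₀ (p i)) z) z₀ := by
      funext a a'
      rcases a with _ | z <;> rcases a' with _ | z'
      · rfl
      · show -(eT T (emE hi hd z') * rq (emE hi hd z' : Ei)) +
          dl (emE hi hd z') (emE hi hd z₀) _ = -bet T S₀ _ z' + dl z' z₀ _
        rw [rq_em hT hi hd, hdl]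
      · show -(eT T (emE hi hd z) * rq (emE hi hd z : Ei)) +
          dl (emE hi hd z) (emE hi hd z₀) _ = -bet T S₀ _ z + dl z z₀ _
        rw [rq_em hT hi hd, hdl]
      · show cW _ (eT T) (emE hi hd z) (emE hi hd z') +
          (dl (emE hi hd z') (emE hi hd z₀) (eT T (emE hi hd z) * rq (emE hi hd z : Ei)) +
            dl (emE hi hd z) (emE hi hd z₀) (eT T (emE hi hd z') * rq (emE hi hd z' : Ei))) =
          ccT T S₀ _ _ z z' + (dl z' z₀ (bet T S₀ _ z) + dl z z₀ (bet T S₀ _ z'))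
        rw [rq_em hT hi hd, rq_em hT hi hd, hdl, hdl, cW_em hT hi hp hS₀ hd z z']
    rw [e]

end

end Pool.Agent.Helper68.C8.CF
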