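import Pool.Agent.Helper68.C8.CFc
import Pool.Agent.Helper68.C7.D7

/-!
# The boxes and the asymptotics

Part 4 of the module CF (adapted from `Pool.Agent.Helper68.C6.SV`).
-/

set_option autoImplicit false
set_option linter.unusedSectionVars false

open scoped Classical
open Finset Filter

namespace Pool.Agent.Helper68.C8.CF

open Pool.Agent.Y692.QS (Ei w nr toC)
open Pool.Agent.Y715.T.Rec (cs)
open Pool.Agent.Y715.T.RecG (Pq)
open Pool.Agent.Y703.CT (rq rq_mul ex_q Ker)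
open Pool.Agent.Y699.E (nrm QB PD prm)
open Pool.Agent.Y703.CX (jj XX eL zz kk eL_tendsto logX_eq rpow_eL HH NN ev_eL one_le_exp
  HH_ge HH_le HH_pos kk_ge kk_le X_pos one_add_log lin_le zz_ge zz_pos)
open Pool.Agent.Y703.CQ (Sml sml_of sml_add)
open Pool.Agent.Y703.XK (HB prs ext c9 sm la bl S_BIL S_EQ S_C9
  sml_eps kk_pos sml_main kap kap_nonneg kap_pow cmp)
open Pool.Agent.Y703.XL (cr cr_pos cr_le S_LA)
open Pool.Agent.Helper68.C3 (Bt SS RR Nd S_CNT S_FEW S_LOW)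
open Pool.Agent.Helper68.C3.Asy3 (sml_many sml_cut sml_coll t_LOW)
open Pool.Agent.XLK (sm_union)
open Pool.Agent.Helper68.C5.Chr5 (ts ts_mul ts_per cp_prim ts_prim lt)
open Pool.Agent.Helper68.C6.SV (BoxN t_KEY Nd2 LN S_BAD2 t_BAD2)
open Pool.Agent.Helper68.C6 (Bt2 Ker6)
open Pool.Agent.Helper68.C7 (Ker7)
open Pool.Agent.Helper68.C7.D7 (lb bt_rq)

/-! ### The two characters -/

/-- the first character -/
def bq (x : Ei) : ZMod 3 := rq x + ts 0 x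

/-- the second character -/
def bt (x : Ei) : ZMod 3 := -ts 0 x

theorem comb {t s : ZMod 3} {a : Ei} (ha : prm a) : ∃ x y : ℤ, a = 1 + 3 * ⟨x, y⟩ ∧
    t * bq a + s * bt a = t * (x + y : ℤ) + (t - s) * (y : ℤ) := by
  obtain ⟨x, y, e, hr⟩ := ex_q (α := a) ha
  refine ⟨x, y, e, ?_⟩
  have hts := ts_prim 0 ⟨x, y⟩
  rw [← e] at hts
  unfold bq bt
  rw [hts, hr]
  unfold lt
  push_cast
  ring

theorem cp_prm {a : Ei} (ha : prm a) : Pool.Agent.Helper68.C5.Chr5.Cp a := by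
  obtain ⟨k, hk⟩ := ha
  have h1 : a = 1 + 3 * k := by rw [← hk]; ring
  rw [h1]
  exact cp_prim k

theorem bt2 : Bt2 bq bt := by
  intro t s hts
  refine ⟨fun a b ha hb => ?_, fun a b ha hb hab => ?_, ?_⟩
  · unfold bq bt
    rw [(rq_mul ha hb).2, ts_mul (cp_prm ha) (cp_prm hb)]
    ring
  · unfold bq bt
    rw [bt_rq.per a b ha hb hab, ts_per (cp_prm hb) hab]
  · by_cases ht : t = 0
    · refine ⟨1 + 3 * ⟨0, 1⟩, ⟨⟨0, 1⟩, by ring⟩, ?_⟩
      have hs : s ≠ 0 := by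
        rcases hts with h | h
        · exact absurd ht h
        · exact h
      have h2 := ts_prim 0 ⟨0, 1⟩
      show t * bq _ + s * bt _ ≠ 0
      unfold bq bt
      rw [ht, zero_mul, zero_add, h2]
      unfold lt
      simpa using hs
    · refine ⟨1 + 3 * ⟨1, 0⟩, ⟨⟨1, 0⟩, by ring⟩, ?_⟩
      have h2 := ts_prim 0 ⟨1, 0⟩
      have h3 : rq (1 + 3 * (⟨1, 0⟩ : Ei)) = 1 := by decide
      show t * bq _ + s * bt _ ≠ 0
      unfold bq bt
      rw [h2, h3]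
      unfold lt
      simpa using ht

theorem nd_iff {ι : Type} [Fintype ι] {S₀ : Finset Ei} {p : ι → Ei} :
    Nd2 bq bt S₀ (univ.image p) ↔ LN S₀ (fun i => lb S₀ (p i)) := by
  have e : (fun i => Pool.Agent.Helper68.C6.SV.lb bq bt S₀ (p i)) = fun i => lb S₀ (p i) := by
    funext i o
    rcases o with _ | _ | u
    · show rq (p i) + ts 0 (p i) + -ts 0 (p i) = rq (p i)
      ring
    · show -(-ts 0 (p i)) = ts 0 (p i)
      ring
    · rfl
  rw [Pool.Agent.Helper68.C6.SV.nd_iff, e]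

/-! ### The boxes -/

/-- non-degenerate labels, with `T` among the small primes, and a class -/
def WT (T : Finset Ei) (Q : Finset Ei → Prop) (S₀ S₁ : Finset Ei) : Prop :=
  (T ⊆ S₀ ∧ Nd2 bq bt S₀ S₁) ∧ Q (S₀ ∪ S₁)

/-- the class -/
def cls (T U : Finset Ei) : Prop := ∑ ρ : {ρ // ρ ∈ U}, eT T ρ * rq (ρ : Ei) = 0

theorem datB_of {T : Finset Ei} {Q P : Finset Ei → Prop}
    (QL : ∀ (ι : Type) [Fintype ι] (S₀ : Finset Ei), (ι → Option (Option S₀) → ZMod 3) → Prop)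
    (hQ : ∀ (ι : Type) [Fintype ι] [LinearOrder ι] (S₀ : Finset Ei), (∀ u ∈ S₀, Pq u) → T ⊆ S₀ →
      ∀ p : ι → Ei, Function.Injective p → (∀ i, Pq (p i)) → (∀ i, p i ∉ S₀) →
        (Q (S₀ ∪ univ.image p) ↔ QL ι S₀ fun i => lb S₀ (p i)))
    (hD : ∀ (ι : Type) [Fintype ι] [LinearOrder ι] [Nonempty ι] (S₀ : Finset Ei),
      (∀ u ∈ S₀, Pq u) → T ⊆ S₀ → ∀ b, LN S₀ b → QL ι S₀ b → Dat ι S₀ P 0 b) :
    DatB (WT T Q) P 0 := by
  intro ι _ _ S₀ hS₀ hc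
  have hne : Nonempty ι := Fintype.card_pos_iff.1 (by omega)
  refine ⟨univ.filter fun b => T ⊆ S₀ ∧ LN S₀ b ∧ QL ι S₀ b, fun p hi hp hd => ?_,
    fun b hb => ?_⟩
  · unfold WT
    rw [mem_filter, nd_iff]
    constructor
    · rintro ⟨⟨h1, h2⟩, h3⟩
      exact ⟨mem_univ _, h1, h2, (hQ ι S₀ hS₀ h1 p hi hp hd).1 h3⟩
    · rintro ⟨-, h1, h2, h3⟩
      exact ⟨⟨h1, h2⟩, (hQ ι S₀ hS₀ h1 p hi hp hd).2 h3⟩
  · rw [mem_filter] at hb
    exact hD ι S₀ hS₀ hb.2.1 b hb.2.2.1 hb.2.2.2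

theorem datB_A (T : Finset Ei) : DatB (WT T fun U => ¬ cls T U)
    (fun U => Ker (fun ρ : {ρ // ρ ∈ U} => (ρ : Ei)) (eT T)) 0 := by
  refine datB_of (fun ι _ S₀ b => ¬ ∑ z, bet T S₀ b z = 0) ?_ ?_
  · intro ι _ _ S₀ hS₀ hT p hi hp hd
    unfold cls
    rw [sum_rq hT hi hd]
  · intro ι _ _ _ S₀ hS₀ hT b hL _
    exact datA hT hS₀ hL

theorem datB_7 (T : Finset Ei) : DatB (WT T (cls T))
    (fun U => Ker7 (fun ρ : {ρ // ρ ∈ U} => (ρ : Ei)) (eT T)) 0 := by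
  refine datB_of (fun ι _ S₀ b => ∑ z, bet T S₀ b z = 0) ?_ ?_
  · intro ι _ _ S₀ hS₀ hT p hi hp hd
    unfold cls
    rw [sum_rq hT hi hd]
  · intro ι _ _ _ S₀ hS₀ hT b hL hs
    exact dat7 hT hS₀ hL hs

theorem datB_2 (T : Finset Ei) {κ : ZMod 3} (hκ : κ ≠ 0) : DatB (WT T fun _ => True)
    (fun U => Pool.Agent.Helper68.C2.KerW (fun ρ : {ρ // ρ ∈ U} => (ρ : Ei)) (eT T) κ) 0 := by
  refine datB_of (fun ι _ S₀ b => True) ?_ ?_
  · intro ι _ _ S₀ hS₀ hT p hi hp hd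
    exact Iff.rfl
  · intro ι _ _ _ S₀ hS₀ hT b hL _
    exact dat2 hT hS₀ hL hκ

theorem datB_5 (T : Finset Ei) (κ : ZMod 3) : DatB (WT T fun _ => True)
    (fun U => Pool.Agent.Helper68.C5.KerW (fun ρ : {ρ // ρ ∈ U} => (ρ : Ei)) (eT T) κ) 0 := by
  refine datB_of (fun ι _ S₀ b => True) ?_ ?_
  · intro ι _ _ S₀ hS₀ hT p hi hp hd
    exact Iff.rfl
  · intro ι _ _ _ S₀ hS₀ hT b hL _
    exact dat5 hT hS₀ hL κ

theorem datB_6 (T : Finset Ei) (κ : ZMod 3) : DatB (WT T fun _ => True)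
    (fun U => Ker6 (fun ρ : {ρ // ρ ∈ U} => (ρ : Ei)) (eT T) κ) 0 := by
  refine datB_of (fun ι _ S₀ b => True) ?_ ?_
  · intro ι _ _ S₀ hS₀ hT p hi hp hd
    exact Iff.rfl
  · intro ι _ _ _ S₀ hS₀ hT b hL _
    exact dat6 hT hS₀ hL κ

/-! ### The asymptotics -/

/-- the sets containing `T` in a class -/
noncomputable def SQ (T : Finset Ei) (Q : Finset Ei → Prop) (X : ℕ) : Finset (Finset Ei) :=
  (SS X).filter fun U => T ⊆ U ∧ Q U

theorem ev_zz (M : ℕ) : ∀ᶠ X : ℕ in atTop, M ≤ zz X := by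
  filter_upwards [ev_eL (max 1 M)] with X h
  have h1 : (1 : ℝ) ≤ eL X := (le_max_left _ _).trans h
  have h2 : (M : ℝ) ≤ eL X := (le_max_right _ _).trans h
  unfold zz
  refine Nat.le_floor ?_
  have h3 := Real.add_one_le_exp ((eL X) ^ 3)
  have h4 : eL X ≤ (eL X) ^ 3 := le_self_pow₀ h1 (by norm_num)
  linarith

/-- the sets outside the regular part -/
theorem out_subT (T : Finset Ei) (Q : Finset Ei → Prop) (X z H k V : ℕ)
    (hz : ∀ π ∈ T, nrm π ≤ z) :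
    SQ T Q X \ ((RR X z H k (V + 1)).filter fun S => WT T Q (sm z S) (la z S)) ⊆
      (((((SS X).filter fun S => k < S.card) ∪
      ((SS X).filter fun S => S.card ≤ k ∧
        X < (∏ π ∈ sm z S, nrm π) * ∏ π ∈ la z S, XX H (bl H π))) ∪
      ((SS X).filter fun S => ¬ Set.InjOn (bl H) (la z S : Set Ei))) ∪
      ((SS X).filter fun S => S.card ≤ k ∧ (la z S).card ≤ (sm z S).card + (V + 2))) ∪
      ((SS X).filter fun S => S.card ≤ k ∧ ¬ Nd2 bq bt (sm z S) (la z S)) := by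
  intro S hS
  rw [Finset.mem_sdiff, Finset.mem_filter] at hS
  obtain ⟨h1', h2⟩ := hS
  unfold SQ at h1'
  rw [mem_filter] at h1'
  obtain ⟨h1, hT, h0⟩ := h1'
  simp only [mem_union, mem_filter]
  by_contra hc
  push Not at hc
  obtain ⟨⟨⟨⟨c1, c2⟩, c3⟩, c4⟩, c5⟩ := hc
  have d1 : S.card ≤ k := c1 h1
  have d2 := c2 h1 d1
  have d3 := c3 h1
  have d4 := c4 h1 d1
  have d5 := c5 h1 d1
  apply h2
  refine ⟨?_, ⟨?_, d5⟩, ?_⟩
  · unfold RR
    rw [mem_filter]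
    exact ⟨h1, d3, d1, d2, by omega⟩
  · intro π hπ
    unfold sm
    rw [mem_filter]
    exact ⟨hT hπ, hz π hπ⟩
  · rw [sm_union]
    exact h0

theorem t_AS {T : Finset Ei} {Q P : Finset Ei → Prop} (h1 : S_BIL)
    (hBx : BoxN (WT T Q) P (cr 0) (3 ^ (0 + 1)))
    (hC : S_CNT) (hB : S_BAD2 bq bt) (hF : S_FEW) (hc9 : S_C9) {ε : ℝ} (hε : 0 < ε) :
    ∀ᶠ X : ℕ in atTop,
      |(((SQ T Q X).filter P).card : ℝ) - cr 0 * ((SQ T Q X).card : ℝ)| ≤ ε * X := by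
  obtain ⟨C, hC1, hkey⟩ := t_KEY h1 (by positivity) hBx
  obtain ⟨D, hD⟩ := hC
  obtain ⟨K, hKd⟩ : ∃ K : ℝ, K = 3 ^ (0 + 1) := ⟨_, rfl⟩
  have hKp : 0 < K := by rw [hKd]; positivity
  have hD1 : (1 : ℝ) ≤ D := hD.one
  have hD0 : (0 : ℝ) < D := by linarith
  obtain ⟨V, hV⟩ := exists_pow_lt_of_lt_one (show (0 : ℝ) < ε / (2 * (K * D)) by positivity)
    (show (1 / 3 : ℝ) < 1 by norm_num)
  have s1 := sml_many hD
  have s2 := sml_cut hD
  have s3 := sml_coll hD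
  have s4 := sml_eps (hF (V + 2))
  have s5 := sml_eps hB
  have s6 := sml_main hC1
  have s := sml_add (sml_add (sml_add (sml_add (sml_add s1 s2) s3) s4) s5) s6
  have hδ : (0 : ℝ) < ε / 4 := by positivity
  filter_upwards [s (ε / 4) hδ, ev_eL 1, ev_zz (T.sup nrm)] with X hX hl hzz
  rw [neg_zero, zero_mul, Real.exp_zero, mul_one] at hX
  have hl0 : 0 < eL X := by linarith
  have hXp := X_pos hl0
  have hXp' : (0 : ℝ) < X := by exact_mod_cast hXp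
  have hN : (HH X : ℝ) * Real.log X < NN X := by
    unfold NN
    push_cast
    exact Nat.lt_floor_add_one _
  have hmain := hkey X (zz X) (HH X) (kk X) V (NN X) (kap C X) hXp (HH_pos hl0) (zz_pos hl)
    (kap_nonneg hC1 X) (kap_pow hC1 hl) hN
  set T' := (RR X (zz X) (HH X) (kk X) (V + 1)).filter fun S => WT T Q (sm (zz X) S) (la (zz X) S)
    with hT'
  have hTG : (RR X (zz X) (HH X) (kk X) (V + 1)).filter
      (fun S => WT T Q (sm (zz X) S) (la (zz X) S) ∧ P S) = T'.filter P := by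
    rw [hT', filter_filter]
  rw [hTG] at hmain
  have hTS : T' ⊆ SQ T Q X := by
    intro S hS
    rw [hT', mem_filter] at hS
    obtain ⟨h2, ⟨h3, -⟩, h4⟩ := hS
    rw [sm_union] at h4
    unfold RR at h2
    rw [mem_filter] at h2
    unfold SQ
    rw [mem_filter]
    exact ⟨h2.1, h3.trans (filter_subset _ _), h4⟩
  have hRS : ((RR X (zz X) (HH X) (kk X) (V + 1)).card : ℝ) ≤ D * X := by
    refine le_trans ?_ (hD.all X hXp)
    exact_mod_cast card_le_card (filter_subset _ _)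
  have hcmp := cmp P T' (SQ T Q X) hTS (cr 0) (cr_pos hc9 0).le (cr_le hc9 0)
  have hout : ((SQ T Q X \ T').card : ℝ) ≤
      ((((SS X).filter fun S => kk X < S.card).card : ℝ) +
      (((SS X).filter fun S => S.card ≤ kk X ∧
        X < (∏ π ∈ sm (zz X) S, nrm π) * ∏ π ∈ la (zz X) S, XX (HH X) (bl (HH X) π)).card : ℝ) +
      (((SS X).filter fun S => ¬ Set.InjOn (bl (HH X)) (la (zz X) S : Set Ei)).card : ℝ) +
      (((SS X).filter fun S => S.card ≤ kk X ∧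
        (la (zz X) S).card ≤ (sm (zz X) S).card + (V + 2)).card : ℝ)) +
      (((SS X).filter fun S => S.card ≤ kk X ∧
        ¬ Nd2 bq bt (sm (zz X) S) (la (zz X) S)).card : ℝ) := by
    have g := card_le_card (out_subT T Q X (zz X) (HH X) (kk X) V
      (fun π hπ => (le_sup (f := nrm) hπ).trans hzz))
    rw [← hT'] at g
    have g2 := (g.trans (card_union_le _ _)).trans (Nat.add_le_add_right ((card_union_le _ _).trans
      (Nat.add_le_add_right ((card_union_le _ _).trans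
      (Nat.add_le_add_right (card_union_le _ _) _)) _)) _)
    exact_mod_cast g2
  rw [← hKd] at hmain
  have g1 : K * (1 / 3 : ℝ) ^ V * ((RR X (zz X) (HH X) (kk X) (V + 1)).card : ℝ) ≤
      K * (1 / 3 : ℝ) ^ V * (D * X) := mul_le_mul_of_nonneg_left hRS (by positivity)
  have g3 : K * (1 / 3 : ℝ) ^ V * (D * X) ≤ K * (ε / (2 * (K * D))) * (D * X) := by
    gcongr
  have g5 : K * (ε / (2 * (K * D))) * (D * X) = ε / 2 * X := by
    field_simp
  rw [g5] at g3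
  have g4 : 0 < ε * X := by positivity
  linarith

/-- the asymptotics with all the inputs -/
theorem t_AS' {T : Finset Ei} {Q P : Finset Ei → Prop} (hD : DatB (WT T Q) P 0) {ε : ℝ}
    (hε : 0 < ε) : ∀ᶠ X : ℕ in atTop,
      |(((SQ T Q X).filter P).card : ℝ) - cr 0 * ((SQ T Q X).card : ℝ)| ≤ ε * X :=
  t_AS Pool.Agent.Y363.XK.t_BIL
    (t_GBOX Pool.Agent.Y710.XK.t_EQ Pool.Agent.Y703.XL.t_LA 0 hD)
    Pool.Agent.Helper68.C3.Cnt3.t_CNT (t_BAD2 bt2) Pool.Agent.Helper68.C3.Few3.t_FEW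
    Pool.Agent.Y703.XL.t_C9 hε

end Pool.Agent.Helper68.C8.CF
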