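import Pool.Graph.R_seed8.Y696.CTK.Asm

/-!
# The criterion for the cubic twists over `ℚ(ω)`: definitions
-/

set_option autoImplicit false
set_option linter.unusedVariables false

open scoped Classical

namespace Pool.Agent.Helper68.C8

open NumberField
open Pool.Agent.Y696.CTK (Tri)

section
variable {K : Type} [Field K] [NumberField K]

/-- cube-free and not a cube (so not zero, and not `1` or `-1`) -/
def CubeFree (D : 𝓞 K) : Prop := D ≠ 1 ∧ D ≠ -1 ∧ ∀ x : 𝓞 K, x ^ 3 ∣ D → IsUnit x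

/-- `D = ± √-3 ^ a ω ^ k ∏ π_i ^ e_i`, `√-3 = ω - ω²`, with different primes `π_i = 1` modulo `3`
and `a, k ∈ {0, 1, 2}`, `e_i ∈ {1, 2}` -/
structure IsFact (ω D : 𝓞 K) (a k n : ℕ) (π : Fin n → 𝓞 K) (e : Fin n → ℕ) : Prop where
  om : ω ^ 2 + ω + 1 = 0
  ale : a ≤ 2
  kle : k ≤ 2
  prime : ∀ i, Prime (π i) ∧ (3 : 𝓞 K) ∣ π i - 1
  inj : Function.Injective π
  exp : ∀ i, e i = 1 ∨ e i = 2
  eq : D = (ω - ω ^ 2) ^ a * ω ^ k * ∏ i, π i ^ e i ∨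
    D = -((ω - ω ^ 2) ^ a * ω ^ k * ∏ i, π i ^ e i)

/-- the exponent `(N π - 1) / 3` of the cubic residue symbol -/
noncomputable def ex (π : 𝓞 K) : ℕ := ((Algebra.norm ℤ π).natAbs - 1) / 3

/-- the cubic residue symbols: `(π_i / π_j) = ω ^ χ j i`, `(ω / π_j) = ω ^ ν j`,
`(√-3 / π_j) = ω ^ τ j`; and `π_j = 1 + 3 (x + μ_j ω)` -/
structure IsSym (ω : 𝓞 K) {n : ℕ} (π : Fin n → 𝓞 K) (χ : Fin n → Fin n → ZMod 3)
    (ν τ μ : Fin n → ZMod 3) : Prop where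
  chi : ∀ i j, i ≠ j → π j ∣ π i ^ ex (π j) - ω ^ (χ j i).val
  nu : ∀ j, π j ∣ ω ^ ex (π j) - ω ^ (ν j).val
  tau : ∀ j, π j ∣ (ω - ω ^ 2) ^ ex (π j) - ω ^ (τ j).val
  mu : ∀ j, ∃ x y : ℤ, π j = 1 + 3 * ((x : 𝓞 K) + (y : 𝓞 K) * ω) ∧ μ j = (y : ZMod 3)

/-- the linear system over the field with three elements, with the unknowns `v_1, ..., v_n, s`, has
only the trivial solutions: `s = 0` and `v = 0`, if `a = k = 0` (`D = ± 1` modulo `3`): `s = 0` and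
`v` constant. The equations are `∑_i e_i χ_ji (v_i - v_j) = (a τ_j + k ν_j) v_j - s ν_j` for all `j`
and one equation for the prime `√-3`: `k s = ∑_i e_i ν_i v_i` if `a = 1`;
`∑_i e_i ν_i v_i = -s ∑_i e_i μ_i` if `D = ± 1` modulo `3 √-3` (that is `a = k = ∑_i e_i ν_i = 0`);
`s = 0` in all other cases. -/
def Sys {n : ℕ} (a k : ℕ) (e : Fin n → ℕ) (χ : Fin n → Fin n → ZMod 3)
    (ν τ μ : Fin n → ZMod 3) : Prop :=
  ∀ (v : Fin n → ZMod 3) (s : ZMod 3),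
    (∀ j, ∑ i, (e i : ZMod 3) * χ j i * (v i - v j) =
      ((a : ZMod 3) * τ j + (k : ZMod 3) * ν j) * v j - s * ν j) →
    (if a = 1 then (k : ZMod 3) * s = ∑ i, (e i : ZMod 3) * ν i * v i
      else if a = 0 ∧ k = 0 ∧ ∑ i, (e i : ZMod 3) * ν i = 0 then
        ∑ i, (e i : ZMod 3) * ν i * v i = -(s * ∑ i, (e i : ZMod 3) * μ i)
      else s = 0) →
    s = 0 ∧ (if a = 0 ∧ k = 0 then ∀ i j, v i = v j else ∀ i, v i = 0)

/-- the criterion: `D` has such a factorization, and for each of them `Tri D` holds exactly when the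
linear system has only the trivial solutions -/
def Crit (D : 𝓞 K) : Prop :=
  (∃ (ω : 𝓞 K) (a k n : ℕ) (π : Fin n → 𝓞 K) (e : Fin n → ℕ) (χ : Fin n → Fin n → ZMod 3)
    (ν τ μ : Fin n → ZMod 3), IsFact ω D a k n π e ∧ IsSym ω π χ ν τ μ) ∧
  ∀ (ω : 𝓞 K) (a k n : ℕ) (π : Fin n → 𝓞 K) (e : Fin n → ℕ) (χ : Fin n → Fin n → ZMod 3)
    (ν τ μ : Fin n → ZMod 3), IsFact ω D a k n π e → IsSym ω π χ ν τ μ →
      (Tri D ↔ Sys a k e χ ν τ μ)

end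

end Pool.Agent.Helper68.C8
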